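import Pool.Agent.J4H18.EX.B1

/-!
Regularity: uniform bounds of the time derivative of strong solutions.
-/

set_option autoImplicit false
set_option linter.unusedSectionVars false
set_option linter.unusedVariables false

open MeasureTheory Set Filter Topology
open scoped InnerProductSpace ENNReal

namespace Pool.Agent.J4H18.EX

open H772R2.NSR (Frame prim_cont grad_unique exists_weak_limit mem_of_weak_limit)
open Pool.Agent.W795.TQ (Str FH Univ)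

theorem young_abw {a w s Z η : ℝ} (ha : 0 ≤ a) (hw : 0 ≤ w) (hs : 0 < s) (hZ : 0 ≤ Z)
    (hη : 0 < η) : Z ^ 2 * (√a * √w) ≤
      η * a ^ 2 + η * (s * w ^ 2) + Z ^ 4 / (8 * η) * s ^ (-(1 / 2) : ℝ) := by
  set r : ℝ := √s with hr
  have hr0 : 0 < r := Real.sqrt_pos.2 hs
  have hr2 : r ^ 2 = s := Real.sq_sqrt hs.le
  have e1 : s ^ (-(1 / 2) : ℝ) = 1 / r := by
    rw [Real.rpow_neg hs.le, ← Real.sqrt_eq_rpow, one_div]
  have h1 : (√a * √w) ^ 2 = a * w := by rw [mul_pow, Real.sq_sqrt ha, Real.sq_sqrt hw]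
  set X : ℝ := √a * √w with hX
  have hX0 : 0 ≤ X := by positivity
  -- X² r ≤ (a² + s w²)/2
  have h2 : 2 * (X ^ 2 * r) ≤ a ^ 2 + s * w ^ 2 := by
    rw [h1, ← hr2]
    nlinarith [sq_nonneg (a - r * w)]
  have h3 : Z ^ 2 * X ≤ 2 * η * (X ^ 2 * r) + Z ^ 4 / (8 * η) * (1 / r) := by
    have h4 : 0 ≤ (4 * η * r * X - Z ^ 2) ^ 2 / (8 * η * r) := by positivity
    have h5 : (4 * η * r * X - Z ^ 2) ^ 2 / (8 * η * r) =
        2 * η * (X ^ 2 * r) + Z ^ 4 / (8 * η) * (1 / r) - Z ^ 2 * X := by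
      field_simp; ring
    linarith
  rw [e1]
  have h6 : 2 * η * (X ^ 2 * r) ≤ η * (a ^ 2 + s * w ^ 2) := by
    calc 2 * η * (X ^ 2 * r) = η * (2 * (X ^ 2 * r)) := by ring
      _ ≤ _ := by gcongr
  linarith

theorem int_rpow_half {t : ℝ} (ht : 0 ≤ t) :
    IntervalIntegrable (fun s : ℝ => s ^ (-(1 / 2) : ℝ)) volume 0 t ∧
    ∫ s in (0 : ℝ)..t, s ^ (-(1 / 2) : ℝ) = 2 * √t := by
  refine ⟨intervalIntegral.intervalIntegrable_rpow' (by norm_num), ?_⟩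
  rw [integral_rpow (Or.inl (by norm_num)), Real.sqrt_eq_rpow]
  norm_num
  ring

theorem unif_est {c ν T Φ G Z : ℝ} (hc : 0 < c) (hν : 0 < ν) (hT : 0 < T) (hΦ0 : 0 ≤ Φ)
    (hG0 : 0 ≤ G) (hZ0 : 0 ≤ Z) : ∃ M : ℝ, 0 ≤ M ∧
    ∀ (H K : Type) [NormedAddCommGroup H] [InnerProductSpace ℝ H] [CompleteSpace H]
    [NormedAddCommGroup K] [InnerProductSpace ℝ K] [CompleteSpace K]
    (W : Submodule ℝ (H × K)) (m : H → K) (C : ℝ) (F F1 : ℝ → K)
    (v v1 : ℝ → H) (y y1 : ℝ → K), Frame W m C → Univ W m c → FH T F F1 →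
    (∀ t ∈ Icc 0 T, ‖F t‖ ≤ Φ) → ∫ s in (0 : ℝ)..T, ‖F1 s‖ ^ 2 ≤ G →
    Str W m ν T F v v1 y y1 → (∀ t ∈ Icc 0 T, ‖y t‖ ≤ Z) →
    ∀ᵐ t ∂(volume.restrict (Ioc 0 T)),
      t * ‖v1 t‖ ^ 2 + ν * ∫ s in (0 : ℝ)..t, s * ‖y1 s‖ ^ 2 ≤ M := by
  set κ : ℝ := 1 + 14 * c ^ 4 / ν ^ 3 * (T * Z ^ 4) with hκ
  have hκ0 : 0 < κ := by positivity
  set g : ℝ := 2 / ν * (T * G) with hg
  have hg0 : 0 ≤ g := by positivity
  set η : ℝ := 1 / (2 * c * (1 + κ / ν)) with hη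
  have hη0 : 0 < η := by positivity
  set K0 : ℝ := ν * Z ^ 2 + 4 * Φ * Z + (G + T * Z ^ 2) with hK0
  have hK00 : 0 ≤ K0 := by positivity
  set M1 : ℝ := K0 + 2 * c * (η * (g / ν)) + 2 * c * (Z ^ 4 / (8 * η) * (2 * √T)) with hM1
  have hM10 : 0 ≤ M1 := by positivity
  refine ⟨κ * M1 + g, by positivity, ?_⟩
  intro H K _ _ _ _ _ _ W m C F F1 v v1 y y1 Fr Un hF hΦ hG S hyZ
  have est1 := Pool.Agent.W503.TQ.proof_est1 H K W m C c ν T F F1 v v1 y y1 Φ Fr Un hν hT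
    hF S hΦ0 hΦ 0 ⟨le_rfl, hT.le⟩
  have est2 := Pool.Agent.W790.TQ.proof_est2 H K W m C c ν T F F1 v v1 y y1 Fr Un hν hT
    hF S 0 ⟨le_rfl, hT⟩
  have hia : IntegrableOn (fun s => ‖v1 s‖ ^ 2) (Ioc 0 T) :=
    (memLp_two_iff_integrable_sq_norm S.u1m.aestronglyMeasurable).mp S.u1m
  have hiw : IntegrableOn (fun s => ‖y1 s‖ ^ 2) (Ioc 0 T) :=
    (memLp_two_iff_integrable_sq_norm S.z1m.aestronglyMeasurable).mp S.z1m
  have hiF : IntegrableOn (fun s => ‖F1 s‖ ^ 2) (Ioc 0 T) :=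
    (memLp_two_iff_integrable_sq_norm hF.memLp.aestronglyMeasurable).mp hF.memLp
  have hisw : IntegrableOn (fun s => s * ‖y1 s‖ ^ 2) (Ioc 0 T) := by
    refine (hiw.const_mul T).mono' ?_ ?_
    · exact (continuous_id.aestronglyMeasurable).mul hiw.aestronglyMeasurable
    · filter_upwards [ae_restrict_mem measurableSet_Ioc] with s hs
      rw [norm_mul, Real.norm_of_nonneg hs.1.le, Real.norm_of_nonneg (by positivity)]
      exact mul_le_mul_of_nonneg_right hs.2 (by positivity)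
  filter_upwards [est2, ae_restrict_mem measurableSet_Ioc] with t h2 htm
  have h1 := est1 t ⟨htm.1.le, htm.2⟩
  have hsub : Ioc 0 t ⊆ Ioc 0 T := Ioc_subset_Ioc_right htm.2
  simp only [sub_zero] at h2
  set A : ℝ := ∫ s in (0 : ℝ)..t, ‖v1 s‖ ^ 2 with hA
  set B : ℝ := ∫ s in (0 : ℝ)..t, s * ‖y1 s‖ ^ 2 with hB
  have hA0 : 0 ≤ A := intervalIntegral.integral_nonneg htm.1.le fun s _ => by positivity
  have ia : IntervalIntegrable (fun s => ‖v1 s‖ ^ 2) volume 0 t :=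
    (intervalIntegrable_iff_integrableOn_Ioc_of_le htm.1.le).2 (hia.mono_set hsub)
  have isw : IntervalIntegrable (fun s => s * ‖y1 s‖ ^ 2) volume 0 t :=
    (intervalIntegrable_iff_integrableOn_Ioc_of_le htm.1.le).2 (hisw.mono_set hsub)
  have iF : IntervalIntegrable (fun s => ‖F1 s‖ ^ 2) volume 0 t :=
    (intervalIntegrable_iff_integrableOn_Ioc_of_le htm.1.le).2 (hiF.mono_set hsub)
  obtain ⟨ir, er⟩ := int_rpow_half htm.1.le
  -- the monotonicity of integrals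
  have mono : ∀ f k : ℝ → ℝ, (∀ s ∈ Ioc 0 t, 0 ≤ f s) → (∀ s ∈ Ioc 0 t, f s ≤ k s) →
      IntervalIntegrable k volume 0 t → ∫ s in (0 : ℝ)..t, f s ≤ ∫ s in (0 : ℝ)..t, k s := by
    intro f k h0 hfk hk
    rw [intervalIntegral.integral_of_le htm.1.le, intervalIntegral.integral_of_le htm.1.le]
    refine integral_mono_of_nonneg ?_
      ((intervalIntegrable_iff_integrableOn_Ioc_of_le htm.1.le).1 hk) ?_
    · filter_upwards [ae_restrict_mem measurableSet_Ioc] with s hs using h0 s hs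
    · filter_upwards [ae_restrict_mem measurableSet_Ioc] with s hs using hfk s hs
  have hyZ' : ∀ s ∈ Ioc 0 t, ‖y s‖ ≤ Z := fun s hs => hyZ s ⟨hs.1.le, hs.2.trans htm.2⟩
  -- the last term of the second estimate
  have b2 : ∫ s in (0 : ℝ)..t, s * (‖v1 s‖ ^ 2 * ‖y s‖ ^ 4) ≤ T * Z ^ 4 * A := by
    rw [hA, ← intervalIntegral.integral_const_mul]
    refine mono _ _ (fun s hs => by have := hs.1.le; positivity) (fun s hs => ?_) (ia.const_mul _)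
    have a1 := hyZ' s hs
    have a2 : s ≤ T := hs.2.trans htm.2
    have a3 := hs.1.le
    calc s * (‖v1 s‖ ^ 2 * ‖y s‖ ^ 4) ≤ T * (‖v1 s‖ ^ 2 * Z ^ 4) := by gcongr
      _ = _ := by ring
  have hE2 : t * ‖v1 t‖ ^ 2 + ν * B ≤ κ * A + g := by
    have b3 : 2 / ν * (T * ∫ s in (0 : ℝ)..T, ‖F1 s‖ ^ 2) ≤ g := by
      rw [hg]; gcongr
    have b4 : 14 * c ^ 4 / ν ^ 3 * ∫ s in (0 : ℝ)..t, s * (‖v1 s‖ ^ 2 * ‖y s‖ ^ 4) ≤
        14 * c ^ 4 / ν ^ 3 * (T * Z ^ 4 * A) := by gcongr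
    have b5 : κ * A = A + 14 * c ^ 4 / ν ^ 3 * (T * Z ^ 4 * A) := by rw [hκ]; ring
    linarith
  -- the first estimate
  have b6 : ∫ s in (0 : ℝ)..t, ‖y s‖ ^ 2 * (√‖v1 s‖ * √‖y1 s‖) ≤
      η * A + η * B + Z ^ 4 / (8 * η) * (2 * √t) := by
    have e1 : ∫ s in (0 : ℝ)..t, (η * ‖v1 s‖ ^ 2 + η * (s * ‖y1 s‖ ^ 2) +
        Z ^ 4 / (8 * η) * s ^ (-(1 / 2) : ℝ)) =
        (∫ s in (0 : ℝ)..t, (η * ‖v1 s‖ ^ 2 + η * (s * ‖y1 s‖ ^ 2))) +
        ∫ s in (0 : ℝ)..t, Z ^ 4 / (8 * η) * s ^ (-(1 / 2) : ℝ) :=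
      intervalIntegral.integral_add ((ia.const_mul η).add (isw.const_mul η)) (ir.const_mul _)
    have e2 : ∫ s in (0 : ℝ)..t, (η * ‖v1 s‖ ^ 2 + η * (s * ‖y1 s‖ ^ 2)) =
        (∫ s in (0 : ℝ)..t, η * ‖v1 s‖ ^ 2) + ∫ s in (0 : ℝ)..t, η * (s * ‖y1 s‖ ^ 2) :=
      intervalIntegral.integral_add (ia.const_mul η) (isw.const_mul η)
    rw [intervalIntegral.integral_const_mul, intervalIntegral.integral_const_mul] at e2
    rw [intervalIntegral.integral_const_mul, er, e2] at e1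
    rw [← e1]
    refine mono _ _ (fun s _ => by positivity) (fun s hs => ?_)
      (((ia.const_mul η).add (isw.const_mul η)).add (ir.const_mul _))
    refine le_trans ?_ (young_abw (norm_nonneg _) (norm_nonneg _) hs.1 hZ0 hη0)
    have := hyZ' s hs
    gcongr
  have b7 : ∫ s in (0 : ℝ)..t, ‖F1 s‖ * ‖y s‖ ≤ (G + T * Z ^ 2) / 2 := by
    have e1 : ∫ s in (0 : ℝ)..t, (1 / 2 * ‖F1 s‖ ^ 2 + 1 / 2 * Z ^ 2) =
        (∫ s in (0 : ℝ)..t, 1 / 2 * ‖F1 s‖ ^ 2) + ∫ s in (0 : ℝ)..t, 1 / 2 * Z ^ 2 :=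
      intervalIntegral.integral_add (iF.const_mul _) intervalIntegrable_const
    rw [intervalIntegral.integral_const_mul, intervalIntegral.integral_const, smul_eq_mul,
      sub_zero] at e1
    have e2 : ∫ s in (0 : ℝ)..t, ‖F1 s‖ ^ 2 ≤ G := by
      refine le_trans ?_ hG
      rw [intervalIntegral.integral_of_le htm.1.le, intervalIntegral.integral_of_le hT.le]
      exact setIntegral_mono_set hiF (Eventually.of_forall fun s => by positivity)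
        hsub.eventuallyLE
    have e3 : ∫ s in (0 : ℝ)..t, ‖F1 s‖ * ‖y s‖ ≤
        ∫ s in (0 : ℝ)..t, (1 / 2 * ‖F1 s‖ ^ 2 + 1 / 2 * Z ^ 2) := by
      refine mono _ _ (fun s _ => by positivity) (fun s hs => ?_)
        ((iF.const_mul _).add intervalIntegrable_const)
      have a1 := hyZ' s hs
      have a2 : ‖F1 s‖ * ‖y s‖ ≤ ‖F1 s‖ * Z := by gcongr
      nlinarith [sq_nonneg (‖F1 s‖ - Z)]
    rw [e1] at e3
    have e4 : t * (1 / 2 * Z ^ 2) ≤ T * (1 / 2 * Z ^ 2) := by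
      have := htm.2
      gcongr
    linarith
  have hE1 : 2 * A ≤ K0 + 2 * c * (η * A + η * B + Z ^ 4 / (8 * η) * (2 * √T)) := by
    have a1 := hyZ t ⟨htm.1.le, htm.2⟩
    have a2 := hyZ 0 ⟨le_rfl, hT.le⟩
    have a3 : ν * ‖y 0‖ ^ 2 ≤ ν * Z ^ 2 := by gcongr
    have a4 : 2 * Φ * (‖y t‖ + ‖y 0‖) ≤ 4 * Φ * Z := by
      calc 2 * Φ * (‖y t‖ + ‖y 0‖) ≤ 2 * Φ * (Z + Z) := by gcongr
        _ = _ := by ring
    have a5 : 2 * c * (∫ s in (0 : ℝ)..t, ‖y s‖ ^ 2 * (√‖v1 s‖ * √‖y1 s‖)) ≤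
        2 * c * (η * A + η * B + Z ^ 4 / (8 * η) * (2 * √t)) := by gcongr
    have a6 : Z ^ 4 / (8 * η) * (2 * √t) ≤ Z ^ 4 / (8 * η) * (2 * √T) := by
      have := Real.sqrt_le_sqrt htm.2
      gcongr
    have a7 : 2 * c * (η * A + η * B + Z ^ 4 / (8 * η) * (2 * √t)) ≤
        2 * c * (η * A + η * B + Z ^ 4 / (8 * η) * (2 * √T)) := by gcongr
    have a8 : 0 ≤ ν * ‖y t‖ ^ 2 := by positivity
    linarith
  have hBle : B ≤ κ / ν * A + g / ν := by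
    have a1 : 0 ≤ t * ‖v1 t‖ ^ 2 := by
      have := htm.1.le
      positivity
    have a2 : ν * B ≤ κ * A + g := by linarith
    have a3 : B ≤ (κ * A + g) / ν := by
      rw [le_div_iff₀ hν]; linarith
    refine a3.trans (le_of_eq ?_)
    ring
  have hAM : A ≤ M1 := by
    have a1 : 2 * c * (η * A + η * B) ≤ A + 2 * c * (η * (g / ν)) := by
      have a2 : 2 * c * (η * A + η * B) ≤ 2 * c * (η * A + η * (κ / ν * A + g / ν)) := by gcongr
      have a3 : 2 * c * (η * A + η * (κ / ν * A + g / ν)) =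
          (2 * c * (1 + κ / ν)) * η * A + 2 * c * (η * (g / ν)) := by ring
      have a4 : (2 * c * (1 + κ / ν)) * η = 1 := by rw [hη]; field_simp
      rw [a3, a4, one_mul] at a2
      exact a2
    have a5 : 2 * c * (η * A + η * B + Z ^ 4 / (8 * η) * (2 * √T)) =
        2 * c * (η * A + η * B) + 2 * c * (Z ^ 4 / (8 * η) * (2 * √T)) := by ring
    rw [a5] at hE1
    linarith
  have : κ * A ≤ κ * M1 := by gcongr
  linarith

end Pool.Agent.J4H18.EX
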