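import Pool.Agent.H772R2.NSG.Glob
import Pool.Agent.W795.HE.FinA

/-!
Existence of Leray-Hopf solutions with the strong energy inequality: approximations and bounds.
-/

set_option autoImplicit false
set_option linter.unusedSectionVars false

open MeasureTheory Set Filter Topology
open scoped InnerProductSpace

namespace Pool.Agent.J4H18.EX

open H772R2.NSR (Frame prim_cont grad_unique young4 exists_weak_limit unif)

section

variable {H K : Type} [NormedAddCommGroup H] [InnerProductSpace ℝ H] [CompleteSpace H]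
  [NormedAddCommGroup K] [InnerProductSpace ℝ K] [CompleteSpace K]

/-- Approximations: strong solutions on `[0,∞)` with the viscosity `ν + λ_k(t)`. -/
structure App (W : Submodule ℝ (H × K)) (m : H → K) (ν : ℝ) (F : ℝ → K) (x0 : H)
    (u : ℕ → ℝ → H) (z : ℕ → ℝ → K) (lam : ℕ → ℝ → ℝ) (e : ℕ → ℝ) : Prop where
  e1 : ∀ k, e k ≤ 1
  e0 : Tendsto e atTop (𝓝 0)
  init : ∀ k, u k 0 = x0
  mem : ∀ k t, 0 ≤ t → (u k t, z k t) ∈ W
  uc : ∀ k T, ContinuousOn (u k) (Icc 0 T)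
  zc : ∀ k T, ContinuousOn (z k) (Icc 0 T)
  mc : ∀ k T, ContinuousOn (fun t => m (u k t)) (Icc 0 T)
  lc : ∀ k T, ContinuousOn (lam k) (Icc 0 T)
  l0 : ∀ k t, 0 ≤ lam k t
  l2 : ∀ k T, 0 < T → ∫ s in (0 : ℝ)..T, lam k s ^ 2 ≤ e k
  weak : ∀ k, ∀ p ∈ W, ∀ t, 0 ≤ t → ⟪u k t - x0, p.1⟫_ℝ
    = ∫ s in (0 : ℝ)..t, ⟪F s - (ν + lam k s) • z k s + m (u k s), p.2⟫_ℝ
  energy : ∀ k t, 0 ≤ t → ‖u k t‖ ^ 2 / 2 + ∫ s in (0 : ℝ)..t, (ν + lam k s) * ‖z k s‖ ^ 2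
    = ‖x0‖ ^ 2 / 2 + ∫ s in (0 : ℝ)..t, ⟪F s, z k s⟫_ℝ

variable {W : Submodule ℝ (H × K)} {m : H → K} {C ν : ℝ} {F : ℝ → K} {x0 : H}
  {u : ℕ → ℝ → H} {z : ℕ → ℝ → K} {lam : ℕ → ℝ → ℝ} {e : ℕ → ℝ}

theorem App.sub (A : App W m ν F x0 u z lam e) {φ : ℕ → ℕ} (hφ : StrictMono φ) :
    App W m ν F x0 (fun k => u (φ k)) (fun k => z (φ k)) (fun k => lam (φ k))
      (fun k => e (φ k)) :=
  ⟨fun k => A.e1 _, A.e0.comp hφ.tendsto_atTop, fun k => A.init _, fun k => A.mem _,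
    fun k => A.uc _, fun k => A.zc _, fun k => A.mc _, fun k => A.lc _, fun k => A.l0 _,
    fun k => A.l2 _, fun k => A.weak _, fun k => A.energy _⟩

theorem ii_of_c {f : ℝ → ℝ} {T : ℝ} (hf : ContinuousOn f (Icc 0 T)) {a b : ℝ} (ha : 0 ≤ a)
    (hab : a ≤ b) (hb : b ≤ T) : IntervalIntegrable f volume a b := by
  refine ContinuousOn.intervalIntegrable ?_
  rw [uIcc_of_le hab]
  exact hf.mono (Icc_subset_Icc ha hb)

theorem ii_sub_le {f : ℝ → ℝ} {T : ℝ} (hf : ContinuousOn f (Icc 0 T)) (h0 : ∀ t, 0 ≤ f t)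
    {a b : ℝ} (ha : 0 ≤ a) (hab : a ≤ b) (hb : b ≤ T) :
    ∫ s in a..b, f s ≤ ∫ s in (0 : ℝ)..T, f s :=
  intervalIntegral.integral_mono_interval ha hab hb (Eventually.of_forall h0)
    (ii_of_c hf le_rfl (ha.trans (hab.trans hb)) le_rfl)

/-- uniform bounds -/
theorem App.bd (A : App W m ν F x0 u z lam e) (hν : 0 < ν)
    (hF : ∀ T, ContinuousOn F (Icc 0 T)) {T : ℝ} (hT : 0 < T) :
    ∃ X : ℝ, 0 ≤ X ∧ ∀ k, (∀ t ∈ Icc 0 T, ‖u k t‖ ≤ X) ∧
      ∫ s in (0 : ℝ)..T, (ν + lam k s) * ‖z k s‖ ^ 2 ≤ X ∧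
      ∫ s in (0 : ℝ)..T, ‖z k s‖ ^ 2 ≤ X := by
  have hFc := hF T
  set B : ℝ := ‖x0‖ ^ 2 / 2 + ∫ s in (0 : ℝ)..T, ‖F s‖ ^ 2 / (2 * ν) with hB
  have hFF : ContinuousOn (fun s => ‖F s‖ ^ 2 / (2 * ν)) (Icc 0 T) :=
    (hFc.norm.pow 2).div_const _
  have hB0 : 0 ≤ B := by
    have : 0 ≤ ∫ s in (0 : ℝ)..T, ‖F s‖ ^ 2 / (2 * ν) :=
      intervalIntegral.integral_nonneg hT.le fun s _ => by positivity
    positivity
  have key : ∀ k, ∀ t ∈ Icc 0 T, ‖u k t‖ ^ 2 / 2 +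
      1 / 2 * ∫ s in (0 : ℝ)..t, (ν + lam k s) * ‖z k s‖ ^ 2 ≤ B := by
    intro k t ht
    have h1 := A.energy k t ht.1
    have hzc := A.zc k T
    have hn : ContinuousOn (fun s => (ν + lam k s) * ‖z k s‖ ^ 2) (Icc 0 T) :=
      (continuousOn_const.add (A.lc k T)).mul (hzc.norm.pow 2)
    have h2 : ∫ s in (0 : ℝ)..t, ⟪F s, z k s⟫_ℝ ≤
        ∫ s in (0 : ℝ)..t, (‖F s‖ ^ 2 / (2 * ν) + 1 / 2 * ((ν + lam k s) * ‖z k s‖ ^ 2)) := by
      refine intervalIntegral.integral_mono_on ht.1 (ii_of_c (hFc.inner hzc) le_rfl ht.1 ht.2)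
        (ii_of_c (hFF.add (continuousOn_const.mul hn)) le_rfl ht.1 ht.2) fun s _ => ?_
      have h3 : ⟪F s, z k s⟫_ℝ ≤ ‖F s‖ * ‖z k s‖ := real_inner_le_norm _ _
      have h4 : 0 ≤ (‖F s‖ - ν * ‖z k s‖) ^ 2 / (2 * ν) := by positivity
      have h5 : (‖F s‖ - ν * ‖z k s‖) ^ 2 / (2 * ν) =
          ‖F s‖ ^ 2 / (2 * ν) - ‖F s‖ * ‖z k s‖ + 1 / 2 * (ν * ‖z k s‖ ^ 2) := by
        field_simp; ring
      have h6 : 0 ≤ lam k s * ‖z k s‖ ^ 2 := mul_nonneg (A.l0 k s) (by positivity)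
      nlinarith
    have h8 : ∫ s in (0 : ℝ)..t, (‖F s‖ ^ 2 / (2 * ν) + 1 / 2 * ((ν + lam k s) * ‖z k s‖ ^ 2)) =
        (∫ s in (0 : ℝ)..t, ‖F s‖ ^ 2 / (2 * ν)) +
          1 / 2 * ∫ s in (0 : ℝ)..t, (ν + lam k s) * ‖z k s‖ ^ 2 := by
      rw [← intervalIntegral.integral_const_mul]
      exact intervalIntegral.integral_add (ii_of_c hFF le_rfl ht.1 ht.2)
        (ii_of_c (continuousOn_const.mul hn) le_rfl ht.1 ht.2)
    rw [h8] at h2
    have h7 : ∫ s in (0 : ℝ)..t, ‖F s‖ ^ 2 / (2 * ν) ≤ ∫ s in (0 : ℝ)..T, ‖F s‖ ^ 2 / (2 * ν) :=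
      ii_sub_le hFF (fun s => by positivity) le_rfl ht.1 ht.2
    linarith
  refine ⟨√(2 * B) + 2 * B + 2 * B / ν, by positivity, fun k => ⟨fun t ht => ?_, ?_, ?_⟩⟩
  · have h1 := key k t ht
    have h2 : 0 ≤ ∫ s in (0 : ℝ)..t, (ν + lam k s) * ‖z k s‖ ^ 2 :=
      intervalIntegral.integral_nonneg ht.1 fun s _ => by
        have := A.l0 k s
        positivity
    have h3 : ‖u k t‖ ≤ √(2 * B) := Real.le_sqrt_of_sq_le (by linarith)
    have : 0 ≤ 2 * B + 2 * B / ν := by positivity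
    linarith
  · have h1 := key k T ⟨hT.le, le_rfl⟩
    have h2 : 0 ≤ ‖u k T‖ ^ 2 := by positivity
    have : 0 ≤ √(2 * B) + 2 * B / ν := by positivity
    linarith
  · have h1 := key k T ⟨hT.le, le_rfl⟩
    have h2 : 0 ≤ ‖u k T‖ ^ 2 := by positivity
    have hzc := A.zc k T
    have h3 : ν * ∫ s in (0 : ℝ)..T, ‖z k s‖ ^ 2 ≤
        ∫ s in (0 : ℝ)..T, (ν + lam k s) * ‖z k s‖ ^ 2 := by
      rw [← intervalIntegral.integral_const_mul]
      refine intervalIntegral.integral_mono_on hT.le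
        (ii_of_c (continuousOn_const.mul (hzc.norm.pow 2)) le_rfl hT.le le_rfl)
        (ii_of_c ((continuousOn_const.add (A.lc k T)).mul (hzc.norm.pow 2)) le_rfl hT.le le_rfl)
        fun s _ => ?_
      have := A.l0 k s
      gcongr
      linarith
    have h4 : ∫ s in (0 : ℝ)..T, ‖z k s‖ ^ 2 ≤ 2 * B / ν := by
      rw [le_div_iff₀ hν]
      linarith
    have : 0 ≤ √(2 * B) + 2 * B := by positivity
    linarith

/-- the bound of the nonlinear term -/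
theorem m_young (Fr : Frame W m C) {p : H × K} (hp : p ∈ W) {θ : ℝ} (hθ : 0 < θ) :
    ‖m p.1‖ ≤ θ * ‖p.2‖ ^ 2 + C ^ 2 * ‖p.1‖ ^ 2 / θ ^ 3 := by
  have hC := Fr.C0
  refine young4 (norm_nonneg _) (by positivity) (by positivity) (by positivity) hθ ?_
  have h := Fr.quart p hp
  calc ‖m p.1‖ ^ 4 = (‖m p.1‖ ^ 2) ^ 2 := by ring
    _ ≤ (C * (‖p.1‖ * ‖p.2‖ ^ 3)) ^ 2 := by gcongr
    _ = _ := by ring

/-- equicontinuity -/
theorem App.equi (A : App W m ν F x0 u z lam e) (Fr : Frame W m C) (hν : 0 < ν)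
    (hF : ∀ T, ContinuousOn F (Icc 0 T)) {T : ℝ} (hT : 0 < T) {p : H × K} (hp : p ∈ W) :
    ∀ ε : ℝ, 0 < ε → ∃ δ : ℝ, 0 < δ ∧ ∀ k, ∀ a ∈ Icc 0 T, ∀ b ∈ Icc 0 T, |a - b| < δ →
      ‖⟪u k a, p.1⟫_ℝ - ⟪u k b, p.1⟫_ℝ‖ ≤ ε := by
  obtain ⟨X, hX0, hX⟩ := A.bd hν hF hT
  obtain ⟨Φ, hΦ⟩ := (isCompact_Icc (a := (0 : ℝ)) (b := T)).exists_bound_of_continuousOn (hF T)
  have hΦ0 : 0 ≤ Φ := (norm_nonneg _).trans (hΦ 0 ⟨le_rfl, hT.le⟩)
  intro ε hε
  set θ : ℝ := ε / (2 * (‖p.2‖ + 1) * (2 * X + 1)) with hθ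
  have hθ0 : 0 < θ := by positivity
  set B : ℝ := Φ + ν / (4 * θ) + 1 / (16 * θ ^ 3) + C ^ 2 * X ^ 2 / θ ^ 3 with hB
  have hB0 : 0 < B := by positivity
  refine ⟨ε / (2 * (‖p.2‖ + 1) * B), by positivity, ?_⟩
  -- one sided estimate
  have main : ∀ k, ∀ a b : ℝ, 0 ≤ a → a ≤ b → b ≤ T →
      |⟪u k b, p.1⟫_ℝ - ⟪u k a, p.1⟫_ℝ| ≤ ‖p.2‖ * (θ * (2 * X + 1) + B * (b - a)) := by
    intro k a b ha hab hb
    have hzc := A.zc k T
    have hgc : ContinuousOn (fun s => F s - (ν + lam k s) • z k s + m (u k s)) (Icc 0 T) :=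
      ((hF T).sub ((continuousOn_const.add (A.lc k T)).smul hzc)).add (A.mc k T)
    have hgi : ContinuousOn (fun s => ⟪F s - (ν + lam k s) • z k s + m (u k s), p.2⟫_ℝ)
        (Icc 0 T) := hgc.inner continuousOn_const
    have h1 := A.weak k p hp b (ha.trans hab)
    have h2 := A.weak k p hp a ha
    have h3 := intervalIntegral.integral_add_adjacent_intervals
      (ii_of_c hgi le_rfl ha (hab.trans hb)) (ii_of_c hgi ha hab hb)
    have e1 : ⟪u k b, p.1⟫_ℝ - ⟪u k a, p.1⟫_ℝ =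
        ∫ s in a..b, ⟪F s - (ν + lam k s) • z k s + m (u k s), p.2⟫_ℝ := by
      rw [inner_sub_left] at h1 h2
      linarith
    rw [e1]
    have hn1 : ContinuousOn (fun s => (ν + lam k s) * ‖z k s‖ ^ 2) (Icc 0 T) :=
      (continuousOn_const.add (A.lc k T)).mul (hzc.norm.pow 2)
    have hn2 : ContinuousOn (fun s => lam k s ^ 2) (Icc 0 T) := (A.lc k T).pow 2
    have hn3 : ContinuousOn (fun s => ‖z k s‖ ^ 2) (Icc 0 T) := hzc.norm.pow 2
    have hs : ContinuousOn (fun s => θ * ((ν + lam k s) * ‖z k s‖ ^ 2 + lam k s ^ 2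
        + ‖z k s‖ ^ 2) + B) (Icc 0 T) :=
      (continuousOn_const.mul ((hn1.add hn2).add hn3)).add continuousOn_const
    have h4 : |∫ s in a..b, ⟪F s - (ν + lam k s) • z k s + m (u k s), p.2⟫_ℝ| ≤
        ∫ s in a..b, ‖p.2‖ * (θ * ((ν + lam k s) * ‖z k s‖ ^ 2 + lam k s ^ 2
          + ‖z k s‖ ^ 2) + B) := by
      rw [← Real.norm_eq_abs]
      refine intervalIntegral.norm_integral_le_of_norm_le hab ?_
        (ii_of_c (continuousOn_const.mul hs) ha hab hb)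
      refine Eventually.of_forall fun s hsm => ?_
      have hsI : s ∈ Icc 0 T := ⟨ha.trans hsm.1.le, hsm.2.trans hb⟩
      refine (norm_inner_le_norm _ _).trans ?_
      rw [mul_comm]
      refine mul_le_mul_of_nonneg_left ?_ (norm_nonneg _)
      have b1 := hΦ s hsI
      have b2 := m_young Fr (A.mem k s hsI.1) hθ0
      have b3 := (hX k).1 s hsI
      simp only at b2
      have b4 : C ^ 2 * ‖u k s‖ ^ 2 / θ ^ 3 ≤ C ^ 2 * X ^ 2 / θ ^ 3 := by gcongr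
      have hl := A.l0 k s
      have b5 : ‖(ν + lam k s) • z k s‖ = (ν + lam k s) * ‖z k s‖ := by
        rw [norm_smul, Real.norm_of_nonneg (by linarith)]
      have b6 : ‖F s - (ν + lam k s) • z k s + m (u k s)‖ ≤
          ‖F s‖ + (ν + lam k s) * ‖z k s‖ + ‖m (u k s)‖ := by
        rw [← b5]
        exact (norm_add_le _ _).trans (by gcongr; exact norm_sub_le _ _)
      have b7 : (ν + lam k s) * ‖z k s‖ ≤ θ * ((ν + lam k s) * ‖z k s‖ ^ 2) +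
          (ν + lam k s) / (4 * θ) := by
        have h5 : 0 ≤ (ν + lam k s) * (2 * θ * ‖z k s‖ - 1) ^ 2 / (4 * θ) := by positivity
        have h6 : (ν + lam k s) * (2 * θ * ‖z k s‖ - 1) ^ 2 / (4 * θ) =
            θ * ((ν + lam k s) * ‖z k s‖ ^ 2) + (ν + lam k s) / (4 * θ)
              - (ν + lam k s) * ‖z k s‖ := by
          field_simp; ring
        linarith
      have b8 : lam k s / (4 * θ) ≤ θ * lam k s ^ 2 + 1 / (16 * θ ^ 3) := by
        have h5 : 0 ≤ (4 * θ ^ 2 * lam k s - 1) ^ 2 / (16 * θ ^ 3) := by positivity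
        have h6 : (4 * θ ^ 2 * lam k s - 1) ^ 2 / (16 * θ ^ 3) =
            θ * lam k s ^ 2 + 1 / (16 * θ ^ 3) - lam k s / (2 * θ) := by
          field_simp; ring
        have h7 : lam k s / (4 * θ) ≤ lam k s / (2 * θ) := by gcongr; norm_num
        linarith
      have b9 : (ν + lam k s) / (4 * θ) = ν / (4 * θ) + lam k s / (4 * θ) := add_div _ _ _
      rw [hB]
      linarith
    refine h4.trans ?_
    rw [intervalIntegral.integral_const_mul]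
    refine mul_le_mul_of_nonneg_left ?_ (norm_nonneg _)
    have i1 := ii_of_c hn1 ha hab hb
    have i2 := ii_of_c hn2 ha hab hb
    have i3 := ii_of_c hn3 ha hab hb
    have q1 : ∫ s in a..b, (θ * ((ν + lam k s) * ‖z k s‖ ^ 2 + lam k s ^ 2 + ‖z k s‖ ^ 2) + B) =
        (∫ s in a..b, θ * ((ν + lam k s) * ‖z k s‖ ^ 2 + lam k s ^ 2 + ‖z k s‖ ^ 2)) +
          ∫ s in a..b, B :=
      intervalIntegral.integral_add (((i1.add i2).add i3).const_mul θ) intervalIntegrable_const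
    have q2 : ∫ s in a..b, ((ν + lam k s) * ‖z k s‖ ^ 2 + lam k s ^ 2 + ‖z k s‖ ^ 2) =
        (∫ s in a..b, ((ν + lam k s) * ‖z k s‖ ^ 2 + lam k s ^ 2)) +
          ∫ s in a..b, ‖z k s‖ ^ 2 := intervalIntegral.integral_add (i1.add i2) i3
    have q3 : ∫ s in a..b, ((ν + lam k s) * ‖z k s‖ ^ 2 + lam k s ^ 2) =
        (∫ s in a..b, (ν + lam k s) * ‖z k s‖ ^ 2) + ∫ s in a..b, lam k s ^ 2 :=
      intervalIntegral.integral_add i1 i2
    rw [q1, intervalIntegral.integral_const_mul, q2, q3, intervalIntegral.integral_const,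
      smul_eq_mul]
    have c1 : ∫ s in a..b, (ν + lam k s) * ‖z k s‖ ^ 2 ≤ X :=
      (ii_sub_le hn1 (fun s => by have := A.l0 k s; positivity) ha hab hb).trans (hX k).2.1
    have c2 : ∫ s in a..b, lam k s ^ 2 ≤ 1 :=
      (ii_sub_le hn2 (fun s => by positivity) ha hab hb).trans ((A.l2 k T hT).trans (A.e1 k))
    have c3 : ∫ s in a..b, ‖z k s‖ ^ 2 ≤ X :=
      (ii_sub_le hn3 (fun s => by positivity) ha hab hb).trans (hX k).2.2
    have c4 : (∫ s in a..b, (ν + lam k s) * ‖z k s‖ ^ 2) + (∫ s in a..b, lam k s ^ 2)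
        + (∫ s in a..b, ‖z k s‖ ^ 2) ≤ 2 * X + 1 := by linarith
    have c5 := mul_le_mul_of_nonneg_left c4 hθ0.le
    linarith
  have fin : ∀ k, ∀ a b : ℝ, 0 ≤ a → a ≤ b → b ≤ T → b - a < ε / (2 * (‖p.2‖ + 1) * B) →
      |⟪u k b, p.1⟫_ℝ - ⟪u k a, p.1⟫_ℝ| ≤ ε := by
    intro k a b ha hab hb hd
    refine (main k a b ha hab hb).trans ?_
    have h1 : ‖p.2‖ * (θ * (2 * X + 1) + B * (b - a)) ≤
        (‖p.2‖ + 1) * (θ * (2 * X + 1) + B * (b - a)) := by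
      have : 0 ≤ θ * (2 * X + 1) + B * (b - a) := by
        have : 0 ≤ b - a := by linarith
        positivity
      gcongr
      linarith
    have h2 : (‖p.2‖ + 1) * (θ * (2 * X + 1)) = ε / 2 := by
      rw [hθ]
      field_simp
    have h3 : (‖p.2‖ + 1) * (B * (b - a)) ≤ ε / 2 := by
      rw [lt_div_iff₀ (by positivity)] at hd
      nlinarith
    nlinarith
  intro k a ha b hb hab
  rw [Real.norm_eq_abs]
  rcases le_total a b with h | h
  · rw [abs_sub_comm]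
    exact fin k a b ha.1 h hb.2 (by rw [abs_sub_comm, abs_of_nonneg (by linarith)] at hab; exact hab)
  · exact fin k b a hb.1 h ha.2 (by rw [abs_of_nonneg (by linarith)] at hab; exact hab)

end

end Pool.Agent.J4H18.EX
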