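import Pool.Agent.J4H18.EX.A1

/-!
Existence of Leray-Hopf solutions: compactness in `L²`.
-/

set_option autoImplicit false
set_option linter.unusedSectionVars false
set_option linter.unusedVariables false

open MeasureTheory Set Filter Topology
open scoped InnerProductSpace ENNReal

namespace Pool.Agent.J4H18.EX

open H772R2.NSR (Frame prim_cont grad_unique young4 exists_weak_limit unif)

section

variable {H K : Type} [NormedAddCommGroup H] [InnerProductSpace ℝ H] [CompleteSpace H]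
  [NormedAddCommGroup K] [InnerProductSpace ℝ K] [CompleteSpace K]
variable {W : Submodule ℝ (H × K)} {m : H → K} {C ν : ℝ} {F : ℝ → K} {x0 : H}
  {u : ℕ → ℝ → H} {z : ℕ → ℝ → K} {lam : ℕ → ℝ → ℝ} {e : ℕ → ℝ}

/-- Ehrling's lemma -/
theorem ehrling (Fr : Frame W m C)
    (hcomp : ∀ R : ℝ, TotallyBounded {v : H | ∃ z, (v, z) ∈ W ∧ ‖z‖ ≤ R}) {δ : ℝ} (hδ : 0 < δ) :
    ∃ (P : Finset (H × K)) (B : ℝ), 0 ≤ B ∧ (∀ p ∈ P, p ∈ W) ∧ ∀ q ∈ W,
      ‖q.1‖ ^ 2 ≤ δ * ‖q.2‖ ^ 2 + B * ∑ p ∈ P, ⟪q.1, p.1⟫_ℝ ^ 2 := by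
  classical
  set η : ℝ := δ / 2 with hη
  have hη0 : 0 < η := by positivity
  obtain ⟨t, hts, htf, htc⟩ := Metric.finite_approx_of_totallyBounded (hcomp 1) (√η)
    (Real.sqrt_pos.2 hη0)
  let g : H → K := fun y => if h : ∃ z, (y, z) ∈ W ∧ ‖z‖ ≤ 1 then h.choose else 0
  have hg : ∀ y ∈ t, (y, g y) ∈ W := by
    intro y hy
    have h : ∃ z, (y, z) ∈ W ∧ ‖z‖ ≤ 1 := hts hy
    simp only [g, dif_pos h]
    exact h.choose_spec.1
  refine ⟨htf.toFinset.image (fun y => (y, g y)), 1 / η, by positivity, ?_, ?_⟩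
  · intro p hp
    obtain ⟨y, hy, rfl⟩ := Finset.mem_image.1 hp
    exact hg y (htf.mem_toFinset.1 hy)
  · have unit : ∀ q ∈ W, ‖q.2‖ = 1 → ‖q.1‖ ^ 2 ≤ δ +
        1 / η * ∑ p ∈ htf.toFinset.image (fun y => (y, g y)), ⟪q.1, p.1⟫_ℝ ^ 2 := by
      intro q hq h1
      have hmem : q.1 ∈ {v : H | ∃ z, (v, z) ∈ W ∧ ‖z‖ ≤ 1} := ⟨q.2, hq, h1.le⟩
      obtain ⟨y, hy, hqy⟩ := mem_iUnion₂.mp (htc hmem)
      have hd : ‖q.1 - y‖ < √η := by rwa [Metric.mem_ball, dist_eq_norm] at hqy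
      have hd2 : ‖q.1 - y‖ ^ 2 ≤ η := by
        have := Real.sq_sqrt hη0.le
        have h0 := norm_nonneg (q.1 - y)
        nlinarith [Real.sqrt_nonneg η]
      have e1 : ‖q.1‖ ^ 2 = ⟪q.1, y⟫_ℝ + ⟪q.1, q.1 - y⟫_ℝ := by
        rw [← inner_add_right, ← real_inner_self_eq_norm_sq]; congr 1; abel
      have e2 : ⟪q.1, q.1 - y⟫_ℝ ≤ ‖q.1‖ * ‖q.1 - y‖ := real_inner_le_norm _ _
      have e3 : 0 ≤ (‖q.1‖ - ‖q.1 - y‖) ^ 2 := sq_nonneg _
      have e4 : ‖q.1‖ ^ 2 ≤ 2 * ⟪q.1, y⟫_ℝ + η := by nlinarith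
      have e5 : 2 * ⟪q.1, y⟫_ℝ ≤ η + 1 / η * ⟪q.1, y⟫_ℝ ^ 2 := by
        have : 0 ≤ (⟪q.1, y⟫_ℝ - η) ^ 2 / η := by positivity
        have h2 : (⟪q.1, y⟫_ℝ - η) ^ 2 / η = 1 / η * ⟪q.1, y⟫_ℝ ^ 2 - 2 * ⟪q.1, y⟫_ℝ + η := by
          field_simp; ring
        linarith
      have e6 : ⟪q.1, y⟫_ℝ ^ 2 ≤
          ∑ p ∈ htf.toFinset.image (fun y => (y, g y)), ⟪q.1, p.1⟫_ℝ ^ 2 := by
        have := Finset.single_le_sum (f := fun p : H × K => ⟪q.1, p.1⟫_ℝ ^ 2)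
          (s := htf.toFinset.image (fun y => (y, g y))) (fun p _ => sq_nonneg _)
          (a := (y, g y)) (Finset.mem_image.2 ⟨y, htf.mem_toFinset.2 hy, rfl⟩)
        exact this
      have e7 : 1 / η * ⟪q.1, y⟫_ℝ ^ 2 ≤ 1 / η *
          ∑ p ∈ htf.toFinset.image (fun y => (y, g y)), ⟪q.1, p.1⟫_ℝ ^ 2 := by gcongr
      have e8 : δ = η + η := by rw [hη]; ring
      linarith
    intro q hq
    rcases eq_or_ne q.2 0 with h0 | h0
    · have h1 := Fr.poinc q hq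
      rw [h0, norm_zero, mul_zero] at h1
      have h2 : ‖q.1‖ = 0 := le_antisymm h1 (norm_nonneg _)
      rw [h2]
      have h3 : 0 ≤ ∑ p ∈ htf.toFinset.image (fun y => (y, g y)), ⟪q.1, p.1⟫_ℝ ^ 2 :=
        Finset.sum_nonneg fun _ _ => sq_nonneg _
      have h4 := mul_nonneg (by positivity : (0:ℝ) ≤ 1 / η) h3
      have h5 : 0 ≤ δ * ‖q.2‖ ^ 2 := by positivity
      nlinarith
    · have hr : 0 < ‖q.2‖ := norm_pos_iff.2 h0
      have h1 := unit ((1 / ‖q.2‖) • q) (W.smul_mem _ hq) (by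
        rw [Prod.smul_snd, norm_smul, Real.norm_of_nonneg (by positivity)]
        field_simp)
      simp only [Prod.smul_fst, inner_smul_left, norm_smul, mul_pow, RCLike.conj_to_real] at h1
      rw [← Finset.mul_sum, Real.norm_of_nonneg (by positivity : (0:ℝ) ≤ 1 / ‖q.2‖)] at h1
      have h2 := mul_le_mul_of_nonneg_left h1 (sq_nonneg ‖q.2‖)
      have h3 : ‖q.2‖ ^ 2 * ((1 / ‖q.2‖) ^ 2 * ‖q.1‖ ^ 2) = ‖q.1‖ ^ 2 := by field_simp
      rw [h3] at h2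
      refine h2.trans (le_of_eq ?_)
      field_simp

/-- Cauchy property along an ultrafilter -/
theorem App.cauchy (A : App W m ν F x0 u z lam e) (Fr : Frame W m C) (hν : 0 < ν)
    (hF : ∀ T, ContinuousOn F (Icc 0 T))
    (hcomp : ∀ R : ℝ, TotallyBounded {v : H | ∃ z, (v, z) ∈ W ∧ ‖z‖ ≤ R})
    (U : Ultrafilter ℕ) {T : ℝ} (hT : 0 < T) {ε : ℝ} (hε : 0 < ε) :
    ∃ S ∈ U, ∀ k ∈ S, ∀ l ∈ S, ∫ s in (0 : ℝ)..T, ‖u k s - u l s‖ ^ 2 ≤ ε := by
  obtain ⟨X, hX0, hX⟩ := A.bd hν hF hT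
  obtain ⟨P, B, hB0, hP, hE⟩ := ehrling Fr hcomp (δ := ε / (8 * (X + 1))) (by positivity)
  -- the weak limit
  have hw : ∀ t : ℝ, ∃ v : H, t ∈ Icc 0 T → ∀ y : H,
      Tendsto (fun k => ⟪u k t, y⟫_ℝ) U (𝓝 ⟪v, y⟫_ℝ) := by
    intro t
    by_cases ht : t ∈ Icc 0 T
    · obtain ⟨v, _, hv⟩ := exists_weak_limit U (fun k => u k t) X
        (Eventually.of_forall fun k => (hX k).1 t ht)
      exact ⟨v, fun _ => hv⟩
    · exact ⟨0, fun h => absurd h ht⟩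
  choose v hv using hw
  set κ : ℝ := √(ε / (8 * (B + 1) * (P.card + 1) * T)) with hκ
  have hκ0 : 0 < κ := Real.sqrt_pos.2 (by positivity)
  have hκ2 : κ ^ 2 = ε / (8 * (B + 1) * (P.card + 1) * T) := Real.sq_sqrt (by positivity)
  have hu : ∀ᶠ k in (U : Filter ℕ), ∀ p ∈ P, ∀ t ∈ Icc 0 T,
      ‖⟪u k t, p.1⟫_ℝ - ⟪v t, p.1⟫_ℝ‖ ≤ κ := by
    rw [Filter.eventually_all_finset]
    intro p hp
    exact (unif (A.equi Fr hν hF hT (hP p hp)) (fun t ht => hv t ht p.1)).1 κ hκ0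
  refine ⟨_, hu, ?_⟩
  intro k hk l hl
  have hzk := A.zc k T
  have hzl := A.zc l T
  have hcD : ContinuousOn (fun s => ‖u k s - u l s‖ ^ 2) (Icc 0 T) :=
    ((A.uc k T).sub (A.uc l T)).norm.pow 2
  have hpt : ∀ s ∈ Icc 0 T, ‖u k s - u l s‖ ^ 2 ≤
      ε / (8 * (X + 1)) * (2 * ‖z k s‖ ^ 2 + 2 * ‖z l s‖ ^ 2) + ε / (2 * T) := by
    intro s hs
    have h1 := hE _ (W.sub_mem (A.mem k s hs.1) (A.mem l s hs.1))
    simp only [Prod.fst_sub, Prod.snd_sub] at h1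
    refine h1.trans (add_le_add ?_ ?_)
    · refine mul_le_mul_of_nonneg_left ?_ (by positivity)
      have h2 : ‖z k s - z l s‖ ≤ ‖z k s‖ + ‖z l s‖ := norm_sub_le _ _
      have h3 : 0 ≤ (‖z k s‖ - ‖z l s‖) ^ 2 := sq_nonneg _
      have h4 : 0 ≤ ‖z k s - z l s‖ := norm_nonneg _
      nlinarith
    · have h2 : ∑ p ∈ P, ⟪u k s - u l s, p.1⟫_ℝ ^ 2 ≤ P.card • (4 * κ ^ 2) := by
        refine Finset.sum_le_card_nsmul _ _ _ fun p hp => ?_
        have h3 := hk p hp s hs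
        have h4 := hl p hp s hs
        rw [Real.norm_eq_abs] at h3 h4
        have h5 : |⟪u k s - u l s, p.1⟫_ℝ| ≤ 2 * κ := by
          rw [inner_sub_left]
          have : ⟪u k s, p.1⟫_ℝ - ⟪u l s, p.1⟫_ℝ = (⟪u k s, p.1⟫_ℝ - ⟪v s, p.1⟫_ℝ)
              - (⟪u l s, p.1⟫_ℝ - ⟪v s, p.1⟫_ℝ) := by ring
          rw [this]
          exact (abs_sub _ _).trans (by linarith)
        have h6 : |⟪u k s - u l s, p.1⟫_ℝ| ^ 2 ≤ (2 * κ) ^ 2 := by gcongr
        rw [sq_abs] at h6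
        linarith
      rw [nsmul_eq_mul] at h2
      calc B * ∑ p ∈ P, ⟪u k s - u l s, p.1⟫_ℝ ^ 2 ≤ (B + 1) * ((P.card + 1) * (4 * κ ^ 2)) := by
            have h7 : 0 ≤ ∑ p ∈ P, ⟪u k s - u l s, p.1⟫_ℝ ^ 2 :=
              Finset.sum_nonneg fun _ _ => sq_nonneg _
            have h8 : ∑ p ∈ P, ⟪u k s - u l s, p.1⟫_ℝ ^ 2 ≤ (P.card + 1) * (4 * κ ^ 2) := by
              nlinarith [sq_nonneg κ]
            gcongr
            linarith
        _ = ε / (2 * T) := by rw [hκ2]; field_simp; ring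
  have hn : ContinuousOn (fun s => ε / (8 * (X + 1)) * (2 * ‖z k s‖ ^ 2 + 2 * ‖z l s‖ ^ 2)
      + ε / (2 * T)) (Icc 0 T) :=
    (continuousOn_const.mul ((continuousOn_const.mul (hzk.norm.pow 2)).add
      (continuousOn_const.mul (hzl.norm.pow 2)))).add continuousOn_const
  have i1 := ii_of_c (hzk.norm.pow 2) le_rfl hT.le le_rfl
  have i2 := ii_of_c (hzl.norm.pow 2) le_rfl hT.le le_rfl
  refine (intervalIntegral.integral_mono_on hT.le (ii_of_c hcD le_rfl hT.le le_rfl)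
    (ii_of_c hn le_rfl hT.le le_rfl) hpt).trans ?_
  have q1 : ∫ s in (0:ℝ)..T, (ε / (8 * (X + 1)) * (2 * ‖z k s‖ ^ 2 + 2 * ‖z l s‖ ^ 2)
      + ε / (2 * T)) = (∫ s in (0:ℝ)..T, ε / (8 * (X + 1)) * (2 * ‖z k s‖ ^ 2 + 2 * ‖z l s‖ ^ 2))
      + ∫ s in (0:ℝ)..T, ε / (2 * T) :=
    intervalIntegral.integral_add (((i1.const_mul 2).add (i2.const_mul 2)).const_mul _)
      intervalIntegrable_const
  have q2 : ∫ s in (0:ℝ)..T, (2 * ‖z k s‖ ^ 2 + 2 * ‖z l s‖ ^ 2) =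
      (∫ s in (0:ℝ)..T, 2 * ‖z k s‖ ^ 2) + ∫ s in (0:ℝ)..T, 2 * ‖z l s‖ ^ 2 :=
    intervalIntegral.integral_add (i1.const_mul 2) (i2.const_mul 2)
  rw [q1, intervalIntegral.integral_const_mul, q2, intervalIntegral.integral_const_mul,
    intervalIntegral.integral_const_mul, intervalIntegral.integral_const, smul_eq_mul, sub_zero]
  have h1 := (hX k).2.2
  have h2 := (hX l).2.2
  have h3 : ε / (8 * (X + 1)) * (2 * (∫ s in (0:ℝ)..T, ‖z k s‖ ^ 2) +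
      2 * ∫ s in (0:ℝ)..T, ‖z l s‖ ^ 2) ≤ ε / (8 * (X + 1)) * (4 * (X + 1)) := by
    gcongr
    linarith
  have h4 : ε / (8 * (X + 1)) * (4 * (X + 1)) = ε / 2 := by field_simp; ring
  have h5 : T * (ε / (2 * T)) = ε / 2 := by field_simp
  linarith

/-- extraction of a fast subsequence -/
theorem App.extract (A : App W m ν F x0 u z lam e) (Fr : Frame W m C) (hν : 0 < ν)
    (hF : ∀ T, ContinuousOn F (Icc 0 T))
    (hcomp : ∀ R : ℝ, TotallyBounded {v : H | ∃ z, (v, z) ∈ W ∧ ‖z‖ ≤ R}) :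
    ∃ φ : ℕ → ℕ, StrictMono φ ∧ ∀ N n k : ℕ, N ≤ n → N ≤ k →
      ∫ s in (0 : ℝ)..((N : ℝ) + 1), ‖u (φ n) s - u (φ k) s‖ ^ 2 ≤ (1 / 4) ^ N := by
  have h1 : ∀ N : ℕ, ∃ S ∈ (hyperfilter ℕ : Ultrafilter ℕ), ∀ k ∈ S, ∀ l ∈ S,
      ∫ s in (0 : ℝ)..((N : ℝ) + 1), ‖u k s - u l s‖ ^ 2 ≤ (1 / 4) ^ N := fun N =>
    A.cauchy Fr hν hF hcomp _ (by positivity) (by positivity)
  choose S hS hSi using h1
  have h2 : ∀ N : ℕ, ∃ᶠ k in atTop, ∀ j ≤ N, k ∈ S j := by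
    intro N
    have h3 : ∀ᶠ k in (hyperfilter ℕ : Filter ℕ), ∀ j ≤ N, k ∈ S j := by
      have : ∀ᶠ k in (hyperfilter ℕ : Filter ℕ), ∀ j ∈ Finset.range (N + 1), k ∈ S j := by
        rw [Filter.eventually_all_finset]
        intro j _
        exact hS j
      filter_upwards [this] with k hk j hj
      exact hk j (Finset.mem_range.2 (by omega))
    exact (h3.frequently).filter_mono Nat.hyperfilter_le_atTop
  obtain ⟨φ, hφ, hφ2⟩ := extraction_forall_of_frequently h2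
  exact ⟨φ, hφ, fun N n k hn hk => hSi N _ (hφ2 n N hn) _ (hφ2 k N hk)⟩

/-- almost everywhere convergence -/
theorem App.ae (A : App W m ν F x0 u z lam e) (hfast : ∀ N n k : ℕ, N ≤ n → N ≤ k →
      ∫ s in (0 : ℝ)..((N : ℝ) + 1), ‖u n s - u k s‖ ^ 2 ≤ (1 / 4) ^ N) {T : ℝ} (hT : 0 < T) :
    ∀ᵐ s ∂(volume.restrict (Ioc 0 T)), ∃ l, Tendsto (fun n => u n s) atTop (𝓝 l) := by
  obtain ⟨N0, hN0⟩ := exists_nat_ge T
  have hmeas : ∀ n, AEStronglyMeasurable (u n) (volume.restrict (Ioc 0 T)) := fun n =>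
    ((A.uc n T).mono Ioc_subset_Icc_self).aestronglyMeasurable measurableSet_Ioc
  have key : ∀ᵐ s ∂(volume.restrict (Ioc 0 T)), ∃ l,
      Tendsto (fun n => u (n + N0) s) atTop (𝓝 l) := by
    refine Lp.ae_tendsto_of_cauchy_eLpNorm' (p := 2) (fun n => hmeas _) (by norm_num)
      (B := fun N => 2 * ENNReal.ofReal ((1 / 2) ^ N)) ?_ ?_
    · rw [ENNReal.tsum_mul_left]
      refine ENNReal.mul_ne_top (by norm_num) ?_
      rw [← ENNReal.ofReal_tsum_of_nonneg (fun n => by positivity)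
        (summable_geometric_of_lt_one (by norm_num) (by norm_num))]
      exact ENNReal.ofReal_ne_top
    · intro N n k hn hk
      have hD : ContinuousOn (fun s => ‖u (n + N0) s - u (k + N0) s‖ ^ 2) (Icc 0 ((N + N0 : ℕ) + 1)) :=
        ((A.uc _ _).sub (A.uc _ _)).norm.pow 2
      have h1 := hfast (N + N0) (n + N0) (k + N0) (by omega) (by omega)
      have hTN : T ≤ ((N + N0 : ℕ) : ℝ) + 1 := by
        push_cast
        have : (0 : ℝ) ≤ N := by positivity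
        linarith
      have h2 : ∫ s in (0 : ℝ)..T, ‖u (n + N0) s - u (k + N0) s‖ ^ 2 ≤ (1 / 4) ^ N := by
        refine (ii_sub_le hD (fun s => by positivity) le_rfl hT.le hTN).trans (h1.trans ?_)
        exact pow_le_pow_of_le_one (by norm_num) (by norm_num) (by omega)
      have hint : Integrable (fun s => ‖u (n + N0) s - u (k + N0) s‖ ^ 2)
          (volume.restrict (Ioc 0 T)) := by
        have := ii_of_c hD le_rfl hT.le hTN
        rwa [intervalIntegrable_iff_integrableOn_Ioc_of_le hT.le] at this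
      have h3 : ∫⁻ s in Ioc 0 T, ‖(u (n + N0) - u (k + N0)) s‖ₑ ^ (2 : ℝ) ≤
          ENNReal.ofReal ((1 / 4) ^ N) := by
        have e1 : ∀ s, ‖(u (n + N0) - u (k + N0)) s‖ₑ ^ (2 : ℝ) =
            ENNReal.ofReal (‖u (n + N0) s - u (k + N0) s‖ ^ 2) := by
          intro s
          rw [Pi.sub_apply, ← ofReal_norm, ENNReal.ofReal_rpow_of_nonneg (norm_nonneg _) (by norm_num),
            Real.rpow_two]
        simp_rw [e1]
        rw [← ofReal_integral_eq_lintegral_ofReal hint (Eventually.of_forall fun s => by positivity)]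
        rw [intervalIntegral.integral_of_le hT.le] at h2
        exact ENNReal.ofReal_le_ofReal h2
      unfold eLpNorm'
      calc (∫⁻ s in Ioc 0 T, ‖(u (n + N0) - u (k + N0)) s‖ₑ ^ (2 : ℝ)) ^ (1 / (2 : ℝ))
          ≤ (ENNReal.ofReal ((1 / 4) ^ N)) ^ (1 / (2 : ℝ)) := by gcongr
        _ = ENNReal.ofReal ((1 / 2) ^ N) := by
            rw [ENNReal.ofReal_rpow_of_nonneg (by positivity) (by norm_num)]
            congr 1
            rw [← Real.sqrt_eq_rpow, show ((1 : ℝ) / 4) ^ N = ((1 / 2) ^ N) ^ 2 by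
              rw [← pow_mul, mul_comm, pow_mul]; norm_num]
            exact Real.sqrt_sq (by positivity)
        _ < 2 * ENNReal.ofReal ((1 / 2) ^ N) := by
            rw [two_mul]
            exact ENNReal.lt_add_right ENNReal.ofReal_ne_top (by
              rw [ne_eq, ENNReal.ofReal_eq_zero, not_le]; positivity)
  filter_upwards [key] with s hs
  obtain ⟨l, hl⟩ := hs
  exact ⟨l, (tendsto_add_atTop_iff_nat N0).1 hl⟩

end

end Pool.Agent.J4H18.EX
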