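import Pool.Agent.J4H18.EX.A2

/-!
Existence of Leray-Hopf solutions: weak limits in `L²`.
-/

set_option autoImplicit false
set_option linter.unusedSectionVars false
set_option linter.unusedVariables false

open MeasureTheory Set Filter Topology
open scoped InnerProductSpace ENNReal

namespace Pool.Agent.J4H18.EX

open H772R2.NSR (Frame prim_cont grad_unique young4 exists_weak_limit unif mem_of_weak_limit)
open H772R2.NSG (toLp_norm_sq toLp_inner toLp_tendsto ae_subseq)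

section

variable {H K : Type} [NormedAddCommGroup H] [InnerProductSpace ℝ H] [CompleteSpace H]
  [NormedAddCommGroup K] [InnerProductSpace ℝ K] [CompleteSpace K]
variable {α : Type} [MeasurableSpace α] {μ : Measure α}

/-- pairs of `L²` functions with values in `W` -/
def lpW (W : Submodule ℝ (H × K)) (μ : Measure α) : Submodule ℝ (Lp H 2 μ × Lp K 2 μ) where
  carrier := {p | ∀ᵐ s ∂μ, (p.1 s, p.2 s) ∈ W}
  add_mem' := by
    intro p q hp hq
    simp only [mem_setOf_eq] at hp hq ⊢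
    filter_upwards [hp, hq, Lp.coeFn_add p.1 q.1, Lp.coeFn_add p.2 q.2] with s h1 h2 h3 h4
    rw [Prod.fst_add, Prod.snd_add, h3, h4]
    exact W.add_mem h1 h2
  zero_mem' := by
    simp only [mem_setOf_eq, Prod.fst_zero, Prod.snd_zero]
    filter_upwards [Lp.coeFn_zero H 2 μ, Lp.coeFn_zero K 2 μ] with s h1 h2
    rw [h1, h2]
    exact W.zero_mem
  smul_mem' := by
    intro c p hp
    simp only [mem_setOf_eq] at hp ⊢
    filter_upwards [hp, Lp.coeFn_smul c p.1, Lp.coeFn_smul c p.2] with s h1 h2 h3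
    rw [Prod.smul_fst, Prod.smul_snd, h2, h3]
    exact W.smul_mem c h1

theorem mem_lpW {W : Submodule ℝ (H × K)} {p : Lp H 2 μ × Lp K 2 μ} :
    p ∈ lpW W μ ↔ ∀ᵐ s ∂μ, (p.1 s, p.2 s) ∈ W := Iff.rfl

theorem lpW_closed {W : Submodule ℝ (H × K)} (hW : IsClosed (W : Set (H × K))) :
    IsClosed (lpW W μ : Set (Lp H 2 μ × Lp K 2 μ)) := by
  refine IsSeqClosed.isClosed ?_
  intro p q hp hq
  have h1 : Tendsto (fun n => (p n).1) atTop (𝓝 q.1) := (continuous_fst.tendsto q).comp hq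
  obtain ⟨n1, hn1, k1⟩ := (tendstoInMeasure_of_tendsto_Lp h1).exists_seq_tendsto_ae
  have h2 : Tendsto (fun n => (p (n1 n)).2) atTop (𝓝 q.2) :=
    ((continuous_snd.tendsto q).comp hq).comp hn1.tendsto_atTop
  obtain ⟨n2, hn2, k2⟩ := (tendstoInMeasure_of_tendsto_Lp h2).exists_seq_tendsto_ae
  have h3 : ∀ᵐ s ∂μ, ∀ n, ((p n).1 s, (p n).2 s) ∈ W := ae_all_iff.2 hp
  show ∀ᵐ s ∂μ, (q.1 s, q.2 s) ∈ W
  filter_upwards [k1, k2, h3] with s e1 e2 e3
  have e4 : Tendsto (fun i => ((p (n1 (n2 i))).1 s, (p (n1 (n2 i))).2 s)) atTop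
      (𝓝 (q.1 s, q.2 s)) := (e1.comp hn2.tendsto_atTop).prodMk_nhds e2
  exact hW.mem_of_tendsto e4 (Eventually.of_forall fun i => e3 _)

/-- weak limits in `L²` -/
theorem weak_L2 (U : Ultrafilter ℕ) {z : ℕ → α → K} (hz : ∀ n, MemLp (z n) 2 μ) {X : ℝ}
    (hX : ∀ n, ∫ s, ‖z n s‖ ^ 2 ∂μ ≤ X) : ∃ ζ : α → K, MemLp ζ 2 μ ∧
      ∀ g, MemLp g 2 μ → Tendsto (fun n => ∫ s, ⟪z n s, g s⟫_ℝ ∂μ) U
        (𝓝 (∫ s, ⟪ζ s, g s⟫_ℝ ∂μ)) := by
  obtain ⟨ζ, -, h2⟩ := exists_weak_limit U (fun n => (hz n).toLp (z n)) (√X)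
    (Eventually.of_forall fun n => Real.le_sqrt_of_sq_le (by rw [toLp_norm_sq]; exact hX n))
  refine ⟨ζ, Lp.memLp ζ, fun g hg => ?_⟩
  have h3 := h2 (hg.toLp g)
  have e1 : ⟪ζ, hg.toLp g⟫_ℝ = ∫ s, ⟪ζ s, g s⟫_ℝ ∂μ := by
    have := toLp_inner (Lp.memLp ζ) hg
    rwa [Lp.toLp_coeFn] at this
  rw [e1] at h3
  refine h3.congr fun n => ?_
  rw [toLp_inner]

/-- weak limits in `L²` have values in `W` -/
theorem weak_mem {W : Submodule ℝ (H × K)} (hW : IsClosed (W : Set (H × K))) (U : Ultrafilter ℕ)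
    {v : ℕ → α → H} {z : ℕ → α → K} (hv : ∀ n, MemLp (v n) 2 μ) (hz : ∀ n, MemLp (z n) 2 μ)
    (hm : ∀ n, ∀ᵐ s ∂μ, (v n s, z n s) ∈ W) {v0 : α → H} {z0 : α → K} (hv0 : MemLp v0 2 μ)
    (hz0 : MemLp z0 2 μ)
    (wv : ∀ g, MemLp g 2 μ → Tendsto (fun n => ∫ s, ⟪v n s, g s⟫_ℝ ∂μ) U
      (𝓝 (∫ s, ⟪v0 s, g s⟫_ℝ ∂μ)))
    (wz : ∀ g, MemLp g 2 μ → Tendsto (fun n => ∫ s, ⟪z n s, g s⟫_ℝ ∂μ) U
      (𝓝 (∫ s, ⟪z0 s, g s⟫_ℝ ∂μ))) : ∀ᵐ s ∂μ, (v0 s, z0 s) ∈ W := by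
  have h := mem_of_weak_limit (lpW W μ) (lpW_closed hW) (U : Filter ℕ)
    (fun n => (hv n).toLp (v n)) (fun n => (hz n).toLp (z n)) (hv0.toLp v0) (hz0.toLp z0)
    (Eventually.of_forall fun n => by
      rw [mem_lpW]
      filter_upwards [hm n, (hv n).coeFn_toLp, (hz n).coeFn_toLp] with s h1 h2 h3
      rw [h2, h3]
      exact h1)
    (fun y => by
      have h1 := wv y (Lp.memLp y)
      have e : ∀ {f : α → H} (hf : MemLp f 2 μ), ⟪hf.toLp f, y⟫_ℝ = ∫ s, ⟪f s, y s⟫_ℝ ∂μ := by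
        intro f hf
        have := toLp_inner hf (Lp.memLp y)
        rwa [Lp.toLp_coeFn] at this
      rw [e]
      refine h1.congr fun n => ?_
      rw [e])
    (fun y => by
      have h1 := wz y (Lp.memLp y)
      have e : ∀ {f : α → K} (hf : MemLp f 2 μ), ⟪hf.toLp f, y⟫_ℝ = ∫ s, ⟪f s, y s⟫_ℝ ∂μ := by
        intro f hf
        have := toLp_inner hf (Lp.memLp y)
        rwa [Lp.toLp_coeFn] at this
      rw [e]
      refine h1.congr fun n => ?_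
      rw [e])
  rw [mem_lpW] at h
  filter_upwards [h, hv0.coeFn_toLp, hz0.coeFn_toLp] with s h1 h2 h3
  rw [h2, h3] at h1
  exact h1

/-- strong convergence implies weak convergence -/
theorem strong_weak (U : Ultrafilter ℕ) (hU : (U : Filter ℕ) ≤ atTop) {v : ℕ → α → H}
    {v0 : α → H} (hv : ∀ n, MemLp (v n) 2 μ) (hv0 : MemLp v0 2 μ)
    (h : Tendsto (fun n => ∫ s, ‖v n s - v0 s‖ ^ 2 ∂μ) atTop (𝓝 0)) :
    ∀ g, MemLp g 2 μ → Tendsto (fun n => ∫ s, ⟪v n s, g s⟫_ℝ ∂μ) U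
      (𝓝 (∫ s, ⟪v0 s, g s⟫_ℝ ∂μ)) := by
  intro g hg
  have h1 := (toLp_tendsto hv hv0 h).inner (𝕜 := ℝ) (tendsto_const_nhds (x := hg.toLp g))
  rw [toLp_inner] at h1
  refine (h1.congr fun n => ?_).mono_left hU
  rw [toLp_inner]

end

section

variable {H K : Type} [NormedAddCommGroup H] [InnerProductSpace ℝ H] [CompleteSpace H]
  [NormedAddCommGroup K] [InnerProductSpace ℝ K] [CompleteSpace K]

/-- the limit -/
structure Lim (W : Submodule ℝ (H × K)) (U : Ultrafilter ℕ)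
    (u : ℕ → ℝ → H) (z : ℕ → ℝ → K) (v : ℝ → H) (y : ℝ → K) : Prop where
  le : (U : Filter ℕ) ≤ atTop
  wv : ∀ t, 0 ≤ t → ∀ h : H, Tendsto (fun n => ⟪u n t, h⟫_ℝ) U (𝓝 ⟪v t, h⟫_ℝ)
  aev : ∀ T, 0 < T → ∀ᵐ s ∂(volume.restrict (Ioc 0 T)), Tendsto (fun n => u n s) atTop (𝓝 (v s))
  mem : ∀ T, 0 < T → ∀ᵐ s ∂(volume.restrict (Ioc 0 T)), (v s, y s) ∈ W
  y2 : ∀ T, 0 < T → MemLp y 2 (volume.restrict (Ioc 0 T))
  wy : ∀ T, 0 < T → ∀ g, MemLp g 2 (volume.restrict (Ioc 0 T)) →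
    Tendsto (fun n => ∫ s in Ioc 0 T, ⟪z n s, g s⟫_ℝ) U (𝓝 (∫ s in Ioc 0 T, ⟪y s, g s⟫_ℝ))
  c2 : ∀ T, 0 < T → Tendsto (fun n => ∫ s in Ioc 0 T, ‖u n s - v s‖ ^ 2) atTop (𝓝 0)

variable {W : Submodule ℝ (H × K)} {m : H → K} {C ν : ℝ} {F : ℝ → K} {x0 : H}
  {u : ℕ → ℝ → H} {z : ℕ → ℝ → K} {lam : ℕ → ℝ → ℝ} {e : ℕ → ℝ}

theorem memLp_c {Y : Type} [NormedAddCommGroup Y] {f : ℝ → Y} {T : ℝ}
    (hf : ContinuousOn f (Icc 0 T)) : MemLp f 2 (volume.restrict (Ioc 0 T)) := by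
  obtain ⟨B, hB⟩ := (isCompact_Icc (a := (0 : ℝ)) (b := T)).exists_bound_of_continuousOn hf
  have : IsFiniteMeasure (volume.restrict (Ioc 0 T) : Measure ℝ) := by
    rw [isFiniteMeasure_restrict]; simp
  refine MemLp.of_bound ((hf.mono Ioc_subset_Icc_self).aestronglyMeasurable measurableSet_Ioc) B ?_
  filter_upwards [ae_restrict_mem measurableSet_Ioc] with s hs
  exact hB s (Ioc_subset_Icc_self hs)

theorem App.lim (A : App W m ν F x0 u z lam e) (Fr : Frame W m C) (hν : 0 < ν)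
    (hF : ∀ T, ContinuousOn F (Icc 0 T)) (hfast : ∀ N n k : ℕ, N ≤ n → N ≤ k →
      ∫ s in (0 : ℝ)..((N : ℝ) + 1), ‖u n s - u k s‖ ^ 2 ≤ (1 / 4) ^ N) :
    ∃ (v : ℝ → H) (y : ℝ → K), Lim W (hyperfilter ℕ) u z v y := by
  classical
  have hU := Nat.hyperfilter_le_atTop
  -- the weak limit
  have hw : ∀ t : ℝ, ∃ v : H, 0 ≤ t → ∀ y : H,
      Tendsto (fun k => ⟪u k t, y⟫_ℝ) (hyperfilter ℕ) (𝓝 ⟪v, y⟫_ℝ) := by
    intro t
    by_cases ht : 0 ≤ t
    · obtain ⟨X, hX0, hX⟩ := A.bd hν hF (T := t + 1) (by linarith)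
      obtain ⟨v, _, hv⟩ := exists_weak_limit (hyperfilter ℕ) (fun k => u k t) X
        (Eventually.of_forall fun k => (hX k).1 t ⟨ht, by linarith⟩)
      exact ⟨v, fun _ => hv⟩
    · exact ⟨0, fun h => absurd h ht⟩
  choose v hv using hw
  have haev : ∀ T, 0 < T → ∀ᵐ s ∂(volume.restrict (Ioc 0 T)),
      Tendsto (fun n => u n s) atTop (𝓝 (v s)) := by
    intro T hT
    filter_upwards [A.ae hfast hT, ae_restrict_mem measurableSet_Ioc] with s hs hsm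
    obtain ⟨l, hl⟩ := hs
    have : l = v s := by
      refine ext_inner_right ℝ fun y => ?_
      exact tendsto_nhds_unique ((hl.mono_left hU).inner tendsto_const_nhds) (hv s hsm.1.le y)
    rwa [← this]
  have hmeasu : ∀ T n, AEStronglyMeasurable (u n) (volume.restrict (Ioc 0 T)) := fun T n =>
    ((A.uc n T).mono Ioc_subset_Icc_self).aestronglyMeasurable measurableSet_Ioc
  have hmeasv : ∀ T, 0 < T → AEStronglyMeasurable v (volume.restrict (Ioc 0 T)) := fun T hT =>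
    aestronglyMeasurable_of_tendsto_ae atTop (hmeasu T) (haev T hT)
  have hfin : ∀ T : ℝ, IsFiniteMeasure (volume.restrict (Ioc 0 T) : Measure ℝ) := fun T => by
    rw [isFiniteMeasure_restrict]; simp
  -- bounds
  have hvb : ∀ T, 0 < T → ∀ X : ℝ, (∀ k, ∀ t ∈ Icc 0 T, ‖u k t‖ ≤ X) →
      ∀ᵐ s ∂(volume.restrict (Ioc 0 T)), ‖v s‖ ≤ X := by
    intro T hT X hX
    filter_upwards [haev T hT, ae_restrict_mem measurableSet_Ioc] with s hs hsm
    exact le_of_tendsto hs.norm (Eventually.of_forall fun n => hX n s (Ioc_subset_Icc_self hsm))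
  have hv2 : ∀ T, 0 < T → MemLp v 2 (volume.restrict (Ioc 0 T)) := by
    intro T hT
    obtain ⟨X, hX0, hX⟩ := A.bd hν hF hT
    have := hfin T
    exact MemLp.of_bound (hmeasv T hT) X (hvb T hT X fun k => (hX k).1)
  have hc2 : ∀ T, 0 < T → Tendsto (fun n => ∫ s in Ioc 0 T, ‖u n s - v s‖ ^ 2) atTop (𝓝 0) := by
    intro T hT
    obtain ⟨X, hX0, hX⟩ := A.bd hν hF hT
    have := hfin T
    have h1 := tendsto_integral_of_dominated_convergence (μ := volume.restrict (Ioc 0 T))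
      (F := fun n s => ‖u n s - v s‖ ^ 2) (f := fun _ => (0 : ℝ)) (fun _ => (X + X) ^ 2)
      (fun n => ((hmeasu T n).sub (hmeasv T hT)).norm.pow 2) (integrable_const _)
      (fun n => by
        filter_upwards [hvb T hT X fun k => (hX k).1, ae_restrict_mem measurableSet_Ioc]
          with s h1 h2
        have h3 := (hX n).1 s (Ioc_subset_Icc_self h2)
        have h4 : ‖u n s - v s‖ ≤ X + X := (norm_sub_le _ _).trans (by linarith)
        rw [Real.norm_of_nonneg (by positivity)]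
        gcongr)
      (by
        filter_upwards [haev T hT] with s hs
        have h1 := ((hs.sub_const (v s)).norm.pow 2)
        simpa using h1)
    simpa using h1
  -- the gradient
  have hg : ∀ T, 0 < T → ∃ ζ : ℝ → K, MemLp ζ 2 (volume.restrict (Ioc 0 T)) ∧
      (∀ᵐ s ∂(volume.restrict (Ioc 0 T)), (v s, ζ s) ∈ W) ∧
      ∀ g, MemLp g 2 (volume.restrict (Ioc 0 T)) →
      Tendsto (fun n => ∫ s in Ioc 0 T, ⟪z n s, g s⟫_ℝ) (hyperfilter ℕ)
        (𝓝 (∫ s in Ioc 0 T, ⟪ζ s, g s⟫_ℝ)) := by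
    intro T hT
    obtain ⟨X, hX0, hX⟩ := A.bd hν hF hT
    obtain ⟨ζ, k1, k2⟩ := weak_L2 (μ := volume.restrict (Ioc 0 T)) (hyperfilter ℕ)
      (fun n => memLp_c (A.zc n T)) (X := X) (fun n => by
        have := (hX n).2.2
        rwa [intervalIntegral.integral_of_le hT.le] at this)
    refine ⟨ζ, k1, ?_, k2⟩
    refine weak_mem Fr.closedW (hyperfilter ℕ) (fun n => memLp_c (A.uc n T))
      (fun n => memLp_c (A.zc n T)) (fun n => ?_) (hv2 T hT) k1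
      (strong_weak _ hU (fun n => memLp_c (A.uc n T)) (hv2 T hT) (hc2 T hT)) k2
    filter_upwards [ae_restrict_mem measurableSet_Ioc] with s hs
    exact A.mem n s hs.1.le
  let y : ℝ → K := fun t => if h : ∃ ζ, (v t, ζ) ∈ W then h.choose else 0
  have hy : ∀ T, 0 < T → ∀ ζ : ℝ → K, (∀ᵐ s ∂(volume.restrict (Ioc 0 T)), (v s, ζ s) ∈ W) →
      y =ᵐ[volume.restrict (Ioc 0 T)] ζ := by
    intro T hT ζ hζ
    filter_upwards [hζ] with s hs
    have h : ∃ ζ, (v s, ζ) ∈ W := ⟨_, hs⟩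
    simp only [y, dif_pos h]
    exact grad_unique Fr h.choose_spec hs
  refine ⟨v, y, hU, fun t ht => hv t ht, haev, ?_, ?_, ?_, hc2⟩
  · intro T hT
    obtain ⟨ζ, k1, k2, k3⟩ := hg T hT
    filter_upwards [hy T hT ζ k2, k2] with s h1 h2
    rwa [h1]
  · intro T hT
    obtain ⟨ζ, k1, k2, k3⟩ := hg T hT
    exact (memLp_congr_ae (hy T hT ζ k2)).2 k1
  · intro T hT g hg2
    obtain ⟨ζ, k1, k2, k3⟩ := hg T hT
    have e1 : ∫ s in Ioc 0 T, ⟪y s, g s⟫_ℝ = ∫ s in Ioc 0 T, ⟪ζ s, g s⟫_ℝ := by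
      refine integral_congr_ae ?_
      filter_upwards [hy T hT ζ k2] with s hs
      rw [hs]
    rw [e1]
    exact k3 g hg2

end

end Pool.Agent.J4H18.EX
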