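import Pool.Agent.J4H18.EX.A3

/-!
Existence of Leray-Hopf solutions: the equation and the energy inequality in the limit.
-/

set_option autoImplicit false
set_option linter.unusedSectionVars false
set_option linter.unusedVariables false

open MeasureTheory Set Filter Topology
open scoped InnerProductSpace ENNReal

namespace Pool.Agent.J4H18.EX

open H772R2.NSR (Frame prim_cont grad_unique young4 exists_weak_limit unif mem_of_weak_limit)
open H772R2.NSG (LH)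
open Pool.Agent.W795.HE (SE)

section

variable {H K : Type} [NormedAddCommGroup H] [InnerProductSpace ℝ H] [CompleteSpace H]
  [NormedAddCommGroup K] [InnerProductSpace ℝ K] [CompleteSpace K]
variable {W : Submodule ℝ (H × K)} {m : H → K} {C ν : ℝ} {F : ℝ → K} {x0 : H}
  {u : ℕ → ℝ → H} {z : ℕ → ℝ → K} {lam : ℕ → ℝ → ℝ} {e : ℕ → ℝ} {v : ℝ → H} {y : ℝ → K}
  {U : Ultrafilter ℕ}

theorem eight {D x y θ : ℝ} (hx : 0 ≤ x) (hy : 0 ≤ y) (hθ : 0 < θ)
    (h : D ^ 8 ≤ x * y ^ 7) : D ≤ θ * y + x / θ ^ 7 := by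
  have hM : 0 ≤ θ * y + x / θ ^ 7 := by positivity
  have h1 : (x / θ ^ 7) * (θ * y) ^ 7 ≤ (θ * y + x / θ ^ 7) ^ 8 := by
    have a1 : x / θ ^ 7 ≤ θ * y + x / θ ^ 7 := by
      have : 0 ≤ θ * y := by positivity
      linarith
    have a2 : θ * y ≤ θ * y + x / θ ^ 7 := by
      have : 0 ≤ x / θ ^ 7 := by positivity
      linarith
    calc (x / θ ^ 7) * (θ * y) ^ 7 ≤ (θ * y + x / θ ^ 7) * (θ * y + x / θ ^ 7) ^ 7 := by gcongr
      _ = _ := by ring
  have h2 : (x / θ ^ 7) * (θ * y) ^ 7 = x * y ^ 7 := by field_simp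
  have h3 : D ^ 8 ≤ (θ * y + x / θ ^ 7) ^ 8 := by linarith
  by_contra hcon
  push Not at hcon
  have := pow_lt_pow_left₀ hcon hM (n := 8) (by norm_num)
  linarith

theorem m_diff (Fr : Frame W m C) {p q : H × K} (hp : p ∈ W) (hq : q ∈ W) {θ : ℝ} (hθ : 0 < θ) :
    ‖m p.1 - m q.1‖ ≤ θ * (‖p.2‖ + ‖q.2‖) ^ 2 + C ^ 2 * ‖p.1 - q.1‖ ^ 2 / θ ^ 7 := by
  have hC := Fr.C0
  refine eight (by positivity) (by positivity) hθ ?_
  have h := Fr.lips p hp q hq
  have h2 : ‖p.2 - q.2‖ ≤ ‖p.2‖ + ‖q.2‖ := norm_sub_le _ _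
  calc ‖m p.1 - m q.1‖ ^ 8 = (‖m p.1 - m q.1‖ ^ 4) ^ 2 := by ring
    _ ≤ (C * (‖p.1 - q.1‖ * ‖p.2 - q.2‖ ^ 3 * (‖p.2‖ + ‖q.2‖) ^ 4)) ^ 2 := by gcongr
    _ ≤ (C * (‖p.1 - q.1‖ * (‖p.2‖ + ‖q.2‖) ^ 3 * (‖p.2‖ + ‖q.2‖) ^ 4)) ^ 2 := by gcongr
    _ = _ := by ring

/-- weak convergence on subintervals -/
theorem Lim.sub_int (L : Lim W U u z v y) {a b : ℝ} (ha : 0 ≤ a) (hab : a ≤ b)
    {g : ℝ → K} (hg : ∀ T, 0 < T → MemLp g 2 (volume.restrict (Ioc 0 T))) :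
    Tendsto (fun n => ∫ s in a..b, ⟪z n s, g s⟫_ℝ) U (𝓝 (∫ s in a..b, ⟪y s, g s⟫_ℝ)) := by
  have hb1 : 0 < b + 1 := by linarith
  have hsub : Ioc a b ⊆ Ioc 0 (b + 1) := Ioc_subset_Ioc ha (by linarith)
  have key : ∀ f : ℝ → K, ∫ s in Ioc 0 (b + 1), ⟪f s, (Ioc a b).indicator g s⟫_ℝ =
      ∫ s in a..b, ⟪f s, g s⟫_ℝ := by
    intro f
    rw [intervalIntegral.integral_of_le hab]
    have e1 : (fun s => ⟪f s, (Ioc a b).indicator g s⟫_ℝ) =
        (Ioc a b).indicator (fun s => ⟪f s, g s⟫_ℝ) := by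
      funext s
      by_cases hs : s ∈ Ioc a b
      · simp [indicator_of_mem hs]
      · simp [indicator_of_notMem hs]
    rw [e1, setIntegral_indicator measurableSet_Ioc, inter_eq_self_of_subset_right hsub]
  have h := L.wy (b + 1) hb1 ((Ioc a b).indicator g) ((hg _ hb1).indicator measurableSet_Ioc)
  rw [key] at h
  refine h.congr fun n => ?_
  rw [key]

theorem ii_L2 {f : ℝ → K} {g : ℝ → K} (hf : ∀ T, 0 < T → MemLp f 2 (volume.restrict (Ioc 0 T)))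
    (hg : ∀ T, 0 < T → MemLp g 2 (volume.restrict (Ioc 0 T))) {a b : ℝ} (ha : 0 ≤ a)
    (hab : a ≤ b) : IntervalIntegrable (fun s => ⟪f s, g s⟫_ℝ) volume a b :=
  H772R2.NSG.ii_of_int (T := b + 1) (H772R2.NSG.int_inner (hf _ (by linarith))
    (hg _ (by linarith))) ha hab (by linarith)

theorem c_L2 {f : ℝ → K} (hf : ∀ T, ContinuousOn f (Icc 0 T)) :
    ∀ T, 0 < T → MemLp f 2 (volume.restrict (Ioc 0 T)) := fun T _ => memLp_c (hf T)

/-- the energy inequality in the limit -/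
theorem Lim.en (A : App W m ν F x0 u z lam e) (L : Lim W U u z v y) (hν : 0 < ν)
    (hF : ∀ T, ContinuousOn F (Icc 0 T)) {a b : ℝ} (ha : 0 ≤ a) (hab : a ≤ b)
    (hs : Tendsto (fun n => u n a) U (𝓝 (v a))) :
    ‖v b‖ ^ 2 / 2 + ν * (∫ s in a..b, ‖y s‖ ^ 2) ≤ ‖v a‖ ^ 2 / 2 + ∫ s in a..b, ⟪F s, y s⟫_ℝ := by
  have hb : 0 ≤ b := ha.trans hab
  have hF2 := c_L2 hF
  -- approximations
  have h1 : ∀ n, ‖u n b‖ ^ 2 / 2 + ∫ s in a..b, (ν + lam n s) * ‖z n s‖ ^ 2 =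
      ‖u n a‖ ^ 2 / 2 + ∫ s in a..b, ⟪F s, z n s⟫_ℝ := by
    intro n
    have hzc := A.zc n b
    have hn : ContinuousOn (fun s => (ν + lam n s) * ‖z n s‖ ^ 2) (Icc 0 b) :=
      (continuousOn_const.add (A.lc n b)).mul (hzc.norm.pow 2)
    have hFz : ContinuousOn (fun s => ⟪F s, z n s⟫_ℝ) (Icc 0 b) := (hF b).inner hzc
    have k1 := A.energy n a ha
    have k2 := A.energy n b hb
    have k3 := intervalIntegral.integral_add_adjacent_intervals (ii_of_c hn le_rfl ha hab)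
      (ii_of_c hn ha hab le_rfl)
    have k4 := intervalIntegral.integral_add_adjacent_intervals (ii_of_c hFz le_rfl ha hab)
      (ii_of_c hFz ha hab le_rfl)
    linarith
  have h2 : ∀ n, ⟪u n b, v b⟫_ℝ - ‖v b‖ ^ 2 / 2 +
      ν * (2 * (∫ s in a..b, ⟪z n s, y s⟫_ℝ) - ∫ s in a..b, ‖y s‖ ^ 2) ≤
      ‖u n a‖ ^ 2 / 2 + ∫ s in a..b, ⟪z n s, F s⟫_ℝ := by
    intro n
    have hzc := A.zc n b
    have hn : ContinuousOn (fun s => (ν + lam n s) * ‖z n s‖ ^ 2) (Icc 0 b) :=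
      (continuousOn_const.add (A.lc n b)).mul (hzc.norm.pow 2)
    have hz2 := c_L2 (fun T => A.zc n T)
    have e1 : ∫ s in a..b, ⟪F s, z n s⟫_ℝ = ∫ s in a..b, ⟪z n s, F s⟫_ℝ := by
      simp_rw [real_inner_comm (z n _)]
    have e2 : ⟪u n b, v b⟫_ℝ - ‖v b‖ ^ 2 / 2 ≤ ‖u n b‖ ^ 2 / 2 := by
      have := real_inner_le_norm (u n b) (v b)
      nlinarith [sq_nonneg (‖u n b‖ - ‖v b‖)]
    have e3 : 2 * (∫ s in a..b, ⟪z n s, y s⟫_ℝ) - ∫ s in a..b, ‖y s‖ ^ 2 ≤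
        ∫ s in a..b, ‖z n s‖ ^ 2 := by
      have i1 := ii_L2 hz2 L.y2 ha hab
      have i2 := ii_L2 L.y2 L.y2 ha hab
      simp_rw [real_inner_self_eq_norm_sq] at i2
      rw [← intervalIntegral.integral_const_mul, ← intervalIntegral.integral_sub (i1.const_mul 2) i2]
      refine intervalIntegral.integral_mono_on hab ((i1.const_mul 2).sub i2)
        (ii_of_c (hzc.norm.pow 2) ha hab le_rfl) fun s _ => ?_
      have := real_inner_le_norm (z n s) (y s)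
      nlinarith [sq_nonneg (‖z n s‖ - ‖y s‖)]
    have e4 : ν * ∫ s in a..b, ‖z n s‖ ^ 2 ≤ ∫ s in a..b, (ν + lam n s) * ‖z n s‖ ^ 2 := by
      rw [← intervalIntegral.integral_const_mul]
      refine intervalIntegral.integral_mono_on hab
        (ii_of_c (continuousOn_const.mul (hzc.norm.pow 2)) ha hab le_rfl)
        (ii_of_c hn ha hab le_rfl) fun s _ => ?_
      have := A.l0 n s
      gcongr
      linarith
    have e5 := h1 n
    rw [e1] at e5
    have e6 := mul_le_mul_of_nonneg_left e3 hν.le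
    linarith
  have l1 : Tendsto (fun n => ⟪u n b, v b⟫_ℝ - ‖v b‖ ^ 2 / 2 +
      ν * (2 * (∫ s in a..b, ⟪z n s, y s⟫_ℝ) - ∫ s in a..b, ‖y s‖ ^ 2)) U
      (𝓝 (⟪v b, v b⟫_ℝ - ‖v b‖ ^ 2 / 2 +
      ν * (2 * (∫ s in a..b, ⟪y s, y s⟫_ℝ) - ∫ s in a..b, ‖y s‖ ^ 2))) :=
    ((L.wv b hb (v b)).sub_const _).add ((((L.sub_int ha hab L.y2).const_mul 2).sub_const _).const_mul ν)
  have l2 : Tendsto (fun n => ‖u n a‖ ^ 2 / 2 + ∫ s in a..b, ⟪z n s, F s⟫_ℝ) U
      (𝓝 (‖v a‖ ^ 2 / 2 + ∫ s in a..b, ⟪y s, F s⟫_ℝ)) :=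
    ((hs.norm.pow 2).div_const 2).add (L.sub_int ha hab hF2)
  have l3 := le_of_tendsto_of_tendsto' l1 l2 h2
  simp_rw [real_inner_self_eq_norm_sq] at l3
  have e1 : ∫ s in a..b, ⟪y s, F s⟫_ℝ = ∫ s in a..b, ⟪F s, y s⟫_ℝ := by
    simp_rw [real_inner_comm (F _)]
  rw [e1] at l3
  linarith

theorem Lim.mconv (A : App W m ν F x0 u z lam e) (L : Lim W U u z v y) (Fr : Frame W m C)
    (hν : 0 < ν) (hF : ∀ T, ContinuousOn F (Icc 0 T))
    (hmm : ∀ (μ : Measure ℝ) (v : ℝ → H) (y : ℝ → K), AEStronglyMeasurable v μ →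
      AEStronglyMeasurable y μ → (∀ᵐ s ∂μ, (v s, y s) ∈ W) →
      AEStronglyMeasurable (fun s => m (v s)) μ) {T : ℝ} (hT : 0 < T) :
    Tendsto (fun n => ∫ s in Ioc 0 T, ‖m (u n s) - m (v s)‖) atTop (𝓝 0) := by
  obtain ⟨X, hX0, hX⟩ := A.bd hν hF hT
  have hfin : IsFiniteMeasure (volume.restrict (Ioc 0 T) : Measure ℝ) := by
    rw [isFiniteMeasure_restrict]; simp
  have hmeasu : ∀ n, AEStronglyMeasurable (u n) (volume.restrict (Ioc 0 T)) := fun n =>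
    ((A.uc n T).mono Ioc_subset_Icc_self).aestronglyMeasurable measurableSet_Ioc
  have hmeasv : AEStronglyMeasurable v (volume.restrict (Ioc 0 T)) :=
    aestronglyMeasurable_of_tendsto_ae atTop hmeasu (L.aev T hT)
  have hmv := hmm _ v y hmeasv (L.y2 T hT).aestronglyMeasurable (L.mem T hT)
  have hy2i : Integrable (fun s => ‖y s‖ ^ 2) (volume.restrict (Ioc 0 T)) :=
    (memLp_two_iff_integrable_sq_norm (L.y2 T hT).aestronglyMeasurable).mp (L.y2 T hT)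
  have hz2i : ∀ n, Integrable (fun s => ‖z n s‖ ^ 2) (volume.restrict (Ioc 0 T)) := fun n =>
    (memLp_two_iff_integrable_sq_norm (memLp_c (A.zc n T)).aestronglyMeasurable).mp
      (memLp_c (A.zc n T))
  set Y : ℝ := ∫ s in Ioc 0 T, ‖y s‖ ^ 2 with hY
  have hY0 : 0 ≤ Y := integral_nonneg fun s => by positivity
  have hC := Fr.C0
  rw [Metric.tendsto_nhds]
  intro ε hε
  set θ : ℝ := ε / (4 * (2 * X + 2 * Y + 1)) with hθ
  have hθ0 : 0 < θ := by positivity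
  have hc2 := (L.c2 T hT).eventually (gt_mem_nhds (show (0 : ℝ) < ε * θ ^ 7 / (4 * (C ^ 2 + 1)) by
    positivity))
  filter_upwards [hc2] with n hn
  have hui : Integrable (fun s => ‖u n s - v s‖ ^ 2) (volume.restrict (Ioc 0 T)) := by
    have h1 : ∀ᵐ s ∂(volume.restrict (Ioc 0 T)), ‖v s‖ ≤ X := by
      filter_upwards [L.aev T hT, ae_restrict_mem measurableSet_Ioc] with s hs hsm
      exact le_of_tendsto hs.norm (Eventually.of_forall fun n =>
        (hX n).1 s (Ioc_subset_Icc_self hsm))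
    refine Integrable.mono' (integrable_const ((X + X) ^ 2))
      (((hmeasu n).sub hmeasv).norm.pow 2) ?_
    filter_upwards [h1, ae_restrict_mem measurableSet_Ioc] with s h2 h3
    have h4 := (hX n).1 s (Ioc_subset_Icc_self h3)
    have h5 : ‖u n s - v s‖ ≤ X + X := (norm_sub_le _ _).trans (by linarith)
    rw [Real.norm_of_nonneg (by positivity)]
    gcongr
  have hb : ∫ s in Ioc 0 T, ‖m (u n s) - m (v s)‖ ≤
      ∫ s in Ioc 0 T, (θ * (2 * ‖z n s‖ ^ 2 + 2 * ‖y s‖ ^ 2) +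
        C ^ 2 / θ ^ 7 * ‖u n s - v s‖ ^ 2) := by
    refine integral_mono_of_nonneg (Eventually.of_forall fun s => norm_nonneg _)
      (((((hz2i n).const_mul 2).add (hy2i.const_mul 2)).const_mul θ).add
        (hui.const_mul (C ^ 2 / θ ^ 7))) ?_
    filter_upwards [L.mem T hT, ae_restrict_mem measurableSet_Ioc] with s h1 h2
    have h3 := m_diff Fr (A.mem n s h2.1.le) h1 hθ0
    simp only at h3 ⊢
    refine h3.trans (add_le_add ?_ (le_of_eq (by ring)))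
    refine mul_le_mul_of_nonneg_left ?_ hθ0.le
    nlinarith [sq_nonneg (‖z n s‖ - ‖y s‖)]
  have q1 : ∫ s in Ioc 0 T, (θ * (2 * ‖z n s‖ ^ 2 + 2 * ‖y s‖ ^ 2) +
        C ^ 2 / θ ^ 7 * ‖u n s - v s‖ ^ 2) = (∫ s in Ioc 0 T, θ * (2 * ‖z n s‖ ^ 2 + 2 * ‖y s‖ ^ 2))
        + ∫ s in Ioc 0 T, C ^ 2 / θ ^ 7 * ‖u n s - v s‖ ^ 2 :=
    integral_add ((((hz2i n).const_mul 2).add (hy2i.const_mul 2)).const_mul θ)
      (hui.const_mul (C ^ 2 / θ ^ 7))
  have q2 : ∫ s in Ioc 0 T, (2 * ‖z n s‖ ^ 2 + 2 * ‖y s‖ ^ 2) =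
      (∫ s in Ioc 0 T, 2 * ‖z n s‖ ^ 2) + ∫ s in Ioc 0 T, 2 * ‖y s‖ ^ 2 :=
    integral_add ((hz2i n).const_mul 2) (hy2i.const_mul 2)
  rw [q1, integral_const_mul, q2, integral_const_mul, integral_const_mul, integral_const_mul] at hb
  have hzX : ∫ s in Ioc 0 T, ‖z n s‖ ^ 2 ≤ X := by
    have := (hX n).2.2
    rwa [intervalIntegral.integral_of_le hT.le] at this
  have h1 : θ * (2 * (∫ s in Ioc 0 T, ‖z n s‖ ^ 2) + 2 * ∫ s in Ioc 0 T, ‖y s‖ ^ 2) ≤
      θ * (2 * X + 2 * Y + 1) := by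
    refine mul_le_mul_of_nonneg_left ?_ hθ0.le
    linarith
  have h2 : θ * (2 * X + 2 * Y + 1) = ε / 4 := by rw [hθ]; field_simp
  have h3 : C ^ 2 / θ ^ 7 * ∫ s in Ioc 0 T, ‖u n s - v s‖ ^ 2 ≤ ε / 4 := by
    calc C ^ 2 / θ ^ 7 * ∫ s in Ioc 0 T, ‖u n s - v s‖ ^ 2 ≤
          (C ^ 2 + 1) / θ ^ 7 * (ε * θ ^ 7 / (4 * (C ^ 2 + 1))) := by
          have h0 : 0 ≤ ∫ s in Ioc 0 T, ‖u n s - v s‖ ^ 2 := integral_nonneg fun s => by positivity
          gcongr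
          linarith
      _ = ε / 4 := by field_simp
  rw [Real.dist_eq, sub_zero, abs_of_nonneg (integral_nonneg fun s => norm_nonneg _)]
  linarith

/-- the additional viscosity disappears -/
theorem App.lamz (A : App W m ν F x0 u z lam e) (hν : 0 < ν)
    (hF : ∀ T, ContinuousOn F (Icc 0 T)) (k : K) {t : ℝ} (ht : 0 ≤ t) :
    Tendsto (fun n => ∫ s in (0 : ℝ)..t, lam n s * ⟪z n s, k⟫_ℝ) atTop (𝓝 0) := by
  obtain ⟨X, hX0, hX⟩ := A.bd hν hF (T := t + 1) (by linarith)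
  rw [Metric.tendsto_nhds]
  intro ε hε
  set κ : ℝ := ε / (4 * (‖k‖ + 1) * (X + 1)) with hκ
  have hκ0 : 0 < κ := by positivity
  have he := A.e0.eventually (gt_mem_nhds (show (0 : ℝ) < κ * ε / (4 * (‖k‖ + 1)) by positivity))
  filter_upwards [he] with n hn
  have hzc := A.zc n (t + 1)
  have hl := A.lc n (t + 1)
  have hin : ContinuousOn (fun s => lam n s * ⟪z n s, k⟫_ℝ) (Icc 0 (t + 1)) :=
    hl.mul (hzc.inner continuousOn_const)
  have hl2 : ContinuousOn (fun s => lam n s ^ 2) (Icc 0 (t + 1)) := hl.pow 2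
  have hz2 : ContinuousOn (fun s => ‖z n s‖ ^ 2) (Icc 0 (t + 1)) := hzc.norm.pow 2
  have i1 := ii_of_c hl2 le_rfl ht (by linarith)
  have i2 := ii_of_c hz2 le_rfl ht (by linarith)
  have h1 : |∫ s in (0 : ℝ)..t, lam n s * ⟪z n s, k⟫_ℝ| ≤
      ∫ s in (0 : ℝ)..t, ‖k‖ * (1 / κ * lam n s ^ 2 + κ * ‖z n s‖ ^ 2) := by
    rw [← Real.norm_eq_abs]
    refine intervalIntegral.norm_integral_le_of_norm_le ht ?_
      (((i1.const_mul (1 / κ)).add (i2.const_mul κ)).const_mul _)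
    refine Eventually.of_forall fun s _ => ?_
    have hl0 := A.l0 n s
    rw [norm_mul, Real.norm_of_nonneg hl0]
    have h2 : ‖⟪z n s, k⟫_ℝ‖ ≤ ‖z n s‖ * ‖k‖ := norm_inner_le_norm _ _
    have h3 : lam n s * ‖z n s‖ ≤ 1 / κ * lam n s ^ 2 + κ * ‖z n s‖ ^ 2 := by
      have h4 : 0 ≤ (lam n s - κ * ‖z n s‖) ^ 2 / κ := by positivity
      have h5 : (lam n s - κ * ‖z n s‖) ^ 2 / κ =
          1 / κ * lam n s ^ 2 + κ * ‖z n s‖ ^ 2 - 2 * (lam n s * ‖z n s‖) := by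
        field_simp
        ring
      have h6 : 0 ≤ lam n s * ‖z n s‖ := by positivity
      linarith
    calc lam n s * ‖⟪z n s, k⟫_ℝ‖ ≤ lam n s * (‖z n s‖ * ‖k‖) := by gcongr
      _ = ‖k‖ * (lam n s * ‖z n s‖) := by ring
      _ ≤ _ := by gcongr
  have q1 : ∫ s in (0 : ℝ)..t, (1 / κ * lam n s ^ 2 + κ * ‖z n s‖ ^ 2) =
      (∫ s in (0 : ℝ)..t, 1 / κ * lam n s ^ 2) + ∫ s in (0 : ℝ)..t, κ * ‖z n s‖ ^ 2 :=
    intervalIntegral.integral_add (i1.const_mul (1 / κ)) (i2.const_mul κ)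
  rw [intervalIntegral.integral_const_mul, q1, intervalIntegral.integral_const_mul,
    intervalIntegral.integral_const_mul] at h1
  have h2 : ∫ s in (0 : ℝ)..t, lam n s ^ 2 ≤ e n :=
    (ii_sub_le hl2 (fun s => by positivity) le_rfl ht (by linarith)).trans
      (A.l2 n (t + 1) (by linarith))
  have h3 : ∫ s in (0 : ℝ)..t, ‖z n s‖ ^ 2 ≤ X :=
    (ii_sub_le hz2 (fun s => by positivity) le_rfl ht (by linarith)).trans (hX n).2.2
  have h4 : 0 ≤ ∫ s in (0 : ℝ)..t, lam n s ^ 2 :=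
    intervalIntegral.integral_nonneg ht fun s _ => by positivity
  rw [Real.dist_eq, sub_zero]
  refine h1.trans_lt ?_
  have h5 : 1 / κ * ∫ s in (0 : ℝ)..t, lam n s ^ 2 ≤ ε / (4 * (‖k‖ + 1)) := by
    calc 1 / κ * ∫ s in (0 : ℝ)..t, lam n s ^ 2 ≤ 1 / κ * (κ * ε / (4 * (‖k‖ + 1))) := by
          gcongr
          linarith
      _ = _ := by field_simp
  have h6 : κ * ∫ s in (0 : ℝ)..t, ‖z n s‖ ^ 2 ≤ ε / (4 * (‖k‖ + 1)) := by
    calc κ * ∫ s in (0 : ℝ)..t, ‖z n s‖ ^ 2 ≤ κ * (X + 1) := by gcongr; linarith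
      _ = _ := by rw [hκ]; field_simp
  have h7 : ‖k‖ * (1 / κ * (∫ s in (0 : ℝ)..t, lam n s ^ 2) + κ * ∫ s in (0 : ℝ)..t, ‖z n s‖ ^ 2)
      ≤ ‖k‖ * (ε / (4 * (‖k‖ + 1)) + ε / (4 * (‖k‖ + 1))) := by gcongr
  have h8 : ‖k‖ * (ε / (4 * (‖k‖ + 1)) + ε / (4 * (‖k‖ + 1))) ≤ ε / 2 := by
    have : (‖k‖ + 1) * (ε / (4 * (‖k‖ + 1)) + ε / (4 * (‖k‖ + 1))) = ε / 2 := by
      field_simp; ring
    rw [← this]
    gcongr
    linarith
  linarith

/-- Leray-Hopf solution with the strong energy inequality -/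
theorem Lim.fin (A : App W m ν F x0 u z lam e) (L : Lim W U u z v y) (Fr : Frame W m C)
    (hν : 0 < ν) (hF : ∀ T, ContinuousOn F (Icc 0 T))
    (hmm : ∀ (μ : Measure ℝ) (v : ℝ → H) (y : ℝ → K), AEStronglyMeasurable v μ →
      AEStronglyMeasurable y μ → (∀ᵐ s ∂μ, (v s, y s) ∈ W) →
      AEStronglyMeasurable (fun s => m (v s)) μ) {T : ℝ} (hT : 0 < T) :
    LH W m T (fun _ => ν) F x0 v y ∧ SE ν T F v y := by
  have h0 : v 0 = x0 := by
    refine ext_inner_right ℝ fun h => ?_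
    refine tendsto_nhds_unique (L.wv 0 le_rfl h) ?_
    have : (fun n => ⟪u n 0, h⟫_ℝ) = fun _ => ⟪x0, h⟫_ℝ := by
      funext n; rw [A.init]
    rw [this]
    exact tendsto_const_nhds
  have hs0 : Tendsto (fun n => u n 0) U (𝓝 (v 0)) := by
    have : (fun n => u n 0) = fun _ => x0 := by funext n; rw [A.init]
    rw [this, h0]
    exact tendsto_const_nhds
  have hmeasu : ∀ n, AEStronglyMeasurable (u n) (volume.restrict (Ioc 0 T)) := fun n =>
    ((A.uc n T).mono Ioc_subset_Icc_self).aestronglyMeasurable measurableSet_Ioc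
  have hmeasv : AEStronglyMeasurable v (volume.restrict (Ioc 0 T)) :=
    aestronglyMeasurable_of_tendsto_ae atTop hmeasu (L.aev T hT)
  have hmv : ∀ T, 0 < T → AEStronglyMeasurable (fun s => m (v s)) (volume.restrict (Ioc 0 T)) :=
    fun T hT => hmm _ v y (aestronglyMeasurable_of_tendsto_ae atTop (fun n =>
      ((A.uc n T).mono Ioc_subset_Icc_self).aestronglyMeasurable measurableSet_Ioc)
      (L.aev T hT)) (L.y2 T hT).aestronglyMeasurable (L.mem T hT)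
  have hy2i : ∀ T, 0 < T → Integrable (fun s => ‖y s‖ ^ 2) (volume.restrict (Ioc 0 T)) :=
    fun T hT => (memLp_two_iff_integrable_sq_norm (L.y2 T hT).aestronglyMeasurable).mp (L.y2 T hT)
  have hmi : ∀ T, 0 < T → Integrable (fun s => m (v s)) (volume.restrict (Ioc 0 T)) := by
    intro T hT
    refine ((hy2i T hT).const_mul C).mono' (hmv T hT) ?_
    filter_upwards [L.mem T hT] with s hs
    exact H772R2.NSG.norm_m_le Fr hs
  refine ⟨⟨h0, hmeasv, hmv T hT, L.mem T hT, L.y2 T hT, (hy2i T hT).const_mul ν, ?_, ?_⟩, ?_⟩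
  · intro p hp t ht
    have ht1 : 0 < t + 1 := by linarith [ht.1]
    have hk2 : ∀ T, 0 < T → MemLp (fun _ : ℝ => p.2) 2 (volume.restrict (Ioc 0 T)) :=
      fun T _ => memLp_c continuousOn_const
    have hk := L.sub_int le_rfl ht.1 hk2
    have hl := (A.lamz hν hF p.2 ht.1).mono_left L.le
    -- the nonlinear term
    have hm : Tendsto (fun n => ∫ s in (0 : ℝ)..t, ⟪m (u n s), p.2⟫_ℝ) atTop
        (𝓝 (∫ s in (0 : ℝ)..t, ⟪m (v s), p.2⟫_ℝ)) := by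
      rw [tendsto_iff_norm_sub_tendsto_zero]
      have h1 := (L.mconv A Fr hν hF hmm ht1).const_mul ‖p.2‖
      rw [mul_zero] at h1
      refine squeeze_zero (fun n => norm_nonneg _) (fun n => ?_) h1
      have i1 : IntegrableOn (fun s => ⟪m (u n s), p.2⟫_ℝ) (Ioc 0 (t + 1)) :=
        (((A.mc n (t + 1)).inner continuousOn_const).integrableOn_Icc).mono_set Ioc_subset_Icc_self
      have i2 : IntegrableOn (fun s => ⟪m (v s), p.2⟫_ℝ) (Ioc 0 (t + 1)) :=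
        (hmi (t + 1) ht1).inner_const p.2
      have i3 : IntegrableOn (fun s => ‖m (u n s) - m (v s)‖) (Ioc 0 (t + 1)) :=
        ((((A.mc n (t + 1)).integrableOn_Icc).mono_set Ioc_subset_Icc_self).sub
          (hmi (t + 1) ht1)).norm
      have hsub : Ioc 0 t ⊆ Ioc 0 (t + 1) := Ioc_subset_Ioc_right (by linarith)
      rw [intervalIntegral.integral_of_le ht.1, intervalIntegral.integral_of_le ht.1,
        ← integral_sub (i1.mono_set hsub) (i2.mono_set hsub)]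
      refine (norm_integral_le_integral_norm _).trans ?_
      calc ∫ s in Ioc 0 t, ‖⟪m (u n s), p.2⟫_ℝ - ⟪m (v s), p.2⟫_ℝ‖ ≤
            ∫ s in Ioc 0 (t + 1), ‖⟪m (u n s), p.2⟫_ℝ - ⟪m (v s), p.2⟫_ℝ‖ :=
            setIntegral_mono_set (i1.sub i2).norm (Eventually.of_forall fun s => norm_nonneg _)
              hsub.eventuallyLE
        _ ≤ ∫ s in Ioc 0 (t + 1), ‖p.2‖ * ‖m (u n s) - m (v s)‖ := by
            refine integral_mono (i1.sub i2).norm (i3.const_mul _) fun s => ?_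
            simp only
            rw [← inner_sub_left, mul_comm]
            exact norm_inner_le_norm _ _
        _ = _ := integral_const_mul _ _
    have hm' := hm.mono_left L.le
    -- the limit
    have hlim : Tendsto (fun n => (∫ s in (0 : ℝ)..t, ⟪F s, p.2⟫_ℝ) -
        ν * (∫ s in (0 : ℝ)..t, ⟪z n s, p.2⟫_ℝ) - (∫ s in (0 : ℝ)..t, lam n s * ⟪z n s, p.2⟫_ℝ)
        + ∫ s in (0 : ℝ)..t, ⟪m (u n s), p.2⟫_ℝ) U
        (𝓝 ((∫ s in (0 : ℝ)..t, ⟪F s, p.2⟫_ℝ) -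
        ν * (∫ s in (0 : ℝ)..t, ⟪y s, p.2⟫_ℝ) - 0
        + ∫ s in (0 : ℝ)..t, ⟪m (v s), p.2⟫_ℝ)) :=
      ((tendsto_const_nhds.sub (hk.const_mul ν)).sub hl).add hm'
    have hleft : Tendsto (fun n => ⟪u n t - x0, p.1⟫_ℝ) U (𝓝 ⟪v t - x0, p.1⟫_ℝ) := by
      have h1 := (L.wv t ht.1 p.1).sub_const ⟪x0, p.1⟫_ℝ
      rw [← inner_sub_left] at h1
      refine h1.congr fun n => ?_
      rw [inner_sub_left]
    have eF : IntervalIntegrable (fun s => ⟪F s, p.2⟫_ℝ) volume 0 t :=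
      ii_of_c ((hF t).inner continuousOn_const) le_rfl ht.1 le_rfl
    have e1 : ∀ n, ⟪u n t - x0, p.1⟫_ℝ = (∫ s in (0 : ℝ)..t, ⟪F s, p.2⟫_ℝ) -
        ν * (∫ s in (0 : ℝ)..t, ⟪z n s, p.2⟫_ℝ) - (∫ s in (0 : ℝ)..t, lam n s * ⟪z n s, p.2⟫_ℝ)
        + ∫ s in (0 : ℝ)..t, ⟪m (u n s), p.2⟫_ℝ := by
      intro n
      rw [A.weak n p hp t ht.1]
      have j1 : IntervalIntegrable (fun s => ⟪z n s, p.2⟫_ℝ) volume 0 t :=
        ii_of_c ((A.zc n t).inner continuousOn_const) le_rfl ht.1 le_rfl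
      have j2 : IntervalIntegrable (fun s => lam n s * ⟪z n s, p.2⟫_ℝ) volume 0 t :=
        ii_of_c ((A.lc n t).mul ((A.zc n t).inner continuousOn_const)) le_rfl ht.1 le_rfl
      have j3 : IntervalIntegrable (fun s => ⟪m (u n s), p.2⟫_ℝ) volume 0 t :=
        ii_of_c ((A.mc n t).inner continuousOn_const) le_rfl ht.1 le_rfl
      rw [← intervalIntegral.integral_const_mul, ← intervalIntegral.integral_sub eF
        (j1.const_mul ν), ← intervalIntegral.integral_sub (eF.sub (j1.const_mul ν)) j2,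
        ← intervalIntegral.integral_add ((eF.sub (j1.const_mul ν)).sub j2) j3]
      refine intervalIntegral.integral_congr fun s _ => ?_
      rw [inner_add_left, inner_sub_left, real_inner_smul_left]
      ring
    have e2 : (∫ s in (0 : ℝ)..t, ⟪F s, p.2⟫_ℝ) -
        ν * (∫ s in (0 : ℝ)..t, ⟪y s, p.2⟫_ℝ) - 0 + ∫ s in (0 : ℝ)..t, ⟪m (v s), p.2⟫_ℝ =
        ∫ s in (0 : ℝ)..t, ⟪F s - ν • y s + m (v s), p.2⟫_ℝ := by
      have j1 : IntervalIntegrable (fun s => ⟪y s, p.2⟫_ℝ) volume 0 t :=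
        ii_L2 L.y2 hk2 le_rfl ht.1
      have j3 : IntervalIntegrable (fun s => ⟪m (v s), p.2⟫_ℝ) volume 0 t :=
        H772R2.NSG.ii_of_int (T := t + 1) ((hmi (t + 1) ht1).inner_const p.2) le_rfl ht.1
          (by linarith)
      rw [sub_zero, ← intervalIntegral.integral_const_mul, ← intervalIntegral.integral_sub eF
        (j1.const_mul ν), ← intervalIntegral.integral_add (eF.sub (j1.const_mul ν)) j3]
      refine intervalIntegral.integral_congr fun s _ => ?_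
      rw [inner_add_left, inner_sub_left, real_inner_smul_left]
    rw [← e2]
    refine tendsto_nhds_unique hleft (hlim.congr fun n => ?_)
    rw [e1 n]
  · intro t ht
    have := L.en A hν hF le_rfl ht.1 hs0
    rw [h0] at this
    rwa [intervalIntegral.integral_const_mul]
  · filter_upwards [L.aev T hT, ae_restrict_mem measurableSet_Ioc] with s hs hsm t ht
    exact L.en A hν hF hsm.1.le ht.1 (hs.mono_left L.le)

end

end Pool.Agent.J4H18.EX
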