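import Pool.Agent.J4H18.EX.A4
import Pool.Agent.H772R2.NSG.FinalH

/-!
Existence of Leray-Hopf solutions with the strong energy inequality on the half line.
-/

set_option autoImplicit false
set_option linter.unusedSectionVars false
set_option linter.unusedVariables false

open MeasureTheory Set Filter Topology
open scoped InnerProductSpace ENNReal

namespace Pool.Agent.J4H18.EX

open H772R2.NSR (Frame prim_cont grad_unique m_tendsto rellich_W)
open H772R2.NSG (LH Bd cst1 cst2 lg lg_one_le lg_cont global_abs)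
open Pool.Agent.W795.HE (SE)

section

variable {H K : Type} [NormedAddCommGroup H] [InnerProductSpace ℝ H] [CompleteSpace H]
  [NormedAddCommGroup K] [InnerProductSpace ℝ K] [CompleteSpace K]
variable {W : Submodule ℝ (H × K)} {m : H → K} {C ν : ℝ} {F : ℝ → K} {x0 : H}

theorem m_cont (Fr : Frame W m C) {T : ℝ} {u : ℝ → H} {z : ℝ → K}
    (hm : ∀ t ∈ Icc 0 T, (u t, z t) ∈ W) (hu : ContinuousOn u (Icc 0 T))
    (hz : ContinuousOn z (Icc 0 T)) : ContinuousOn (fun t => m (u t)) (Icc 0 T) := by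
  obtain ⟨R, hR⟩ := (isCompact_Icc (a := (0 : ℝ)) (b := T)).exists_bound_of_continuousOn hz
  intro t ht
  refine m_tendsto Fr (z := fun s => z s) (s1 := R) (hR t ht) (hm t ht) ?_ ?_ (hu t ht)
  · filter_upwards [self_mem_nhdsWithin] with s hs using hR s hs
  · filter_upwards [self_mem_nhdsWithin] with s hs using hm s hs

/-- the square integral of the additional viscosity -/
theorem lam_sq {lam : ℝ → ℝ} {T ε : ℝ} (hT : 0 < T) (hε : 0 < ε) (hc : ContinuousOn lam (Icc 0 T))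
    (h0 : ∀ t, 0 ≤ lam t) (h1 : volume {t | 0 ≤ t ∧ lam t ≠ 0} ≤ ENNReal.ofReal ε)
    (h2 : cst1 T lam ≤ ε) : ∫ s in (0 : ℝ)..T, lam s ^ 2 ≤ 2 * ε := by
  have hlg : ContinuousOn (fun s => lg (lam s)) (Icc 0 T) :=
    lg_cont.comp hc fun s _ => h0 s
  have hi5 : IntegrableOn (fun s => lam s ^ 5 * lg (lam s)) (Ioc 0 T) :=
    (((hc.pow 5).mul hlg).integrableOn_Icc).mono_set Ioc_subset_Icc_self
  have hi2 : IntegrableOn (fun s => lam s ^ 2) (Ioc 0 T) :=
    ((hc.pow 2).integrableOn_Icc).mono_set Ioc_subset_Icc_self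
  have hn5 : ∀ s, 0 ≤ lam s ^ 5 * lg (lam s) := fun s =>
    mul_nonneg (pow_nonneg (h0 s) 5) (zero_le_one.trans (lg_one_le (h0 s)))
  have key : ENNReal.ofReal (∫ s in Ioc 0 T, lam s ^ 2) ≤ ENNReal.ofReal (2 * ε) := by
    rw [ofReal_integral_eq_lintegral_ofReal hi2 (Eventually.of_forall fun s => by positivity)]
    calc ∫⁻ s in Ioc 0 T, ENNReal.ofReal (lam s ^ 2)
        ≤ ∫⁻ s in Ioc 0 T, ({t | 0 ≤ t ∧ lam t ≠ 0}.indicator (fun _ => (1 : ℝ≥0∞)) s +
          ENNReal.ofReal (lam s ^ 5 * lg (lam s))) := by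
          refine setLIntegral_mono' measurableSet_Ioc fun s hs => ?_
          by_cases hl : lam s = 0
          · rw [hl]; simp
          · rw [indicator_of_mem (show s ∈ {t | 0 ≤ t ∧ lam t ≠ 0} from ⟨hs.1.le, hl⟩),
              ← ENNReal.ofReal_one, ← ENNReal.ofReal_add zero_le_one (hn5 s)]
            refine ENNReal.ofReal_le_ofReal ?_
            have a1 := h0 s
            have a2 := lg_one_le a1
            have a3 : lam s ^ 5 * 1 ≤ lam s ^ 5 * lg (lam s) := by gcongr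
            rcases le_total (lam s) 1 with h | h
            · have : lam s ^ 2 ≤ 1 := pow_le_one₀ a1 h
              have : 0 ≤ lam s ^ 5 := by positivity
              linarith
            · have : lam s ^ 2 ≤ lam s ^ 5 := pow_le_pow_right₀ h (by norm_num)
              linarith
      _ = (∫⁻ s in Ioc 0 T, {t | 0 ≤ t ∧ lam t ≠ 0}.indicator (fun _ => (1 : ℝ≥0∞)) s) +
          ∫⁻ s in Ioc 0 T, ENNReal.ofReal (lam s ^ 5 * lg (lam s)) :=
          lintegral_add_right' _ hi5.aestronglyMeasurable.aemeasurable.ennreal_ofReal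
      _ ≤ ENNReal.ofReal ε + ENNReal.ofReal ε := by
          refine add_le_add ?_ ?_
          · refine (lintegral_indicator_const_le _ _).trans ?_
            rw [one_mul]
            exact (Measure.restrict_apply_le _ _).trans h1
          · rw [← ofReal_integral_eq_lintegral_ofReal hi5 (Eventually.of_forall hn5)]
            refine ENNReal.ofReal_le_ofReal ?_
            unfold cst1 at h2
            rwa [intervalIntegral.integral_of_le hT.le] at h2
      _ = ENNReal.ofReal (2 * ε) := by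
          rw [← ENNReal.ofReal_add hε.le hε.le, two_mul]
  rw [intervalIntegral.integral_of_le hT.le]
  exact (ENNReal.ofReal_le_ofReal_iff (by positivity)).1 key

/-- approximations from the controlled solutions -/
theorem exists_app (Fr : Frame W m C)
    (h : ∀ ε : ℝ, 0 < ε → ∃ (u u1 : ℝ → H) (z z1 g1 : ℝ → K) (lam : ℝ → ℝ), u 0 = x0 ∧
      (∀ t, 0 ≤ lam t) ∧ lam 0 = 0 ∧ volume {t | 0 ≤ t ∧ lam t ≠ 0} ≤ ENNReal.ofReal ε ∧
      ∀ T, 0 < T → Bd W m ν T F u u1 z z1 g1 lam ∧ cst1 T lam ≤ ε ∧ cst2 T lam z ≤ ε) :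
    ∃ (u : ℕ → ℝ → H) (z : ℕ → ℝ → K) (lam : ℕ → ℝ → ℝ) (e : ℕ → ℝ),
      App W m ν F x0 u z lam e := by
  have hpos : ∀ k : ℕ, 0 < (1 : ℝ) / (2 * ((k : ℝ) + 1)) := fun k => by positivity
  choose u u1 z z1 g1 lam a1 a2 a3 a4 a5 using fun k : ℕ => h _ (hpos k)
  have hM : ∀ T : ℝ, T ≤ max T 1 ∧ 0 < max T 1 := fun T =>
    ⟨le_max_left _ _, lt_max_of_lt_right one_pos⟩
  have hB : ∀ k T, Bd W m ν (max T 1) F (u k) (u1 k) (z k) (z1 k) (g1 k) (lam k) := fun k T =>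
    (a5 k _ (hM T).2).1
  have huc : ∀ k T, ContinuousOn (u k) (Icc 0 (max T 1)) := fun k T =>
    prim_cont (hB k T).u1m (hB k T).pu
  have hzc : ∀ k T, ContinuousOn (z k) (Icc 0 (max T 1)) := fun k T =>
    prim_cont (hB k T).z1m (hB k T).pz
  have hsub : ∀ T : ℝ, Icc 0 T ⊆ Icc 0 (max T 1) := fun T => Icc_subset_Icc_right (hM T).1
  refine ⟨u, z, lam, fun k => 1 / ((k : ℝ) + 1), ?_, ?_, a1, ?_, fun k T => (huc k T).mono (hsub T),
    fun k T => (hzc k T).mono (hsub T), fun k T =>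
      (m_cont Fr (hB k T).mem (huc k T) (hzc k T)).mono (hsub T),
    fun k T => (hB k T).lc.mono (hsub T), a2, ?_, ?_, ?_⟩
  · intro k
    rw [div_le_one (by positivity)]
    have : (0 : ℝ) ≤ k := by positivity
    linarith
  · exact tendsto_one_div_add_atTop_nhds_zero_nat
  · intro k t ht
    exact (hB k t).mem t (hsub t ⟨ht, le_rfl⟩)
  · intro k T hT
    obtain ⟨B, c1, c2⟩ := a5 k T hT
    have := lam_sq hT (hpos k) B.lc (a2 k) (a4 k) c1
    refine this.trans (le_of_eq ?_)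
    field_simp
  · intro k p hp t ht
    have := (hB k t).weak p hp t (hsub t ⟨ht, le_rfl⟩)
    rwa [a1 k] at this
  · intro k t ht
    have := (hB k t).energy t (hsub t ⟨ht, le_rfl⟩)
    rwa [a1 k] at this

/-- existence, abstract form -/
theorem exists_abs (Fr : Frame W m C) (hν : 0 < ν) (hF : ∀ T, ContinuousOn F (Icc 0 T))
    (hcomp : ∀ R : ℝ, TotallyBounded {v : H | ∃ z, (v, z) ∈ W ∧ ‖z‖ ≤ R})
    (hmm : ∀ (μ : Measure ℝ) (v : ℝ → H) (y : ℝ → K), AEStronglyMeasurable v μ →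
      AEStronglyMeasurable y μ → (∀ᵐ s ∂μ, (v s, y s) ∈ W) →
      AEStronglyMeasurable (fun s => m (v s)) μ)
    (h : ∀ ε : ℝ, 0 < ε → ∃ (u u1 : ℝ → H) (z z1 g1 : ℝ → K) (lam : ℝ → ℝ), u 0 = x0 ∧
      (∀ t, 0 ≤ lam t) ∧ lam 0 = 0 ∧ volume {t | 0 ≤ t ∧ lam t ≠ 0} ≤ ENNReal.ofReal ε ∧
      ∀ T, 0 < T → Bd W m ν T F u u1 z z1 g1 lam ∧ cst1 T lam ≤ ε ∧ cst2 T lam z ≤ ε) :
    ∃ (v : ℝ → H) (y : ℝ → K), ∀ T, 0 < T → LH W m T (fun _ => ν) F x0 v y ∧ SE ν T F v y := by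
  obtain ⟨u, z, lam, e, A⟩ := exists_app Fr h
  obtain ⟨φ, hφ, hfast⟩ := A.extract Fr hν hF hcomp
  have A' := A.sub hφ
  obtain ⟨v, y, L⟩ := A'.lim Fr hν hF hfast
  exact ⟨v, y, fun T hT => L.fin A' Fr hν hF hmm hT⟩

end

open H772R2.NS H772R2.NS.Pub H772R2.NSR H772R2.NSG

/-- existence of a global Leray-Hopf solution with the strong energy inequality -/
theorem exists_mid {Ω : Set E3} (hΩ : IsOpen Ω) (hb : Bornology.IsBounded Ω) {ν : ℝ}
    (hν : 0 < ν) {u0 : L2V Ω} {z0 : L2M Ω} (h0 : (u0, z0) ∈ graphW Ω)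
    {F F' : ℝ → L2M Ω} (hF1 : ∀ T, 0 < T → MemLp F' 2 (volume.restrict (Ioc 0 T)))
    (hF : ∀ a b, 0 ≤ a → a ≤ b → F b - F a = ∫ s in a..b, F' s)
    (hc : ∃ h : L2V Ω, ∀ φ : E3 → E3, H772R2.NS.IsTest Ω φ →
      Pub.rhs (Ω := Ω) ν u0 z0 (F 0) φ
        = ∫ x in (show Set R3 from Ω), ⟪L2.fn (Ω := Ω) (E := R3) h x, (φ : R3 → R3) x⟫_ℝ) :
    ∃ (v : ℝ → L2V Ω) (y : ℝ → L2M Ω), ∀ T, 0 < T →
      LH (graphW Ω) (tensL (Ω := Ω)) T (fun _ => ν) F u0 v y ∧ SE ν T F v y := by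
  obtain ⟨C, Fr⟩ := exists_frame hΩ hb
  have hFc : ∀ T, ContinuousOn F (Icc 0 T) := by
    intro T
    have h1 : ContinuousOn F (Icc 0 (max T 1)) :=
      prim_cont (hF1 _ (lt_max_of_lt_right one_pos)) (fun a b ha hab _ => hF a b ha hab)
    exact h1.mono (Icc_subset_Icc_right (le_max_left _ _))
  exact exists_abs Fr hν hFc (rellich_W hΩ hb)
    (fun μ v y hv hy hm => aestronglyMeasurable_tensL hΩ.measurableSet hv hy hm)
    (fun ε hε => glob_mid hΩ hb hν h0 hF1 hF hc hε)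

end Pool.Agent.J4H18.EX
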