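import Pool.Agent.J4H18.EX.A3
import Pool.Agent.W701.HE.Reg

/-!
Regularity: limits of strong solutions with uniform bounds.
-/

set_option autoImplicit false
set_option linter.unusedSectionVars false
set_option linter.unusedVariables false

open MeasureTheory Set Filter Topology
open scoped InnerProductSpace ENNReal

namespace Pool.Agent.J4H18.EX

open H772R2.NSR (Frame prim_cont grad_unique exists_weak_limit mem_of_weak_limit)

section

variable {H K : Type} [NormedAddCommGroup H] [InnerProductSpace ℝ H] [CompleteSpace H]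
  [NormedAddCommGroup K] [InnerProductSpace ℝ K] [CompleteSpace K]

/-- `u` is regular on `[a,b]` with gradient `z` and time derivative `u1` -/
structure SOn (W : Submodule ℝ (H × K)) (u : ℝ → H) (z : ℝ → K) (a b : ℝ) (u1 : ℝ → H)
    (z1 : ℝ → K) : Prop where
  mem : ∀ t ∈ Icc a b, (u t, z t) ∈ W
  mem1 : ∀ᵐ s ∂(volume.restrict (Ioc a b)), (u1 s, z1 s) ∈ W
  bd : ∃ c, ∀ᵐ s ∂(volume.restrict (Ioc a b)), ‖u1 s‖ ≤ c
  u1m : MemLp u1 2 (volume.restrict (Ioc a b))
  z1m : MemLp z1 2 (volume.restrict (Ioc a b))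
  pu : ∀ s t, a ≤ s → s ≤ t → t ≤ b → u t - u s = ∫ r in s..t, u1 r
  pz : ∀ s t, a ≤ s → s ≤ t → t ≤ b → z t - z s = ∫ r in s..t, z1 r

theorem fin_Ioc' (a b : ℝ) : IsFiniteMeasure (volume.restrict (Ioc a b) : Measure ℝ) := by
  rw [isFiniteMeasure_restrict]; simp

/-- primitives in the weak limit -/
theorem prim_weak {Y : Type} [NormedAddCommGroup Y] [InnerProductSpace ℝ Y] [CompleteSpace Y]
    {U : Ultrafilter ℕ} {a b : ℝ} {v v1 : ℕ → ℝ → Y} {u u1 : ℝ → Y}
    (hv1 : ∀ n, MemLp (v1 n) 2 (volume.restrict (Ioc a b)))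
    (hu1 : MemLp u1 2 (volume.restrict (Ioc a b)))
    (pu : ∀ n, ∀ s t, a ≤ s → s ≤ t → t ≤ b → v n t - v n s = ∫ r in s..t, v1 n r)
    (hw : ∀ t ∈ Icc a b, ∀ h : Y, Tendsto (fun n => ⟪v n t, h⟫_ℝ) U (𝓝 ⟪u t, h⟫_ℝ))
    (hw1 : ∀ g, MemLp g 2 (volume.restrict (Ioc a b)) →
      Tendsto (fun n => ∫ s in Ioc a b, ⟪v1 n s, g s⟫_ℝ) U (𝓝 (∫ s in Ioc a b, ⟪u1 s, g s⟫_ℝ))) :
    ∀ s t, a ≤ s → s ≤ t → t ≤ b → u t - u s = ∫ r in s..t, u1 r := by
  intro s t hs hst ht
  have := fin_Ioc' a b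
  have hsub : Ioc s t ⊆ Ioc a b := Ioc_subset_Ioc hs ht
  refine ext_inner_right ℝ fun h => ?_
  have key : ∀ f : ℝ → Y, MemLp f 2 (volume.restrict (Ioc a b)) →
      ∫ r in Ioc a b, ⟪f r, (Ioc s t).indicator (fun _ => h) r⟫_ℝ =
      ⟪∫ r in s..t, f r, h⟫_ℝ := by
    intro f hf
    have hfi : IntegrableOn f (Ioc s t) := by
      have h1 : Integrable f (volume.restrict (Ioc a b)) := hf.integrable (by norm_num)
      exact h1.mono_measure (Measure.restrict_mono hsub le_rfl)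
    have e1 : (fun r => ⟪f r, (Ioc s t).indicator (fun _ => h) r⟫_ℝ) =
        (Ioc s t).indicator (fun r => ⟪f r, h⟫_ℝ) := by
      funext r
      by_cases hr : r ∈ Ioc s t
      · simp [indicator_of_mem hr]
      · simp [indicator_of_notMem hr]
    rw [e1, setIntegral_indicator measurableSet_Ioc, inter_eq_self_of_subset_right hsub,
      intervalIntegral.integral_of_le hst, real_inner_comm, ← integral_inner (𝕜 := ℝ) hfi h]
    exact integral_congr_ae (Eventually.of_forall fun r => real_inner_comm _ _)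
  have hg : MemLp ((Ioc s t).indicator fun _ : ℝ => h) 2 (volume.restrict (Ioc a b)) :=
    (memLp_const h).indicator measurableSet_Ioc
  have l1 := hw1 _ hg
  rw [key u1 hu1] at l1
  have l2 : Tendsto (fun n => ⟪v n t - v n s, h⟫_ℝ) U (𝓝 ⟪∫ r in s..t, u1 r, h⟫_ℝ) := by
    refine l1.congr fun n => ?_
    rw [key _ (hv1 n), pu n s t hs hst ht]
  have l3 : Tendsto (fun n => ⟪v n t - v n s, h⟫_ℝ) U (𝓝 ⟪u t - u s, h⟫_ℝ) := by
    have := (hw t ⟨hs.trans hst, ht⟩ h).sub (hw s ⟨hs, hst.trans ht⟩ h)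
    rw [← inner_sub_left] at this
    refine this.congr fun n => ?_
    rw [inner_sub_left]
  exact tendsto_nhds_unique l3 l2

/-- derivative of a primitive -/
theorem ae_deriv_ab {Y : Type} [NormedAddCommGroup Y] [InnerProductSpace ℝ Y] [CompleteSpace Y]
    {a b : ℝ} (hab : a < b) {g D : ℝ → Y} (hD : IntervalIntegrable D volume a b)
    (h : ∀ s t, a ≤ s → s ≤ t → t ≤ b → g t - g s = ∫ r in s..t, D r) :
    ∀ᵐ s ∂(volume.restrict (Ioc a b)), HasDerivAt g (D s) s := by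
  rw [ae_restrict_iff' measurableSet_Ioc]
  have hne : ∀ᵐ s : ℝ, s ≠ b := by simp [ae_iff, measure_singleton]
  filter_upwards [hD.ae_hasDerivAt_integral, hne] with s hs hsT hsm
  have hs' : s ∈ Ioo a b := ⟨hsm.1, lt_of_le_of_ne hsm.2 hsT⟩
  have h1 := hs (by rw [uIcc_of_le hab.le]; exact Ioc_subset_Icc_self hsm) a
    (by rw [uIcc_of_le hab.le]; exact ⟨le_rfl, hab.le⟩)
  have h2 : HasDerivAt (fun x => g a + ∫ t in a..x, D t) (D s) s := h1.const_add (g a)
  refine h2.congr_of_eventuallyEq ?_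
  filter_upwards [Icc_mem_nhds hs'.1 hs'.2] with x hx
  rw [← h a x le_rfl hx.1 hx.2]
  abel

/-- limits of regular functions with uniform bounds -/
theorem lim_H1 {W : Submodule ℝ (H × K)} (hW : IsClosed (W : Set (H × K))) {a b : ℝ}
    (hab : a < b) {v v1 : ℕ → ℝ → H} {y y1 : ℕ → ℝ → K} {u : ℝ → H} {Z R M : ℝ} (hR0 : 0 ≤ R)
    (hS : ∀ n, SOn W (v n) (y n) a b (v1 n) (y1 n))
    (hyZ : ∀ n, ∀ t ∈ Icc a b, ‖y n t‖ ≤ Z)
    (hbd : ∀ n, ∀ᵐ s ∂(volume.restrict (Ioc a b)), ‖v1 n s‖ ≤ R)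
    (hB : ∀ n, ∫ s in Ioc a b, ‖y1 n s‖ ^ 2 ≤ M)
    (hlim : ∀ t ∈ Icc a b, Tendsto (fun n => v n t) atTop (𝓝 (u t))) :
    ∃ (ζ : ℝ → K) (u1 : ℝ → H) (ζ1 : ℝ → K), SOn W u ζ a b u1 ζ1 := by
  have := fin_Ioc' a b
  have hU := Nat.hyperfilter_le_atTop
  -- the gradient
  have hw : ∀ t : ℝ, ∃ ζ : K, t ∈ Icc a b → (u t, ζ) ∈ W ∧ ∀ h : K,
      Tendsto (fun k => ⟪y k t, h⟫_ℝ) (hyperfilter ℕ) (𝓝 ⟪ζ, h⟫_ℝ) := by
    intro t
    by_cases ht : t ∈ Icc a b
    · obtain ⟨ζ, h1, h2⟩ := exists_weak_limit (hyperfilter ℕ) (fun k => y k t) Z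
        (Eventually.of_forall fun k => hyZ k t ht)
      refine ⟨ζ, fun _ => ⟨?_, h2⟩⟩
      exact mem_of_weak_limit W hW (hyperfilter ℕ : Filter ℕ) (fun n => v n t) (fun n => y n t)
        (u t) ζ (Eventually.of_forall fun n => (hS n).mem t ht)
        (fun h => ((hlim t ht).mono_left hU).inner tendsto_const_nhds) h2
    · exact ⟨0, fun h => absurd h ht⟩
  choose ζ hζ using hw
  -- the derivatives
  have hv1b : ∀ n, ∫ s in Ioc a b, ‖v1 n s‖ ^ 2 ≤ R ^ 2 * (b - a) := by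
    intro n
    have h1 : Integrable (fun s => ‖v1 n s‖ ^ 2) (volume.restrict (Ioc a b)) :=
      (memLp_two_iff_integrable_sq_norm (hS n).u1m.aestronglyMeasurable).mp (hS n).u1m
    calc ∫ s in Ioc a b, ‖v1 n s‖ ^ 2 ≤ ∫ s in Ioc a b, R ^ 2 := by
          refine integral_mono_ae h1 (integrable_const _) ?_
          filter_upwards [hbd n] with s hs
          gcongr
      _ = R ^ 2 * (b - a) := by
          rw [setIntegral_const, smul_eq_mul, Real.volume_real_Ioc_of_le hab.le]; ring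
  obtain ⟨u1, hu1, wu1⟩ := weak_L2 (μ := volume.restrict (Ioc a b)) (hyperfilter ℕ)
    (fun n => (hS n).u1m) hv1b
  obtain ⟨ζ1, hζ1, wζ1⟩ := weak_L2 (μ := volume.restrict (Ioc a b)) (hyperfilter ℕ)
    (fun n => (hS n).z1m) hB
  have pu := prim_weak (U := hyperfilter ℕ) (fun n => (hS n).u1m) hu1 (fun n => (hS n).pu)
    (fun t ht h => ((hlim t ht).mono_left hU).inner tendsto_const_nhds) wu1
  have pz := prim_weak (U := hyperfilter ℕ) (fun n => (hS n).z1m) hζ1 (fun n => (hS n).pz)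
    (fun t ht => (hζ t ht).2) wζ1
  refine ⟨ζ, u1, ζ1, fun t ht => (hζ t ht).1, ?_, ⟨R, ?_⟩, hu1, hζ1, pu, pz⟩
  · exact weak_mem hW (hyperfilter ℕ) (fun n => (hS n).u1m) (fun n => (hS n).z1m)
      (fun n => (hS n).mem1) hu1 hζ1 wu1 wζ1
  · -- the Lipschitz bound
    have hii : ∀ n, IntervalIntegrable (v1 n) volume a b := fun n => by
      rw [intervalIntegrable_iff_integrableOn_Ioc_of_le hab.le]
      exact (hS n).u1m.integrable (by norm_num)
    have hlipn : ∀ n, ∀ s t, a ≤ s → s ≤ t → t ≤ b → ‖v n t - v n s‖ ≤ R * (t - s) := by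
      intro n s t hs hst ht
      rw [(hS n).pu s t hs hst ht]
      have h1 : ∀ᵐ r, r ∈ Ioc s t → ‖v1 n r‖ ≤ R := by
        have h2 := (ae_restrict_iff' measurableSet_Ioc).1 (hbd n)
        filter_upwards [h2] with r hr hrm
        exact hr (Ioc_subset_Ioc hs ht hrm)
      have h2 := intervalIntegral.norm_integral_le_of_norm_le_const_ae (a := s) (b := t)
        (f := v1 n) (C := R) (by rwa [uIoc_of_le hst])
      rwa [abs_of_nonneg (by linarith)] at h2
    have hlip : ∀ s t, a ≤ s → s ≤ t → t ≤ b → ‖u t - u s‖ ≤ R * (t - s) := by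
      intro s t hs hst ht
      exact le_of_tendsto ((hlim t ⟨hs.trans hst, ht⟩).sub (hlim s ⟨hs, hst.trans ht⟩)).norm
        (Eventually.of_forall fun n => hlipn n s t hs hst ht)
    have hiu : IntervalIntegrable u1 volume a b := by
      rw [intervalIntegrable_iff_integrableOn_Ioc_of_le hab.le]
      exact hu1.integrable (by norm_num)
    have hne : ∀ᵐ s ∂(volume.restrict (Ioc a b)), s ≠ b := by
      refine ae_restrict_of_ae ?_
      simp [ae_iff, measure_singleton]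
    filter_upwards [ae_deriv_ab hab hiu pu, ae_restrict_mem measurableSet_Ioc, hne] with s h1 h2 h3
    have hs : s ∈ Ioo a b := ⟨h2.1, lt_of_le_of_ne h2.2 h3⟩
    have h6 := (hasDerivAt_iff_tendsto_slope.mp h1).norm
    refine le_of_tendsto h6 ?_
    have h7 : ∀ᶠ t in 𝓝[≠] s, t ∈ Icc a b := mem_nhdsWithin_of_mem_nhds (Icc_mem_nhds hs.1 hs.2)
    filter_upwards [h7, self_mem_nhdsWithin] with t ht hts
    have hts' : t ≠ s := hts
    have hpos : 0 < |t - s| := abs_pos.mpr (sub_ne_zero.mpr hts')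
    rw [slope_def_module, norm_smul, norm_inv, Real.norm_eq_abs, inv_mul_le_iff₀ hpos]
    rcases le_total s t with h | h
    · rw [abs_of_nonneg (by linarith)]
      have := hlip s t hs.1.le h ht.2
      linarith
    · rw [abs_of_nonpos (by linarith), norm_sub_rev]
      have := hlip t s ht.1 h hs.2.le
      linarith

end

end Pool.Agent.J4H18.EX
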