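import Pool.Agent.J4H18.EX.B2
import Pool.Agent.W405.HE.Cmp
import Pool.Agent.W933.HE.ShiftCont

/-!
Regularity: short time regularity of Leray-Hopf solutions, with the time derivative.
-/

set_option autoImplicit false
set_option linter.unusedSectionVars false
set_option linter.unusedVariables false

open MeasureTheory Set Filter Topology
open scoped InnerProductSpace ENNReal

namespace Pool.Agent.J4H18.EX

open H772R2.NSR (Frame grad_unique prim_cont exists_weak_limit mem_of_weak_limit)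
open H772R2.NSG (LH dft St Coef gap stc stab mem_cont stc_nonneg)
open Pool.Agent.W795.TQ (Str FH Univ)

/-- a bound of a primitive almost everywhere holds at the end -/
theorem at_end {f : ℝ → ℝ} {T ν M : ℝ} (hT : 0 < T) (hf : IntervalIntegrable f volume 0 T)
    (h : ∀ᵐ t ∂(volume.restrict (Ioc 0 T)), ν * ∫ s in (0 : ℝ)..t, f s ≤ M) :
    ν * ∫ s in (0 : ℝ)..T, f s ≤ M := by
  have hfr := Pool.Agent.W933.HE.freq h (t := T) ⟨hT, le_rfl⟩
  have hc : ContinuousOn (fun b => ∫ x in (0 : ℝ)..b, f x) (uIcc 0 T) :=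
    intervalIntegral.continuousOn_primitive_interval' hf left_mem_uIcc
  rw [uIcc_of_le hT.le] at hc
  have h1 : Tendsto (fun b => ν * ∫ x in (0 : ℝ)..b, f x) (𝓝[<] T)
      (𝓝 (ν * ∫ x in (0 : ℝ)..T, f x)) := by
    have h2 := ((hc T ⟨hT.le, le_rfl⟩).mono Ioo_subset_Icc_self).tendsto.const_mul ν
    rwa [nhdsWithin_Ioo_eq_nhdsLT hT] at h2
  by_contra hcon
  push Not at hcon
  obtain ⟨s, hs1, hs2⟩ := (hfr.and_eventually (h1.eventually (lt_mem_nhds hcon))).exists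
  exact absurd hs1.2 (not_le.2 hs2)

theorem reg (c : ℝ) (hc : 0 < c) : ∃ ε1 : ℝ, 0 < ε1 ∧
    ∀ (H K : Type) [NormedAddCommGroup H] [InnerProductSpace ℝ H] [CompleteSpace H]
    [NormedAddCommGroup K] [InnerProductSpace ℝ K] [CompleteSpace K]
    (W : Submodule ℝ (H × K)) (m : H → K) (C ν T Φ : ℝ) (F F1 : ℝ → K) (x0 : H) (z0 : K)
    (u : ℝ → H) (z : ℝ → K), Frame W m C → Univ W m c →
    (∀ R : ℝ, TotallyBounded {v : H | ∃ z, (v, z) ∈ W ∧ ‖z‖ ≤ R}) →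
    0 < ν → 0 < T → FH T F F1 → 0 ≤ Φ → (∀ t ∈ Icc 0 T, ‖F t‖ ≤ Φ) → (x0, z0) ∈ W →
    LH W m T (fun _ => ν) F x0 u z →
    (‖z0‖ ^ 2 + (Φ ^ 2 + T * ∫ s in (0 : ℝ)..T, ‖F1 s‖ ^ 2) / ν ^ 2) * Real.sqrt T
      ≤ ε1 * ν ^ (3 / 2 : ℝ) →
    ∀ a b, 0 < a → a < b → b ≤ T →
      ∃ (ζ : ℝ → K) (u1 : ℝ → H) (ζ1 : ℝ → K), SOn W u ζ a b u1 ζ1 := by
  obtain ⟨C1, hC1, hCmp⟩ := Pool.Agent.W405.HE.Cmp.proof c hc
  obtain ⟨ε, C7, hε, hC7, hOd⟩ := Pool.Agent.W347.TQ.proof_ode c hc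
  refine ⟨ε / (C1 + 1), by positivity, ?_⟩
  intro H K _ _ _ _ _ _ W m C ν T Φ F F1 x0 z0 u z Fr Un hcomp hν hT hF hΦ0 hΦ h0 L hsm
  have hFc : ContinuousOn F (Icc 0 T) := prim_cont hF.memLp hF.prim
  have hF1i : IntegrableOn (fun s => ‖F1 s‖ ^ 2) (Ioc 0 T) :=
    (memLp_two_iff_integrable_sq_norm hF.memLp.aestronglyMeasurable).mp hF.memLp
  set G : ℝ := ∫ s in (0 : ℝ)..T, ‖F1 s‖ ^ 2 with hG
  have hG0 : 0 ≤ G := intervalIntegral.integral_nonneg hT.le fun s _ => by positivity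
  have hGle : ∀ a b : ℝ, 0 ≤ a → a ≤ b → b ≤ T → ∫ s in a..b, ‖F1 s‖ ^ 2 ≤ G := by
    intro a b ha hab hb
    rw [hG, intervalIntegral.integral_of_le hab, intervalIntegral.integral_of_le hT.le]
    exact setIntegral_mono_set hF1i (Eventually.of_forall fun s => by positivity)
      (Ioc_subset_Ioc ha hb).eventuallyLE
  have hFH : ∀ τ ≤ T, FH τ F F1 := fun τ hτ =>
    ⟨hF.memLp.mono_measure (Measure.restrict_mono (Ioc_subset_Ioc_right hτ) le_rfl),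
      fun a b ha hab hb => hF.prim a b ha hab (hb.trans hτ)⟩
  set L' : ℝ := (Φ ^ 2 + T * G) / ν ^ 2 with hL'
  have hL'0 : 0 ≤ L' := by positivity
  set X : ℝ := ‖z0‖ ^ 2 + L' with hX
  have hX0 : 0 ≤ X := by positivity
  have hz0X : ‖z0‖ ^ 2 + ‖F 0‖ ^ 2 / ν ^ 2 ≤ X := by
    have h1 : ‖F 0‖ ≤ Φ := hΦ 0 ⟨le_rfl, hT.le⟩
    have h2 : ‖F 0‖ ^ 2 / ν ^ 2 ≤ L' := by
      rw [hL']
      have h3 : ‖F 0‖ ^ 2 ≤ Φ ^ 2 := by gcongr
      have h4 : 0 ≤ T * G := by positivity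
      gcongr
      linarith
    linarith
  -- strong solutions with a uniform bound
  have hstr : ∀ (x g : H) (ζ : K), (x, ζ) ∈ W →
      (∀ p ∈ W, ⟪F 0 - ν • ζ + m x, p.2⟫_ℝ = ⟪g, p.1⟫_ℝ) →
      ‖ζ‖ ^ 2 ≤ C1 * (‖z0‖ ^ 2 + ‖F 0‖ ^ 2 / ν ^ 2) →
      ∃ (v v1 : ℝ → H) (y y1 : ℝ → K), Str W m ν T F v v1 y y1 ∧ v 0 = x ∧
        ∀ t ∈ Icc 0 T, ‖y t‖ ^ 2 ≤ C7 * (C1 + 1) * X := by
    intro x g ζ hxζ hg hζ
    have hζX : ‖ζ‖ ^ 2 ≤ C1 * X := hζ.trans (by gcongr)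
    have hζL : ‖ζ‖ ^ 2 + L' ≤ (C1 + 1) * X := by
      have : L' ≤ X := by
        have := sq_nonneg ‖z0‖
        linarith
      linarith
    set N : ℝ := Real.sqrt ((C7 + 1) * (C1 + 1) * X) + 1 with hN
    have hNs : (C7 + 1) * (C1 + 1) * X < N ^ 2 := by
      have h1 : 0 ≤ (C7 + 1) * (C1 + 1) * X := by positivity
      have h2 := Real.sq_sqrt h1
      have h3 := Real.sqrt_nonneg ((C7 + 1) * (C1 + 1) * X)
      rw [hN]
      nlinarith
    have hN0 : 0 ≤ N := by positivity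
    have hζN : ‖ζ‖ < N := by
      have h1 : ‖ζ‖ ^ 2 < N ^ 2 := by
        refine lt_of_le_of_lt (hζX.trans ?_) hNs
        have : 0 ≤ C7 * (C1 + 1) * X := by positivity
        nlinarith
      exact lt_of_pow_lt_pow_left₀ 2 hN0 h1
    obtain ⟨τ, v, v1, y, y1, k1, k2, k3, k4, k5⟩ := Pool.Agent.W52.TQ.proof_loc H K W m C ν T F F1
      x g ζ N Fr hcomp hν hT hF hxζ hg hζN
    have hy0 : y 0 = ζ := grad_unique Fr (by
      have := k3.mem 0 ⟨le_rfl, k1.le⟩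
      rwa [k4] at this) hxζ
    have hyc : ContinuousOn y (Icc 0 τ) := prim_cont k3.z1m k3.pz
    have hΦτ : ∀ t ∈ Icc 0 τ, ‖F t‖ ≤ Φ := fun t ht => hΦ t ⟨ht.1, ht.2.trans k2⟩
    have est1 := Pool.Agent.W503.TQ.proof_est1 H K W m C c ν τ F F1 v v1 y y1 Φ Fr Un hν k1
      (hFH τ k2) k3 hΦ0 hΦτ 0 ⟨le_rfl, k1.le⟩
    have est2 := Pool.Agent.W790.TQ.proof_est2 H K W m C c ν τ F F1 v v1 y y1 Fr Un hν k1
      (hFH τ k2) k3 0 ⟨le_rfl, k1⟩
    obtain ⟨A0, hA0⟩ := k3.bd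
    have hGle' := hGle 0 τ le_rfl k1.le k2
    have hfin := hOd ν 0 τ Φ G A0 (fun s => ‖v1 s‖) (fun s => ‖y1 s‖) (fun s => ‖F1 s‖)
      (fun s => ‖y s‖) hν k1 hΦ0 hG0 (fun t => norm_nonneg _) (fun t => norm_nonneg _)
      (fun t => norm_nonneg _) (fun t => norm_nonneg _) k3.u1m.norm
      k3.z1m.norm (hFH τ k2).memLp.norm hA0
      hyc.norm hGle'
      (fun t ht => est1 t ht) (by
        filter_upwards [est2] with t ht
        refine ht.trans ?_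
        have h3 : 2 / ν * ((τ - 0) * ∫ s in (0 : ℝ)..τ, ‖F1 s‖ ^ 2) ≤ 2 / ν * ((τ - 0) * G) := by
          have : 0 ≤ τ - 0 := by linarith
          gcongr
        linarith) (by
        rw [hy0]
        have h4 : (Φ ^ 2 + (τ - 0) * G) / ν ^ 2 ≤ L' := by
          rw [hL']
          gcongr
          linarith
        have h5 : Real.sqrt (τ - 0) ≤ Real.sqrt T := Real.sqrt_le_sqrt (by linarith)
        have h7 : 0 ≤ (Φ ^ 2 + (τ - 0) * G) / ν ^ 2 := by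
          have : 0 ≤ τ - 0 := by linarith
          positivity
        calc (‖ζ‖ ^ 2 + (Φ ^ 2 + (τ - 0) * G) / ν ^ 2) * Real.sqrt (τ - 0)
            ≤ (‖ζ‖ ^ 2 + L') * Real.sqrt T := by gcongr
          _ ≤ ((C1 + 1) * X) * Real.sqrt T := by gcongr
          _ = (C1 + 1) * (X * Real.sqrt T) := by ring
          _ ≤ (C1 + 1) * (ε / (C1 + 1) * ν ^ (3 / 2 : ℝ)) := by gcongr
          _ = ε * ν ^ (3 / 2 : ℝ) := by field_simp)
    have hbd : ∀ t ∈ Icc 0 τ, ‖y t‖ ^ 2 ≤ C7 * (C1 + 1) * X := by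
      intro t ht
      have h1 := hfin t ht
      rw [hy0] at h1
      have h4 : (Φ ^ 2 + (τ - 0) * G) / ν ^ 2 ≤ L' := by
        rw [hL']
        gcongr
        linarith
      calc ‖y t‖ ^ 2 ≤ C7 * (‖ζ‖ ^ 2 + (Φ ^ 2 + (τ - 0) * G) / ν ^ 2) := h1
        _ ≤ C7 * ((C1 + 1) * X) := by gcongr; linarith
        _ = C7 * (C1 + 1) * X := by ring
    have hτT : τ = T := by
      rcases k5 with k5 | k5
      · exact k5
      · exfalso
        have h1 := hbd τ ⟨k1.le, le_rfl⟩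
        have h2 : N ^ 2 ≤ ‖y τ‖ ^ 2 := by gcongr
        have h3 : C7 * (C1 + 1) * X ≤ (C7 + 1) * (C1 + 1) * X := by
          have : 0 ≤ (C1 + 1) * X := by positivity
          nlinarith
        linarith
    subst hτT
    exact ⟨v, v1, y, y1, k3, k4, hbd⟩
  have hseq : ∀ n : ℕ, ∃ (x : H) (v v1 : ℝ → H) (y y1 : ℝ → K), Str W m ν T F v v1 y y1 ∧
      v 0 = x ∧ (∀ t ∈ Icc 0 T, ‖y t‖ ^ 2 ≤ C7 * (C1 + 1) * X) ∧
      ‖x - x0‖ ≤ 1 / ((n : ℝ) + 1) := by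
    intro n
    obtain ⟨x, g, ζ, h1, h2, h3, h4⟩ := hCmp H K W m C ν (F 0) x0 z0 (1 / ((n : ℝ) + 1)) Fr Un hν
      h0 (by positivity)
    obtain ⟨v, v1, y, y1, h5, h6, h7⟩ := hstr x g ζ h1 h2 h4
    exact ⟨x, v, v1, y, y1, h5, h6, h7, h3⟩
  choose x v v1 y y1 hS hv0 hyb hx using hseq
  set Z : ℝ := Real.sqrt (C7 * (C1 + 1) * X) with hZ
  have hbound0 : 0 ≤ C7 * (C1 + 1) * X := by positivity
  have hyZ : ∀ n, ∀ t ∈ Icc 0 T, ‖y n t‖ ≤ Z := fun n t ht =>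
    Real.le_sqrt_of_sq_le (hyb n t ht)
  have hStr : ∀ n, St W m T (fun _ => ν) F (x n) (v n) (y n) (v1 n) (y1 n) Z := by
    intro n
    obtain ⟨Z', h1⟩ := Pool.Agent.W503.TQ.toSt hFc (hS n)
    rw [hv0 n] at h1
    exact ⟨h1.init, h1.mem, h1.u1i, h1.z1i, h1.pu, h1.pz, h1.mem1, h1.nc, h1.Fc, h1.weak,
      h1.energy, hyZ n⟩
  have Co : Coef ν T (fun _ => ν) F :=
    ⟨mem_cont continuousOn_const, Eventually.of_forall fun _ => le_rfl, mem_cont hFc⟩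
  have hst := fun n => stab Fr hν hT Co L (hStr n)
  have hgap : ∀ n, gap ν T Z (fun _ => ν) (fun _ => ν) F F x0 (x n) ≤
      (1 / ((n : ℝ) + 1)) ^ 2 / 2 := by
    intro n
    unfold gap
    have : ‖x0 - x n‖ ≤ 1 / ((n : ℝ) + 1) := by
      rw [norm_sub_rev]
      exact hx n
    have h1 : ‖x0 - x n‖ ^ 2 ≤ (1 / ((n : ℝ) + 1)) ^ 2 := by gcongr
    have h2 : ∫ s in Ioc 0 T, (2 / ν * ‖F s - F s‖ ^ 2 + 2 / ν * Z ^ 2 * (ν - ν) ^ 2) = 0 := by
      simp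
    rw [h2]
    linarith
  have hlim0 : Tendsto (fun n : ℕ => stc C ν T Z * ((1 / ((n : ℝ) + 1)) ^ 2 / 2)) atTop (𝓝 0) := by
    have h1 := ((tendsto_one_div_add_atTop_nhds_zero_nat (𝕜 := ℝ)).pow 2).div_const 2
    have h2 := h1.const_mul (stc C ν T Z)
    simpa using h2
  have hstc := stc_nonneg (C := C) hν hT (Z := Z)
  have hstle : ∀ n, stc C ν T Z * gap ν T Z (fun _ => ν) (fun _ => ν) F F x0 (x n) ≤
      stc C ν T Z * ((1 / ((n : ℝ) + 1)) ^ 2 / 2) := fun n =>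
    mul_le_mul_of_nonneg_left (hgap n) hstc
  have hlim : ∀ t ∈ Icc 0 T, Tendsto (fun n => v n t) atTop (𝓝 (u t)) := by
    intro t ht
    rw [tendsto_iff_norm_sub_tendsto_zero]
    have h1 : Tendsto (fun n => ‖v n t - u t‖ ^ 2) atTop (𝓝 0) := by
      refine squeeze_zero (fun n => by positivity) (fun n => ?_) hlim0
      rw [norm_sub_rev]
      exact ((hst n).1 t ht).trans (hstle n)
    have h3 := (Real.continuous_sqrt.tendsto 0).comp h1
    rw [Real.sqrt_zero] at h3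
    refine h3.congr (fun i => ?_)
    simp only [Function.comp]
    rw [Real.sqrt_sq (norm_nonneg _)]
  intro a b ha hab hb
  obtain ⟨M, hM0, hM⟩ := unif_est hc hν hT hΦ0 hG0 (Real.sqrt_nonneg (C7 * (C1 + 1) * X))
  have hest := fun n => hM H K W m C F F1 (v n) (v1 n) (y n) (y1 n) Fr Un hF hΦ le_rfl (hS n)
    (hyZ n)
  have hsubI : Icc a b ⊆ Icc 0 T := Icc_subset_Icc ha.le hb
  have hsub : Ioc a b ⊆ Ioc 0 T := Ioc_subset_Ioc ha.le hb
  have hmu : (volume.restrict (Ioc a b) : Measure ℝ) ≤ volume.restrict (Ioc 0 T) :=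
    Measure.restrict_mono hsub le_rfl
  have hSO : ∀ n, SOn W (v n) (y n) a b (v1 n) (y1 n) := by
    intro n
    obtain ⟨cb, hcb⟩ := (hS n).bd
    exact ⟨fun t ht => (hS n).mem t (hsubI ht), ae_mono hmu (hS n).mem1, ⟨cb, ae_mono hmu hcb⟩,
      (hS n).u1m.mono_measure hmu, (hS n).z1m.mono_measure hmu,
      fun s t h1 h2 h3 => (hS n).pu s t (ha.le.trans h1) h2 (h3.trans hb),
      fun s t h1 h2 h3 => (hS n).pz s t (ha.le.trans h1) h2 (h3.trans hb)⟩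
  have hiw : ∀ n, IntegrableOn (fun s => s * ‖y1 n s‖ ^ 2) (Ioc 0 T) := by
    intro n
    have h1 : IntegrableOn (fun s => ‖y1 n s‖ ^ 2) (Ioc 0 T) :=
      (memLp_two_iff_integrable_sq_norm (hS n).z1m.aestronglyMeasurable).mp (hS n).z1m
    refine (h1.const_mul T).mono' ?_ ?_
    · exact (continuous_id.aestronglyMeasurable).mul h1.aestronglyMeasurable
    · filter_upwards [ae_restrict_mem measurableSet_Ioc] with s hs
      rw [norm_mul, Real.norm_of_nonneg hs.1.le, Real.norm_of_nonneg (by positivity)]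
      exact mul_le_mul_of_nonneg_right hs.2 (by positivity)
  refine lim_H1 Fr.closedW hab (R := Real.sqrt (M / a)) (M := M / (ν * a))
    (Real.sqrt_nonneg _) hSO (fun n t ht => hyZ n t (hsubI ht)) (fun n => ?_) (fun n => ?_)
    (fun t ht => hlim t (hsubI ht))
  · filter_upwards [ae_mono hmu (hest n), ae_restrict_mem measurableSet_Ioc] with t h1 h2
    refine Real.le_sqrt_of_sq_le ?_
    rw [le_div_iff₀ ha]
    have h3 : 0 ≤ ν * ∫ s in (0 : ℝ)..t, s * ‖y1 n s‖ ^ 2 := by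
      have : 0 ≤ ∫ s in (0 : ℝ)..t, s * ‖y1 n s‖ ^ 2 :=
        intervalIntegral.integral_nonneg (ha.le.trans h2.1.le) fun s hs => by
          have := hs.1
          positivity
      positivity
    have h4 : a * ‖v1 n t‖ ^ 2 ≤ t * ‖v1 n t‖ ^ 2 :=
      mul_le_mul_of_nonneg_right h2.1.le (by positivity)
    linarith
  · -- the final time
    have h2 : ν * ∫ s in (0 : ℝ)..T, s * ‖y1 n s‖ ^ 2 ≤ M := by
      refine at_end hT ((intervalIntegrable_iff_integrableOn_Ioc_of_le hT.le).2 (hiw n)) ?_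
      filter_upwards [hest n, ae_restrict_mem measurableSet_Ioc] with t h1 h2
      have : 0 ≤ t * ‖v1 n t‖ ^ 2 := by
        have := h2.1.le
        positivity
      linarith
    have h3 : a * ∫ s in Ioc a b, ‖y1 n s‖ ^ 2 ≤ ∫ s in (0 : ℝ)..T, s * ‖y1 n s‖ ^ 2 := by
      have i1 : IntegrableOn (fun s => ‖y1 n s‖ ^ 2) (Ioc a b) :=
        (memLp_two_iff_integrable_sq_norm (hSO n).z1m.aestronglyMeasurable).mp (hSO n).z1m
      rw [← integral_const_mul, intervalIntegral.integral_of_le hT.le]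
      calc ∫ s in Ioc a b, a * ‖y1 n s‖ ^ 2 ≤ ∫ s in Ioc a b, s * ‖y1 n s‖ ^ 2 := by
            refine integral_mono_ae (i1.const_mul a) ((hiw n).mono_set hsub) ?_
            filter_upwards [ae_restrict_mem measurableSet_Ioc] with s hs
            exact mul_le_mul_of_nonneg_right hs.1.le (by positivity)
        _ ≤ ∫ s in Ioc 0 T, s * ‖y1 n s‖ ^ 2 := by
            refine setIntegral_mono_set (hiw n) ?_ hsub.eventuallyLE
            filter_upwards [ae_restrict_mem measurableSet_Ioc] with s hs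
            have := hs.1.le
            positivity
    rw [le_div_iff₀ (by positivity)]
    calc (∫ s in Ioc a b, ‖y1 n s‖ ^ 2) * (ν * a) = ν * (a * ∫ s in Ioc a b, ‖y1 n s‖ ^ 2) := by
          ring
      _ ≤ ν * ∫ s in (0 : ℝ)..T, s * ‖y1 n s‖ ^ 2 := by gcongr
      _ ≤ M := h2

end Pool.Agent.J4H18.EX
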