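import Pool.Agent.J4H18.EX.B3

/-!
Regularity: gluing of regular pieces, regularity near a regular time.
-/

set_option autoImplicit false
set_option linter.unusedSectionVars false
set_option linter.unusedVariables false

open MeasureTheory Set Filter Topology
open scoped InnerProductSpace ENNReal

namespace Pool.Agent.J4H18.EX

open H772R2.NSR (Frame grad_unique prim_cont exists_weak_limit mem_of_weak_limit)
open H772R2.NSG (LH)
open Pool.Agent.W795.TQ (Str FH Univ)
open Pool.Agent.W795.HE (SE)

section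

variable {H K : Type} [NormedAddCommGroup H] [InnerProductSpace ℝ H] [CompleteSpace H]
  [NormedAddCommGroup K] [InnerProductSpace ℝ K] [CompleteSpace K]
variable {W : Submodule ℝ (H × K)} {u : ℝ → H} {z : ℝ → K} {u1 u1' : ℝ → H} {z1 z1' : ℝ → K}
  {a b c : ℝ}

theorem SOn.mono (S : SOn W u z a b u1 z1) {a' b' : ℝ} (ha : a ≤ a') (hb : b' ≤ b) :
    SOn W u z a' b' u1 z1 := by
  have hmu : (volume.restrict (Ioc a' b') : Measure ℝ) ≤ volume.restrict (Ioc a b) :=
    Measure.restrict_mono (Ioc_subset_Ioc ha hb) le_rfl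
  obtain ⟨c, hc⟩ := S.bd
  exact ⟨fun t ht => S.mem t (Icc_subset_Icc ha hb ht), ae_mono hmu S.mem1, ⟨c, ae_mono hmu hc⟩,
    S.u1m.mono_measure hmu, S.z1m.mono_measure hmu,
    fun s t h1 h2 h3 => S.pu s t (ha.trans h1) h2 (h3.trans hb),
    fun s t h1 h2 h3 => S.pz s t (ha.trans h1) h2 (h3.trans hb)⟩

theorem SOn.point (h : (u a, z a) ∈ W) : SOn W u z a a (fun _ => 0) (fun _ => 0) := by
  refine ⟨fun t ht => ?_, ?_, ⟨0, ?_⟩, ?_, ?_, fun s t h1 h2 h3 => ?_, fun s t h1 h2 h3 => ?_⟩
  · have : t = a := le_antisymm ht.2 ht.1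
    rwa [this]
  · simp
  · simp
  · simp
  · simp
  · have e1 : s = a := le_antisymm (h2.trans h3) h1
    have e2 : t = a := le_antisymm h3 (h1.trans h2)
    rw [e1, e2]; simp
  · have e1 : s = a := le_antisymm (h2.trans h3) h1
    have e2 : t = a := le_antisymm h3 (h1.trans h2)
    rw [e1, e2]; simp

theorem glue_prim {Y : Type} [NormedAddCommGroup Y] [InnerProductSpace ℝ Y] [CompleteSpace Y]
    {g f f' : ℝ → Y} (hab : a ≤ b) (hbc : b ≤ c) (hf : IntervalIntegrable f volume a b)
    (hf' : IntervalIntegrable f' volume b c)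
    (p : ∀ s t, a ≤ s → s ≤ t → t ≤ b → g t - g s = ∫ r in s..t, f r)
    (p' : ∀ s t, b ≤ s → s ≤ t → t ≤ c → g t - g s = ∫ r in s..t, f' r) :
    ∀ s t, a ≤ s → s ≤ t → t ≤ c →
      g t - g s = ∫ r in s..t, (if r ≤ b then f r else f' r) := by
  have e1 : ∀ s t, s ≤ t → t ≤ b → ∫ r in s..t, (if r ≤ b then f r else f' r) =
      ∫ r in s..t, f r := by
    intro s t hst htb
    refine intervalIntegral.integral_congr fun r hr => ?_
    rw [uIcc_of_le hst] at hr
    rw [if_pos (hr.2.trans htb)]
  have e2 : ∀ s t, b ≤ s → s ≤ t → ∫ r in s..t, (if r ≤ b then f r else f' r) =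
      ∫ r in s..t, f' r := by
    intro s t hbs hst
    rw [intervalIntegral.integral_of_le hst, intervalIntegral.integral_of_le hst]
    refine setIntegral_congr_fun measurableSet_Ioc fun r hr => ?_
    rw [if_neg (not_le.2 (hbs.trans_lt hr.1))]
  intro s t hs hst ht
  rcases le_total t b with h | h
  · rw [e1 s t hst h]
    exact p s t hs hst h
  · rcases le_total s b with h' | h'
    · have i1 : IntervalIntegrable (fun r => if r ≤ b then f r else f' r) volume s b := by
        have : IntervalIntegrable f volume s b := hf.mono_set (by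
          rw [uIcc_of_le h', uIcc_of_le hab]; exact Icc_subset_Icc_left hs)
        refine this.congr fun r hr => ?_
        rw [uIoc_of_le h'] at hr
        rw [if_pos hr.2]
      have i2 : IntervalIntegrable (fun r => if r ≤ b then f r else f' r) volume b t := by
        have : IntervalIntegrable f' volume b t := hf'.mono_set (by
          rw [uIcc_of_le h, uIcc_of_le hbc]; exact Icc_subset_Icc_right ht)
        refine this.congr fun r hr => ?_
        rw [uIoc_of_le h] at hr
        rw [if_neg (not_le.2 hr.1)]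
      rw [← intervalIntegral.integral_add_adjacent_intervals i1 i2, e1 s b h' le_rfl,
        e2 b t le_rfl h, ← p s b hs h' le_rfl, ← p' b t le_rfl h ht]
      abel
    · rw [e2 s t h' hst]
      exact p' s t h' hst ht

theorem ae_glue {p : ℝ → Prop} (hab : a ≤ b) (hbc : b ≤ c)
    (h : ∀ᵐ s ∂(volume.restrict (Ioc a b)), p s) (h' : ∀ᵐ s ∂(volume.restrict (Ioc b c)), p s) :
    ∀ᵐ s ∂(volume.restrict (Ioc a c)), p s := by
  rw [← Ioc_union_Ioc_eq_Ioc hab hbc]
  exact (ae_restrict_union_iff _ _ _).2 ⟨h, h'⟩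

theorem ae_left {p q : ℝ → Prop} (h : ∀ᵐ s ∂(volume.restrict (Ioc a b)), p s)
    (hq : ∀ s, s ≤ b → p s → q s) : ∀ᵐ s ∂(volume.restrict (Ioc a b)), q s := by
  filter_upwards [h, ae_restrict_mem measurableSet_Ioc] with s h1 h2 using hq s h2.2 h1

theorem ae_right {p q : ℝ → Prop} (h : ∀ᵐ s ∂(volume.restrict (Ioc a b)), p s)
    (hq : ∀ s, a < s → p s → q s) : ∀ᵐ s ∂(volume.restrict (Ioc a b)), q s := by
  filter_upwards [h, ae_restrict_mem measurableSet_Ioc] with s h1 h2 using hq s h2.1 h1

theorem memLp_glue {Y : Type} [NormedAddCommGroup Y] (hab : a ≤ b) (hbc : b ≤ c)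
    {f f' : ℝ → Y} (hf : MemLp f 2 (volume.restrict (Ioc a b)))
    (hf' : MemLp f' 2 (volume.restrict (Ioc b c))) :
    MemLp (fun r => if r ≤ b then f r else f' r) 2 (volume.restrict (Ioc a c)) := by
  have h1 : MemLp (fun r => if r ≤ b then f r else f' r) 2 (volume.restrict (Ioc a b)) := by
    refine (memLp_congr_ae ?_).2 hf
    filter_upwards [ae_restrict_mem measurableSet_Ioc] with s hs
    rw [if_pos hs.2]
  have h2 : MemLp (fun r => if r ≤ b then f r else f' r) 2 (volume.restrict (Ioc b c)) := by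
    refine (memLp_congr_ae ?_).2 hf'
    filter_upwards [ae_restrict_mem measurableSet_Ioc] with s hs
    rw [if_neg (not_le.2 hs.1)]
  have e : (fun r => if r ≤ b then f r else f' r) =
      (Ioc a b).indicator (fun r => if r ≤ b then f r else f' r) +
      ((Ioc a b)ᶜ).indicator (fun r => if r ≤ b then f r else f' r) :=
    (indicator_self_add_compl _ _).symm
  rw [e]
  refine MemLp.add ?_ ?_
  · rw [memLp_indicator_iff_restrict measurableSet_Ioc, Measure.restrict_restrict measurableSet_Ioc,
      inter_eq_self_of_subset_left (Ioc_subset_Ioc_right hbc)]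
    exact h1
  · rw [memLp_indicator_iff_restrict measurableSet_Ioc.compl,
      Measure.restrict_restrict measurableSet_Ioc.compl]
    refine h2.mono_measure (Measure.restrict_mono ?_ le_rfl)
    rintro s ⟨h3, h4⟩
    refine ⟨?_, h4.2⟩
    by_contra hcon
    exact h3 ⟨h4.1, not_lt.1 hcon⟩

theorem SOn.glue (hab : a ≤ b) (hbc : b ≤ c) (S : SOn W u z a b u1 z1)
    (S' : SOn W u z b c u1' z1') :
    SOn W u z a c (fun r => if r ≤ b then u1 r else u1' r)
      (fun r => if r ≤ b then z1 r else z1' r) := by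
  have f1 := fin_Ioc' a b
  have f2 := fin_Ioc' b c
  obtain ⟨R, hR⟩ := S.bd
  obtain ⟨R', hR'⟩ := S'.bd
  refine ⟨?_, ?_, ⟨max R R', ?_⟩, memLp_glue hab hbc S.u1m S'.u1m,
    memLp_glue hab hbc S.z1m S'.z1m, glue_prim hab hbc ?_ ?_ S.pu S'.pu,
    glue_prim hab hbc ?_ ?_ S.pz S'.pz⟩
  · intro t ht
    rcases le_total t b with h | h
    · exact S.mem t ⟨ht.1, h⟩
    · exact S'.mem t ⟨h, ht.2⟩
  · exact ae_glue hab hbc (ae_left S.mem1 fun s hs h => by rwa [if_pos hs, if_pos hs])
      (ae_right S'.mem1 fun s hs h => by rwa [if_neg (not_le.2 hs), if_neg (not_le.2 hs)])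
  · exact ae_glue hab hbc (ae_left hR fun s hs h => by
      rw [if_pos hs]; exact h.trans (le_max_left _ _))
      (ae_right hR' fun s hs h => by rw [if_neg (not_le.2 hs)]; exact h.trans (le_max_right _ _))
  · exact (intervalIntegrable_iff_integrableOn_Ioc_of_le hab).2 (S.u1m.integrable (by norm_num))
  · exact (intervalIntegrable_iff_integrableOn_Ioc_of_le hbc).2 (S'.u1m.integrable (by norm_num))
  · exact (intervalIntegrable_iff_integrableOn_Ioc_of_le hab).2 (S.z1m.integrable (by norm_num))
  · exact (intervalIntegrable_iff_integrableOn_Ioc_of_le hbc).2 (S'.z1m.integrable (by norm_num))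

/-- translations -/
theorem mp_sub (s a b : ℝ) : MeasurePreserving (fun t : ℝ => t - s)
    (volume.restrict (Ioc (s + a) (s + b))) (volume.restrict (Ioc a b)) := by
  have := (measurePreserving_sub_right volume s).restrict_preimage
    (measurableSet_Ioc : MeasurableSet (Ioc a b))
  rwa [preimage_sub_const_Ioc, add_comm a s, add_comm b s] at this

theorem SOn.shift {s : ℝ} {ζ : ℝ → K} (S : SOn W (fun t => u (s + t)) ζ a b u1 z1)
    (hz : ∀ t ∈ Icc (s + a) (s + b), z t = ζ (t - s)) :
    SOn W u z (s + a) (s + b) (fun t => u1 (t - s)) (fun t => z1 (t - s)) := by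
  have hmp := mp_sub s a b
  obtain ⟨R, hR⟩ := S.bd
  refine ⟨fun t ht => ?_, hmp.quasiMeasurePreserving.ae S.mem1,
    ⟨R, hmp.quasiMeasurePreserving.ae hR⟩, S.u1m.comp_measurePreserving hmp,
    S.z1m.comp_measurePreserving hmp, fun r t h1 h2 h3 => ?_, fun r t h1 h2 h3 => ?_⟩
  · have := S.mem (t - s) ⟨by linarith [ht.1], by linarith [ht.2]⟩
    rw [hz t ht]
    simpa using this
  · have := S.pu (r - s) (t - s) (by linarith) (by linarith) (by linarith)
    rw [intervalIntegral.integral_comp_sub_right (fun t => u1 t) s]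
    simpa using this
  · have := S.pz (r - s) (t - s) (by linarith) (by linarith) (by linarith)
    rw [intervalIntegral.integral_comp_sub_right (fun t => z1 t) s, hz t ⟨by linarith, h3⟩,
      hz r ⟨h1, by linarith⟩]
    exact this

end

end Pool.Agent.J4H18.EX
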