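import Pool.Agent.J4H18.EX.B4

/-!
Regularity: regularity near a regular time and near the initial time, compact intervals.
-/

set_option autoImplicit false
set_option linter.unusedSectionVars false
set_option linter.unusedVariables false

open MeasureTheory Set Filter Topology
open scoped InnerProductSpace ENNReal

namespace Pool.Agent.J4H18.EX

open H772R2.NSR (Frame grad_unique prim_cont exists_weak_limit mem_of_weak_limit)
open H772R2.NSG (LH)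
open Pool.Agent.W795.TQ (Str FH Univ)
open Pool.Agent.W795.HE (SE)

section

variable {H K : Type} [NormedAddCommGroup H] [InnerProductSpace ℝ H] [CompleteSpace H]
  [NormedAddCommGroup K] [InnerProductSpace ℝ K] [CompleteSpace K]
variable {W : Submodule ℝ (H × K)} {m : H → K} {C c ν : ℝ} {F F1 : ℝ → K} {x0 : H}
  {u : ℝ → H} {z : ℝ → K}

/-- `u` is regular on `[a,b]` -/
def Rg (W : Submodule ℝ (H × K)) (u : ℝ → H) (z : ℝ → K) (a b : ℝ) : Prop :=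
  ∃ (u1 : ℝ → H) (z1 : ℝ → K), SOn W u z a b u1 z1

/-- the gradient is bounded before `τ` -/
def Bf (z : ℝ → K) (τ : ℝ) : Prop :=
  ∃ δ > (0 : ℝ), ∃ R : ℝ, ∀ᵐ s ∂(volume.restrict (Ioc 0 τ)), |s - τ| < δ → ‖z s‖ ≤ R

theorem near_reg (hc : 0 < c) (Fr : Frame W m C) (Un : Univ W m c)
    (hcomp : ∀ R : ℝ, TotallyBounded {v : H | ∃ z, (v, z) ∈ W ∧ ‖z‖ ≤ R}) (hν : 0 < ν) {T : ℝ}
    (hT : 0 < T) (hF0 : FH T F F1) (hL : LH W m T (fun _ => ν) F x0 u z) (hSE : SE ν T F u z)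
    (hcan : ∀ t ζ, (u t, ζ) ∈ W → z t = ζ) {τ : ℝ} (hτ : 0 < τ) (hτT : τ ≤ T) (hb : Bf z τ) :
    ∃ a b, 0 < a ∧ a < τ ∧ τ < b ∧ Rg W u z a (min b T) := by
  obtain ⟨ε1, hε1, hreg⟩ := reg c hc
  obtain ⟨δ, hδ, R, hR⟩ := hb
  have hFc : ContinuousOn F (Icc 0 T) := prim_cont hF0.memLp hF0.prim
  obtain ⟨Φ, hΦ⟩ := (isCompact_Icc (a := (0 : ℝ)) (b := T)).exists_bound_of_continuousOn hFc
  have hΦ0 : 0 ≤ Φ := (norm_nonneg _).trans (hΦ 0 ⟨le_rfl, hT.le⟩)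
  set G : ℝ := ∫ s in (0 : ℝ)..T, ‖F1 s‖ ^ 2 with hG
  have hG0 : 0 ≤ G := intervalIntegral.integral_nonneg hT.le fun s _ => by positivity
  set Q : ℝ := R ^ 2 + (Φ ^ 2 + G) / ν ^ 2 with hQ
  have hQ0 : 0 ≤ Q := by positivity
  have hν32 : 0 < ν ^ (3 / 2 : ℝ) := Real.rpow_pos_of_pos hν _
  set q : ℝ := ε1 * ν ^ (3 / 2 : ℝ) / (Q + 1) with hq
  have hq0 : 0 < q := by positivity
  set ℓ : ℝ := min 1 (q ^ 2) with hℓ
  have hℓ0 : 0 < ℓ := lt_min one_pos (by positivity)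
  have hℓ1 : ℓ ≤ 1 := min_le_left _ _
  have hsq : √ℓ ≤ q := by
    rw [Real.sqrt_le_left hq0.le]
    exact min_le_right _ _
  -- a good starting time
  have hsh := Pool.Agent.W933.HE.proof_shift H K W m C ν T F F1 x0 u z Fr hν hT hF0 hL hSE
  have hev : ∀ᵐ s ∂(volume.restrict (Ioc 0 τ)), ((u s, z s) ∈ W ∧ ∀ T' : ℝ, 0 < T' → s + T' ≤ T →
      LH W m T' (fun _ => ν) (fun t => F (s + t)) (u s) (fun t => u (s + t))
        (fun t => z (s + t)) ∧ FH T' (fun t => F (s + t)) (fun t => F1 (s + t)) ∧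
      (∫ t in (0 : ℝ)..T', ‖F1 (s + t)‖ ^ 2) ≤ (∫ t in (0 : ℝ)..T, ‖F1 t‖ ^ 2)) ∧
      (|s - τ| < δ → ‖z s‖ ≤ R) := by
    have h1 := ae_mono (Measure.restrict_mono (Ioc_subset_Ioc_right hτT)
      (le_refl (volume : Measure ℝ))) hsh
    filter_upwards [h1, hR] with s h2 h3
    exact ⟨⟨h2.1, fun T' hT' hs => ⟨(h2.2 T' hT' hs).1, (h2.2 T' hT' hs).2.1,
      (h2.2 T' hT' hs).2.2.1⟩⟩, h3⟩
  have hfr := Pool.Agent.W933.HE.freq hev (t := τ) ⟨hτ, le_rfl⟩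
  have hlow : ∀ᶠ s in 𝓝[<] τ, τ - min δ (ℓ / 2) < s := by
    have : τ - min δ (ℓ / 2) < τ := by
      have : 0 < min δ (ℓ / 2) := lt_min hδ (by positivity)
      linarith
    exact (eventually_gt_nhds this).filter_mono nhdsWithin_le_nhds
  obtain ⟨s, ⟨hs0, ⟨hmem, hshs⟩, hRs⟩, hslow⟩ := (hfr.and_eventually hlow).exists
  have hsδ : τ - δ < s := by
    have := min_le_left δ (ℓ / 2)
    linarith
  have hsℓ : τ - ℓ / 2 < s := by
    have := min_le_right δ (ℓ / 2)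
    linarith
  have hzR : ‖z s‖ ≤ R := hRs (by rw [abs_sub_comm, abs_of_pos (by linarith [hs0.2])]; linarith)
  set T' : ℝ := min ℓ (T - s) with hT'
  have hT'0 : 0 < T' := lt_min hℓ0 (by linarith [hs0.2])
  have hT'ℓ : T' ≤ ℓ := min_le_left _ _
  have hsT : s + T' ≤ T := by
    have := min_le_right ℓ (T - s)
    linarith
  have hτT' : τ - s ≤ T' := le_min (by linarith) (by linarith)
  obtain ⟨k1, k2, k3⟩ := hshs T' hT'0 hsT
  have hR0 : 0 ≤ R := (norm_nonneg _).trans hzR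
  have hsmall : (‖z s‖ ^ 2 + (Φ ^ 2 + T' * ∫ t in (0 : ℝ)..T', ‖F1 (s + t)‖ ^ 2) / ν ^ 2) * √T'
      ≤ ε1 * ν ^ (3 / 2 : ℝ) := by
    have i0 : 0 ≤ ∫ t in (0 : ℝ)..T', ‖F1 (s + t)‖ ^ 2 :=
      intervalIntegral.integral_nonneg hT'0.le fun s _ => by positivity
    have i1 : T' * ∫ t in (0 : ℝ)..T', ‖F1 (s + t)‖ ^ 2 ≤ G := by
      have : T' ≤ 1 := hT'ℓ.trans hℓ1
      calc T' * ∫ t in (0 : ℝ)..T', ‖F1 (s + t)‖ ^ 2 ≤
            1 * ∫ t in (0 : ℝ)..T', ‖F1 (s + t)‖ ^ 2 := by gcongr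
        _ ≤ G := by rw [one_mul]; exact k3
    have i2 : √T' ≤ q := (Real.sqrt_le_sqrt hT'ℓ).trans hsq
    calc (‖z s‖ ^ 2 + (Φ ^ 2 + T' * ∫ t in (0 : ℝ)..T', ‖F1 (s + t)‖ ^ 2) / ν ^ 2) * √T'
        ≤ Q * q := by rw [hQ]; gcongr
      _ ≤ (Q + 1) * q := by gcongr; linarith
      _ = ε1 * ν ^ (3 / 2 : ℝ) := by rw [hq]; field_simp
  have hR' := hreg H K W m C ν T' Φ (fun t => F (s + t)) (fun t => F1 (s + t)) (u s) (z s)
    (fun t => u (s + t)) (fun t => z (s + t)) Fr Un hcomp hν hT'0 k2 hΦ0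
    (fun t ht => hΦ _ ⟨by linarith [hs0.1, ht.1], by linarith [ht.2]⟩) hmem k1 hsmall
    ((τ - s) / 2) T' (by linarith [hs0.2]) (by linarith [hs0.2]) le_rfl
  obtain ⟨ζ, u1, ζ1, S⟩ := hR'
  have hz : ∀ t ∈ Icc (s + (τ - s) / 2) (s + T'), z t = ζ (t - s) := by
    intro t ht
    have h1 := S.mem (t - s) ⟨by linarith [ht.1], by linarith [ht.2]⟩
    refine hcan t _ ?_
    simpa using h1
  have hSS := S.shift hz
  refine ⟨s + (τ - s) / 2, s + ℓ, by linarith [hs0.1, hs0.2], by linarith [hs0.2],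
    by linarith, ?_⟩
  have e : min (s + ℓ) T = s + T' := by
    have h1 : s + min ℓ (T - s) = min (s + ℓ) (s + (T - s)) := (min_add_add_left s ℓ (T - s)).symm
    rw [hT', h1, add_sub_cancel]
  rw [e]
  exact ⟨_, _, hSS⟩

theorem near_zero (Fr : Frame W m C)
    (hcomp : ∀ R : ℝ, TotallyBounded {v : H | ∃ z, (v, z) ∈ W ∧ ‖z‖ ≤ R}) (hν : 0 < ν)
    (hF : ∀ T, 0 < T → FH T F F1)
    (hL : ∀ T, 0 < T → LH W m T (fun _ => ν) F x0 u z)
    (hcan : ∀ t ζ, (u t, ζ) ∈ W → z t = ζ) {z0 : K} (h0 : (x0, z0) ∈ W) {g0 : H}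
    (hg : ∀ p ∈ W, ⟪F 0 - ν • z0 + m x0, p.2⟫_ℝ = ⟪g0, p.1⟫_ℝ) :
    ∃ b, 0 < b ∧ Rg W u z 0 b := by
  obtain ⟨τ, v, v1, y, y1, k1, k2, k3, k4, -⟩ := Pool.Agent.W52.TQ.proof_loc H K W m C ν 1 F F1
    x0 g0 z0 (‖z0‖ + 1) Fr hcomp hν one_pos (hF 1 one_pos) h0 hg (by linarith)
  have hF1 := hF 1 one_pos
  have hFc : ContinuousOn F (Icc 0 1) := prim_cont hF1.memLp hF1.prim
  obtain ⟨huv, -⟩ := Pool.Agent.W503.TQ.proof_uni H K W m C ν 1 τ F x0 u v v1 z y y1 Fr hν k1 k2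
    hFc (hL 1 one_pos) k3 k4
  have hzy : ∀ t ∈ Icc 0 τ, z t = y t := by
    intro t ht
    refine hcan t _ ?_
    rw [huv t ht]
    exact k3.mem t ht
  refine ⟨τ, k1, v1, y1, ?_, k3.mem1, k3.bd, k3.u1m, k3.z1m, ?_, ?_⟩
  · intro t ht
    rw [huv t ht, hzy t ht]
    exact k3.mem t ht
  · intro s t h1 h2 h3
    rw [huv t ⟨h1.trans h2, h3⟩, huv s ⟨h1, h2.trans h3⟩]
    exact k3.pu s t h1 h2 h3
  · intro s t h1 h2 h3
    rw [hzy t ⟨h1.trans h2, h3⟩, hzy s ⟨h1, h2.trans h3⟩]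
    exact k3.pz s t h1 h2 h3

theorem Rg.mono {a b a' b' : ℝ} (h : Rg W u z a b) (ha : a ≤ a') (hb : b' ≤ b) :
    Rg W u z a' b' := by
  obtain ⟨u1, z1, S⟩ := h
  exact ⟨u1, z1, S.mono ha hb⟩

theorem Rg.glue {a b d : ℝ} (hab : a ≤ b) (hbd : b ≤ d) (h : Rg W u z a b) (h' : Rg W u z b d) :
    Rg W u z a d := by
  obtain ⟨u1, z1, S⟩ := h
  obtain ⟨u1', z1', S'⟩ := h'
  exact ⟨_, _, S.glue hab hbd S'⟩

theorem Rg.bd {a b : ℝ} (h : Rg W u z a b) : ∃ R : ℝ, ∀ t ∈ Icc a b, ‖z t‖ ≤ R := by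
  obtain ⟨u1, z1, S⟩ := h
  have := fin_Ioc' a b
  rcases le_total a b with hab | hab
  · have hi : IntegrableOn (fun s => ‖z1 s‖) (Ioc a b) := (S.z1m.integrable (by norm_num)).norm
    refine ⟨‖z a‖ + ∫ s in Ioc a b, ‖z1 s‖, fun t ht => ?_⟩
    have h1 := S.pz a t le_rfl ht.1 ht.2
    have h2 : ‖z t - z a‖ ≤ ∫ s in Ioc a b, ‖z1 s‖ := by
      rw [h1, intervalIntegral.integral_of_le ht.1]
      refine (norm_integral_le_integral_norm _).trans ?_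
      exact setIntegral_mono_set hi (Eventually.of_forall fun s => norm_nonneg _)
        (Ioc_subset_Ioc_right ht.2).eventuallyLE
    have h3 : ‖z t‖ ≤ ‖z a‖ + ‖z t - z a‖ := by
      have := norm_add_le (z a) (z t - z a)
      rwa [add_sub_cancel] at this
    linarith
  · refine ⟨‖z a‖, fun t ht => ?_⟩
    have : t = a := le_antisymm (ht.2.trans hab) ht.1
    rw [this]

theorem Rg.bf {a b : ℝ} (h : Rg W u z a b) (ha : 0 ≤ a) {τ : ℝ} (h1 : a < τ) (h2 : τ ≤ b) :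
    Bf z τ := by
  obtain ⟨R, hR⟩ := h.bd
  refine ⟨τ - a, by linarith, R, ?_⟩
  filter_upwards [ae_restrict_mem measurableSet_Ioc] with s hs hsd
  refine hR s ⟨?_, hs.2.trans h2⟩
  have := (abs_lt.1 hsd).1
  linarith

/-- from local to compact intervals -/
theorem Rg.cover {a b : ℝ} (hab : a ≤ b)
    (h : ∀ t ∈ Icc a b, ∃ l r, l < t ∧ t < r ∧ Rg W u z (max l a) (min r b)) :
    Rg W u z a b := by
  have h' : ∀ t : Icc a b, ∃ l r, l < (t : ℝ) ∧ (t : ℝ) < r ∧ Rg W u z (max l a) (min r b) :=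
    fun t => h t t.2
  choose l r hl hr hR using h'
  obtain ⟨t, t0, tm, ⟨n, tn⟩, tc⟩ := exists_monotone_Icc_subset_open_cover_Icc hab
    (c := fun i : Icc a b => (Subtype.val ⁻¹' Ioo (l i) (r i) : Set (Icc a b)))
    (fun i => isOpen_Ioo.preimage continuous_subtype_val)
    (fun x _ => mem_iUnion.2 ⟨x, hl x, hr x⟩)
  have step : ∀ k : ℕ, Rg W u z a (t k) := by
    intro k
    induction k with
    | zero =>
      rw [t0]
      have h1 := hR ⟨a, ⟨le_rfl, hab⟩⟩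
      have h2 := hl ⟨a, ⟨le_rfl, hab⟩⟩
      have h3 := hr ⟨a, ⟨le_rfl, hab⟩⟩
      simp only at h2 h3
      exact h1.mono (by rw [max_eq_right h2.le]) (le_min h3.le hab)
    | succ k ih =>
      obtain ⟨i, hi⟩ := tc k
      have h1 : t k ∈ Icc (t k) (t (k + 1)) := ⟨le_rfl, tm (Nat.le_succ k)⟩
      have h2 : t (k + 1) ∈ Icc (t k) (t (k + 1)) := ⟨tm (Nat.le_succ k), le_rfl⟩
      have h3 := hi h1
      have h4 := hi h2
      refine ih.glue (t k).2.1 (tm (Nat.le_succ k)) ((hR i).mono ?_ ?_)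
      · exact max_le h3.1.le (t k).2.1
      · exact le_min h4.2.le (t (k + 1)).2.2
  have := step n
  rwa [tn n le_rfl] at this

/-- regularity on compact intervals without singular times -/
theorem strong_off (hc : 0 < c) (Fr : Frame W m C) (Un : Univ W m c)
    (hcomp : ∀ R : ℝ, TotallyBounded {v : H | ∃ z, (v, z) ∈ W ∧ ‖z‖ ≤ R}) (hν : 0 < ν)
    (hF : ∀ T, 0 < T → FH T F F1)
    (hL : ∀ T, 0 < T → LH W m T (fun _ => ν) F x0 u z ∧ SE ν T F u z)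
    (hcan : ∀ t ζ, (u t, ζ) ∈ W → z t = ζ) {z0 : K} (h0 : (x0, z0) ∈ W) {g0 : H}
    (hg : ∀ p ∈ W, ⟪F 0 - ν • z0 + m x0, p.2⟫_ℝ = ⟪g0, p.1⟫_ℝ) {a b : ℝ} (ha : 0 ≤ a)
    (hab : a ≤ b) (hS : ∀ τ ∈ Icc a b, 0 < τ → Bf z τ) : Rg W u z a b := by
  refine Rg.cover hab fun t ht => ?_
  rcases (ha.trans ht.1).eq_or_lt with h | h
  · obtain ⟨b', hb', hR⟩ := near_zero Fr hcomp hν hF (fun T hT => (hL T hT).1) hcan h0 hg
    refine ⟨-1, b', by linarith, by linarith, hR.mono ?_ (min_le_left _ _)⟩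
    exact ha.trans (le_max_right _ _)
  · obtain ⟨l, r, h1, h2, h3, h4⟩ := near_reg hc Fr Un hcomp hν (T := t + 1) (by linarith)
      (hF _ (by linarith)) (hL _ (by linarith)).1 (hL _ (by linarith)).2 hcan h (by linarith)
      (hS t ht h)
    exact ⟨l, min r (t + 1), h2, lt_min h3 (by linarith), h4.mono (le_max_left _ _)
      (min_le_left _ _)⟩

/-- regularity on compact intervals without singular times, finite interval -/
theorem strong_off_T (hc : 0 < c) (Fr : Frame W m C) (Un : Univ W m c)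
    (hcomp : ∀ R : ℝ, TotallyBounded {v : H | ∃ z, (v, z) ∈ W ∧ ‖z‖ ≤ R}) (hν : 0 < ν) {T : ℝ}
    (hT : 0 < T) (hF0 : FH T F F1) (hL : LH W m T (fun _ => ν) F x0 u z) (hSE : SE ν T F u z)
    (hcan : ∀ t ζ, (u t, ζ) ∈ W → z t = ζ) {a b : ℝ} (ha : 0 < a)
    (hab : a ≤ b) (hbT : b ≤ T) (hS : ∀ τ ∈ Icc a b, Bf z τ) : Rg W u z a b := by
  refine Rg.cover hab fun t ht => ?_
  obtain ⟨l, r, h1, h2, h3, h4⟩ := near_reg hc Fr Un hcomp hν hT hF0 hL hSE hcan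
    (ha.trans_le ht.1) (ht.2.trans hbT) (hS t ht)
  exact ⟨l, r, h2, h3, h4.mono (le_max_left _ _) (min_le_min_left _ hbT)⟩

/-- the set of singular times is closed -/
theorem sing_closed (hc : 0 < c) (Fr : Frame W m C) (Un : Univ W m c)
    (hcomp : ∀ R : ℝ, TotallyBounded {v : H | ∃ z, (v, z) ∈ W ∧ ‖z‖ ≤ R}) (hν : 0 < ν)
    (hF : ∀ T, 0 < T → FH T F F1)
    (hL : ∀ T, 0 < T → LH W m T (fun _ => ν) F x0 u z ∧ SE ν T F u z)
    (hcan : ∀ t ζ, (u t, ζ) ∈ W → z t = ζ) {z0 : K} (h0 : (x0, z0) ∈ W) {g0 : H}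
    (hg : ∀ p ∈ W, ⟪F 0 - ν • z0 + m x0, p.2⟫_ℝ = ⟪g0, p.1⟫_ℝ) :
    IsClosed {τ : ℝ | 0 < τ ∧ ¬ Bf z τ} := by
  rw [← isOpen_compl_iff, isOpen_iff_mem_nhds]
  intro t ht
  rcases lt_or_ge 0 t with h | h
  · have hbf : Bf z t := by
      by_contra hcon
      exact ht ⟨h, hcon⟩
    obtain ⟨l, r, h1, h2, h3, h4⟩ := near_reg hc Fr Un hcomp hν (T := t + 1) (by linarith)
      (hF _ (by linarith)) (hL _ (by linarith)).1 (hL _ (by linarith)).2 hcan h (by linarith) hbf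
    filter_upwards [Ioo_mem_nhds h2 (lt_min h3 (by linarith : t < t + 1))] with s hs hcon
    exact hcon.2 (h4.bf h1.le hs.1 hs.2.le)
  · obtain ⟨b', hb', hR⟩ := near_zero Fr hcomp hν hF (fun T hT => (hL T hT).1) hcan h0 hg
    filter_upwards [gt_mem_nhds (lt_of_le_of_lt h hb')] with s hs hcon
    exact hcon.2 (hR.bf le_rfl hcon.1 (le_of_lt hs))

end

end Pool.Agent.J4H18.EX
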