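import Pool.Agent.J4H18.EX.A5
import Pool.Agent.J4H18.EX.B5
import Pool.Agent.J4H18.LT.D1
import Pool.Agent.J4H18.LT.PubDef

/-!
Leray-Hopf solutions and regular intervals in terms of the public definitions.
-/

set_option autoImplicit false
set_option linter.unusedSectionVars false
set_option linter.unusedVariables false

open MeasureTheory Set Filter Topology
open scoped InnerProductSpace ENNReal ContDiff

namespace Pool.Agent.J4H18.EX

open H772R2.NS H772R2.NS.Pub H772R2.NSR H772R2.NSG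
open Pool.Agent.W795.TQ Pool.Agent.W795.HE

section

variable {H K : Type} [NormedAddCommGroup H] [InnerProductSpace ℝ H] [CompleteSpace H]
  [NormedAddCommGroup K] [InnerProductSpace ℝ K] [CompleteSpace K]
variable {W : Submodule ℝ (H × K)} {m : H → K} {C ν T : ℝ} {F : ℝ → K} {x0 : H}
  {u : ℝ → H} {z z' : ℝ → K}

/-- the gradient, where it exists -/
noncomputable def can (W : Submodule ℝ (H × K)) (u : ℝ → H) (t : ℝ) : K := by
  classical
  exact if h : ∃ ζ, (u t, ζ) ∈ W then h.choose else 0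

theorem can_eq (Fr : Frame W m C) {t : ℝ} {ζ : K} (h : (u t, ζ) ∈ W) : can W u t = ζ := by
  have h' : ∃ ζ, (u t, ζ) ∈ W := ⟨ζ, h⟩
  unfold can
  rw [dif_pos h']
  exact grad_unique Fr h'.choose_spec h

theorem can_ae (Fr : Frame W m C) (hm : ∀ᵐ s ∂(volume.restrict (Ioc 0 T)), (u s, z s) ∈ W) :
    can W u =ᵐ[volume.restrict (Ioc 0 T)] z := by
  filter_upwards [hm] with s hs using can_eq Fr hs

theorem int_cong {f g : ℝ → ℝ} (h : f =ᵐ[volume.restrict (Ioc 0 T)] g) {a b : ℝ} (ha : 0 ≤ a)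
    (hab : a ≤ b) (hb : b ≤ T) : ∫ s in a..b, f s = ∫ s in a..b, g s := by
  rw [intervalIntegral.integral_of_le hab, intervalIntegral.integral_of_le hab]
  exact integral_congr_ae (ae_mono (Measure.restrict_mono (Ioc_subset_Ioc ha hb) le_rfl) h)

theorem lh_cong (L : LH W m T (fun _ => ν) F x0 u z)
    (h : z' =ᵐ[volume.restrict (Ioc 0 T)] z) : LH W m T (fun _ => ν) F x0 u z' := by
  refine ⟨L.init, L.meas, L.mmeas, ?_, (memLp_congr_ae h).2 L.z2, ?_, ?_, ?_⟩
  · filter_upwards [L.mem, h] with s h1 h2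
    rwa [h2]
  · refine L.dis.congr ?_
    filter_upwards [h] with s hs
    rw [hs]
  · intro p hp t ht
    rw [L.weak p hp t ht]
    refine int_cong ?_ le_rfl ht.1 ht.2
    filter_upwards [h] with s hs
    rw [hs]
  · intro t ht
    have h1 := L.energy t ht
    have e1 : ∫ s in (0 : ℝ)..t, ν * ‖z' s‖ ^ 2 = ∫ s in (0 : ℝ)..t, ν * ‖z s‖ ^ 2 :=
      int_cong (by filter_upwards [h] with s hs; rw [hs]) le_rfl ht.1 ht.2
    have e2 : ∫ s in (0 : ℝ)..t, ⟪F s, z' s⟫_ℝ = ∫ s in (0 : ℝ)..t, ⟪F s, z s⟫_ℝ :=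
      int_cong (by filter_upwards [h] with s hs; rw [hs]) le_rfl ht.1 ht.2
    rw [e1, e2]
    exact h1

theorem se_cong (hSE : SE ν T F u z) (h : z' =ᵐ[volume.restrict (Ioc 0 T)] z) :
    SE ν T F u z' := by
  unfold SE at hSE ⊢
  filter_upwards [hSE, ae_restrict_mem measurableSet_Ioc] with s hs hsm t ht
  have h1 := hs t ht
  have e1 : ∫ s in s..t, ‖z' s‖ ^ 2 = ∫ s in s..t, ‖z s‖ ^ 2 :=
    int_cong (by filter_upwards [h] with s hs; rw [hs]) hsm.1.le ht.1 ht.2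
  have e2 : ∫ s in s..t, ⟪F s, z' s⟫_ℝ = ∫ s in s..t, ⟪F s, z s⟫_ℝ :=
    int_cong (by filter_upwards [h] with s hs; rw [hs]) hsm.1.le ht.1 ht.2
  rw [e1, e2]
  exact h1

theorem bf_cong {τ : ℝ} (hτ : τ ≤ T) (h : z' =ᵐ[volume.restrict (Ioc 0 T)] z) (hb : Bf z τ) :
    Bf z' τ := by
  obtain ⟨δ, hδ, R, hR⟩ := hb
  refine ⟨δ, hδ, R, ?_⟩
  have h' := ae_mono (Measure.restrict_mono (Ioc_subset_Ioc_right hτ)
    (le_refl (volume : Measure ℝ))) h
  filter_upwards [hR, h'] with s h1 h2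
  rwa [h2]

end

/-- a Leray-Hopf solution in terms of the public definition -/
theorem pub_of_lh {Ω : Set E3} (hΩ : IsOpen Ω) {ν T : ℝ} {F : ℝ → L2M Ω} {u0 : L2V Ω}
    {u : ℝ → L2V Ω} {z : ℝ → L2M Ω} (L : LH (graphW Ω) (tensL (Ω := Ω)) T (fun _ => ν) F u0 u z) :
    IsLerayHopf (show Set R3 from Ω) ν T F u z := by
  have hm : MeasurableSet Ω := hΩ.measurableSet
  have h0 : u 0 = u0 := L.init
  constructor
  · exact L.meas
  · filter_upwards [L.mem] with t ht
    exact mem_pub.mp ht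
  · exact L.z2
  · intro φ hφ t ht
    obtain ⟨p, hp, hp1, hp2⟩ := exists_pair (Ω := Ω) ((isTest_iff φ).mp hφ)
    have h1 := L.weak p hp t ht
    have e1 := pub_inner (Ω := Ω) (u t) hp1
    have e2 := pub_inner (Ω := Ω) (u 0) hp1
    have h2 : ⟪u t - u0, p.1⟫_ℝ = ⟪u t, p.1⟫_ℝ - ⟪u 0, p.1⟫_ℝ := by
      rw [h0]; exact inner_sub_left _ _ _
    have e3 : ∫ s in (0 : ℝ)..t, Pub.rhs (Ω := Ω) ν (u s) (z s) (F s) φ
        = ∫ s in (0 : ℝ)..t, ⟪F s - ν • z s + tensL (u s), p.2⟫_ℝ := by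
      rw [intervalIntegral.integral_of_le ht.1, intervalIntegral.integral_of_le ht.1]
      refine integral_congr_ae ?_
      filter_upwards [ae_mono (Measure.restrict_mono (Ioc_subset_Ioc_right ht.2) le_rfl) L.mem]
        with s hs
      exact pub_rhs hm ν (F s) hs hp2
    refine (congrArg₂ (· - ·) e1 e2).trans ?_
    refine Eq.trans ?_ e3.symm
    rw [← h1, h2]
  · intro t ht
    have h1 := L.energy t ht
    rw [intervalIntegral.integral_const_mul] at h1
    rw [h0]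
    exact h1

/-- regular intervals in terms of the public definition -/
theorem strong_pub {Ω : Set E3} (hΩ : IsOpen Ω) {ν T C : ℝ} {F : ℝ → L2M Ω} {u0 : L2V Ω}
    {u : ℝ → L2V Ω} {z : ℝ → L2M Ω} (Fr : Frame (graphW Ω) (tensL (Ω := Ω)) C)
    (Co : Coef ν T (fun _ => ν) F)
    (L : LH (graphW Ω) (tensL (Ω := Ω)) T (fun _ => ν) F u0 u z) {a b : ℝ} (ha : 0 ≤ a)
    (hab : a < b) (hb : b ≤ T) {u1 : ℝ → L2V Ω} {z1 : ℝ → L2M Ω}
    (S : SOn (graphW Ω) u z a b u1 z1) :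
    IsStrong (show Set R3 from Ω) ν (b - a) (fun t => F (a + t)) (fun t => u (a + t))
      (fun t => u1 (a + t)) (fun t => z (a + t)) (fun t => z1 (a + t)) := by
  have hm : MeasurableSet Ω := hΩ.measurableSet
  have hmp := Pool.Agent.W933.HE.mp a (b - a)
  rw [add_sub_cancel] at hmp
  have hI : ∀ t ∈ Icc 0 (b - a), a + t ∈ Icc a b := fun t ht =>
    ⟨by linarith [ht.1], by linarith [ht.2]⟩
  constructor
  · intro t ht
    exact mem_pub.mp (S.mem _ (hI t ht))
  · filter_upwards [hmp.quasiMeasurePreserving.ae S.mem1] with t ht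
    exact mem_pub.mp ht
  · refine ⟨S.u1m.comp_measurePreserving hmp, fun s t h1 h2 h3 => ?_⟩
    have e := intervalIntegral.integral_comp_add_left (fun r => u1 r) a (a := s) (b := t)
    exact (S.pu _ _ (by linarith) (by linarith) (by linarith)).trans e.symm
  · refine ⟨S.z1m.comp_measurePreserving hmp, fun s t h1 h2 h3 => ?_⟩
    have e := intervalIntegral.integral_comp_add_left (fun r => z1 r) a (a := s) (b := t)
    exact (S.pz _ _ (by linarith) (by linarith) (by linarith)).trans e.symm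
  · obtain ⟨R, hR⟩ := S.bd
    exact ⟨R, hmp.quasiMeasurePreserving.ae hR⟩
  · intro φ hφ t ht
    obtain ⟨p, hp, hp1, hp2⟩ := exists_pair (Ω := Ω) ((isTest_iff φ).mp hφ)
    have hat := hI t ht
    have h1 := L.weak p hp (a + t) ⟨ha.trans hat.1, hat.2.trans hb⟩
    have h2 := L.weak p hp a ⟨ha, hab.le.trans hb⟩
    have hGi : Integrable (fun s => ⟪F s - ν • z s + tensL (u s), p.2⟫_ℝ)
        (volume.restrict (Ioc 0 T)) := (L.Gi Fr Co).inner_const p.2
    have h3 := intervalIntegral.integral_add_adjacent_intervals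
      (ii_of_int hGi le_rfl ha (hab.le.trans hb)) (ii_of_int hGi ha hat.1 (hat.2.trans hb))
    have e1 := pub_inner (Ω := Ω) (u (a + t)) hp1
    have e2 := pub_inner (Ω := Ω) (u (a + 0)) hp1
    have e3 : ∫ s in (0 : ℝ)..t, Pub.rhs (Ω := Ω) ν (u (a + s)) (z (a + s)) (F (a + s)) φ
        = ∫ s in a..(a + t), ⟪F s - ν • z s + tensL (u s), p.2⟫_ℝ := by
      have e4 : ∫ s in a..(a + t), ⟪F s - ν • z s + tensL (u s), p.2⟫_ℝ =
          ∫ s in (0 : ℝ)..t, ⟪F (a + s) - ν • z (a + s) + tensL (u (a + s)), p.2⟫_ℝ := by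
        have := intervalIntegral.integral_comp_add_left
          (fun s => ⟪F s - ν • z s + tensL (u s), p.2⟫_ℝ) a (a := 0) (b := t)
        rw [add_zero] at this
        exact this.symm
      rw [e4]
      refine intervalIntegral.integral_congr fun s hs => ?_
      rw [uIcc_of_le ht.1] at hs
      exact pub_rhs hm ν (F (a + s)) (S.mem _ (hI s ⟨hs.1, hs.2.trans ht.2⟩)) hp2
    refine (congrArg₂ (· - ·) e1 e2).trans ?_
    refine Eq.trans ?_ e3.symm
    have h4 : ⟪u (a + t), p.1⟫_ℝ - ⟪u (a + 0), p.1⟫_ℝ =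
        ⟪u (a + t) - u0, p.1⟫_ℝ - ⟪u a - u0, p.1⟫_ℝ := by
      rw [add_zero]
      have k1 : ⟪u (a + t) - u0, p.1⟫_ℝ = ⟪u (a + t), p.1⟫_ℝ - ⟪u0, p.1⟫_ℝ := inner_sub_left _ _ _
      have k2 : ⟪u a - u0, p.1⟫_ℝ = ⟪u a, p.1⟫_ℝ - ⟪u0, p.1⟫_ℝ := inner_sub_left _ _ _
      rw [k1, k2]; ring
    rw [h4, h1, h2]
    linarith

end Pool.Agent.J4H18.EX
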