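import Pool.Agent.J4H18.EX.C1

/-!
Partial regularity in time: assembly.
-/

set_option autoImplicit false
set_option linter.unusedSectionVars false
set_option linter.unusedVariables false

open MeasureTheory Set Filter Topology
open scoped InnerProductSpace ENNReal ContDiff

namespace Pool.Agent.J4H18.EX

open H772R2.NS H772R2.NS.Pub H772R2.NSR H772R2.NSG
open Pool.Agent.W795.TQ Pool.Agent.W795.HE

/-- regularity off the singular times of a given solution -/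
theorem off_mid {Ω : Set E3} (hΩ : IsOpen Ω) (hb : Bornology.IsBounded Ω) {ν T : ℝ}
    (hν : 0 < ν) (hT : 0 < T) {F F' : ℝ → L2M Ω}
    (hF1 : MemLp F' 2 (volume.restrict (Ioc 0 T)))
    (hF : ∀ a b, 0 ≤ a → a ≤ b → b ≤ T → F b - F a = ∫ s in a..b, F' s)
    {u : ℝ → L2V Ω} {z : ℝ → L2M Ω} (L : IsLerayHopf (show Set R3 from Ω) ν T F u z)
    (hSE : StrongEnergy (Ω := (show Set R3 from Ω)) ν T F u z) :
    ∃ z₁ : ℝ → L2M Ω, z₁ =ᵐ[volume.restrict (Ioc 0 T)] z ∧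
      ∀ a b, 0 < a → a < b → b ≤ T →
        (∀ τ ∈ Icc a b, RegularTime (Ω := (show Set R3 from Ω)) T z τ) →
        ∃ (u' : ℝ → L2V Ω) (z' : ℝ → L2M Ω),
          IsStrong (show Set R3 from Ω) ν (b - a) (fun t => F (a + t)) (fun t => u (a + t)) u'
            (fun t => z₁ (a + t)) z' := by
  obtain ⟨c, hc, hU⟩ := Pool.Agent.W52.TQ.proof_univ
  obtain ⟨C, Fr, hLH⟩ := pub_lh hΩ hb hF1 hF L
  have hSE' : SE ν T F u z := hSE
  have hae : can (graphW Ω) u =ᵐ[volume.restrict (Ioc 0 T)] z := can_ae Fr hLH.mem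
  have hL1 := lh_cong hLH hae
  have hS1 := se_cong hSE' hae
  have hFc : ContinuousOn F (Icc 0 T) := prim_cont hF1 hF
  refine ⟨can (graphW Ω) u, hae, fun a b ha hab hbT hreg => ?_⟩
  have hbf : ∀ τ ∈ Icc a b, Bf (can (graphW Ω) u) τ := by
    intro τ hτ
    obtain ⟨δ, hδ, R, hR⟩ := hreg τ hτ
    refine bf_cong (hτ.2.trans hbT) hae ⟨δ, hδ, R, ?_⟩
    exact ae_mono (Measure.restrict_mono (Ioc_subset_Ioc_right (hτ.2.trans hbT)) le_rfl) hR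
  obtain ⟨u1, z1, S⟩ := strong_off_T hc Fr (hU _ hΩ) (rellich_W hΩ hb) hν hT ⟨hF1, hF⟩ hL1 hS1
    (fun t ζ h => can_eq Fr h) ha hab.le hbT hbf
  exact ⟨_, _, strong_pub hΩ Fr (Pool.Agent.W933.HE.coef hFc) hL1 ha.le hab hbT S⟩

/-- regularity off a closed set of singular times, for global solutions with admissible data -/
theorem all_mid {Ω : Set E3} (hΩ : IsOpen Ω) (hb : Bornology.IsBounded Ω) {ν : ℝ}
    (hν : 0 < ν) {u0 : L2V Ω} {z0 : L2M Ω} (h0 : (u0, z0) ∈ graphW Ω)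
    {F F' : ℝ → L2M Ω} (hF1 : ∀ T, 0 < T → MemLp F' 2 (volume.restrict (Ioc 0 T)))
    (hF : ∀ a b, 0 ≤ a → a ≤ b → F b - F a = ∫ s in a..b, F' s)
    (hc : ∃ h : L2V Ω, ∀ φ : E3 → E3, H772R2.NS.IsTest Ω φ →
      Pub.rhs (Ω := Ω) ν u0 z0 (F 0) φ
        = ∫ x in (show Set R3 from Ω), ⟪L2.fn (Ω := Ω) (E := R3) h x, (φ : R3 → R3) x⟫_ℝ)
    {v : ℝ → L2V Ω} {y : ℝ → L2M Ω} (hv0 : v 0 = u0)
    (hv : ∀ T, 0 < T → IsLerayHopf (show Set R3 from Ω) ν T F v y ∧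
      StrongEnergy (Ω := (show Set R3 from Ω)) ν T F v y) :
    ∃ (S : Set ℝ) (z : ℝ → L2M Ω), IsClosed S ∧ S ⊆ Ioi 0 ∧
      (∀ T, 0 < T → S ∩ Ioc 0 T =
        {τ | τ ∈ Ioc 0 T ∧ ¬ RegularTime (Ω := (show Set R3 from Ω)) T y τ}) ∧
      (∀ T, 0 < T → z =ᵐ[volume.restrict (Ioc 0 T)] y) ∧
      ∀ a b, 0 ≤ a → a < b → Disjoint (Icc a b) S →
        ∃ (u' : ℝ → L2V Ω) (z' : ℝ → L2M Ω),
          IsStrong (show Set R3 from Ω) ν (b - a) (fun t => F (a + t)) (fun t => v (a + t)) u'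
            (fun t => z (a + t)) z' := by
  obtain ⟨c, hc', hU⟩ := Pool.Agent.W52.TQ.proof_univ
  obtain ⟨C, Fr⟩ := exists_frame hΩ hb
  obtain ⟨g0, hg0⟩ := hc
  have hm : MeasurableSet Ω := hΩ.measurableSet
  have hcomp : ∀ p ∈ graphW Ω, ⟪F 0 - ν • z0 + tensL u0, p.2⟫_ℝ = ⟪g0, p.1⟫_ℝ := by
    refine compat_ext ?_
    rintro p ⟨φ, k1, k2, k3⟩
    rw [← pub_rhs hm ν (F 0) h0 k3, ← pub_inner (Ω := Ω) g0 k2]
    exact hg0 φ k1
  have hFH : ∀ T, 0 < T → FH T F F' := fun T hT => ⟨hF1 T hT, fun a b ha hab _ => hF a b ha hab⟩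
  have hFc : ∀ T, 0 < T → ContinuousOn F (Icc 0 T) := fun T hT =>
    prim_cont (hFH T hT).memLp (hFH T hT).prim
  have hLy : ∀ T, 0 < T → LH (graphW Ω) (tensL (Ω := Ω)) T (fun _ => ν) F u0 v y := by
    intro T hT
    obtain ⟨C', -, h⟩ := pub_lh hΩ hb (hFH T hT).memLp (hFH T hT).prim (hv T hT).1
    rwa [hv0] at h
  set z := can (graphW Ω) v with hz
  have hae : ∀ T, 0 < T → z =ᵐ[volume.restrict (Ioc 0 T)] y := fun T hT =>
    can_ae Fr (hLy T hT).mem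
  have hL : ∀ T, 0 < T → LH (graphW Ω) (tensL (Ω := Ω)) T (fun _ => ν) F u0 v z ∧
      SE ν T F v z := fun T hT => ⟨lh_cong (hLy T hT) (hae T hT), se_cong (hv T hT).2 (hae T hT)⟩
  have hcan : ∀ t ζ, (v t, ζ) ∈ graphW Ω → z t = ζ := fun t ζ h => can_eq Fr h
  have hcl := sing_closed hc' Fr (hU _ hΩ) (rellich_W hΩ hb) hν hFH hL hcan h0 hcomp
  refine ⟨{τ : ℝ | 0 < τ ∧ ¬ Bf z τ}, z, hcl, fun τ hτ => hτ.1, fun T hT => ?_, hae,
    fun a b ha hab hd => ?_⟩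
  · ext τ
    constructor
    · rintro ⟨⟨h1, h2⟩, h3⟩
      refine ⟨h3, fun ⟨δ, hδ, R, hR⟩ => h2 (bf_cong h3.2 (hae T hT) ⟨δ, hδ, R, ?_⟩)⟩
      exact ae_mono (Measure.restrict_mono (Ioc_subset_Ioc_right h3.2) le_rfl) hR
    · rintro ⟨h3, h4⟩
      refine ⟨⟨h3.1, fun hbf => h4 ?_⟩, h3⟩
      obtain ⟨l, r, h5, h6, h7, h8⟩ := near_reg hc' Fr (hU _ hΩ) (rellich_W hΩ hb) hν
        (T := τ + 1) (by linarith [h3.1]) (hFH _ (by linarith [h3.1])) (hL _ (by linarith [h3.1])).1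
        (hL _ (by linarith [h3.1])).2 hcan h3.1 (by linarith) hbf
      obtain ⟨R, hR⟩ := h8.bd
      refine ⟨min (τ - l) (min r (τ + 1) - τ), lt_min (by linarith)
        (by linarith [lt_min h7 (by linarith : τ < τ + 1)]), R, ?_⟩
      filter_upwards [hae T hT] with s hsy hs
      rw [← hsy]
      refine hR s ⟨?_, ?_⟩
      · have := (abs_lt.1 (hs.trans_le (min_le_left _ _))).1
        linarith
      · have := (abs_lt.1 (hs.trans_le (min_le_right _ _))).2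
        linarith
  · have hS : ∀ τ ∈ Icc a b, 0 < τ → Bf z τ := by
      intro τ hτ hτ0
      by_contra hcon
      exact (Set.disjoint_left.1 hd hτ) ⟨hτ0, hcon⟩
    obtain ⟨u1, z1, S⟩ := strong_off hc' Fr (hU _ hΩ) (rellich_W hΩ hb) hν hFH hL hcan h0 hcomp
      ha hab.le hS
    have hb0 : 0 < b := ha.trans_lt hab
    exact ⟨_, _, strong_pub hΩ Fr (Pool.Agent.W933.HE.coef (hFc b hb0)) (hL b hb0).1 ha hab
      le_rfl S⟩

/-- existence of global solutions -/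
theorem ex_mid {Ω : Set E3} (hΩ : IsOpen Ω) (hb : Bornology.IsBounded Ω) {ν : ℝ}
    (hν : 0 < ν) {u0 : L2V Ω} {z0 : L2M Ω} (h0 : (u0, z0) ∈ graphW Ω)
    {F F' : ℝ → L2M Ω} (hF1 : ∀ T, 0 < T → MemLp F' 2 (volume.restrict (Ioc 0 T)))
    (hF : ∀ a b, 0 ≤ a → a ≤ b → F b - F a = ∫ s in a..b, F' s)
    (hc : ∃ h : L2V Ω, ∀ φ : E3 → E3, H772R2.NS.IsTest Ω φ →
      Pub.rhs (Ω := Ω) ν u0 z0 (F 0) φ
        = ∫ x in (show Set R3 from Ω), ⟪L2.fn (Ω := Ω) (E := R3) h x, (φ : R3 → R3) x⟫_ℝ) :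
    ∃ (u : ℝ → L2V Ω) (z : ℝ → L2M Ω), u 0 = u0 ∧
      ∀ T, 0 < T → IsLerayHopf (show Set R3 from Ω) ν T F u z ∧
        StrongEnergy (Ω := (show Set R3 from Ω)) ν T F u z := by
  obtain ⟨v, y, hv⟩ := exists_mid hΩ hb hν h0 hF1 hF hc
  exact ⟨v, y, (hv 1 one_pos).1.init, fun T hT => ⟨pub_of_lh hΩ (hv T hT).1, (hv T hT).2⟩⟩

end Pool.Agent.J4H18.EX
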