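import Pool.Agent.J4H18.LT.PubDef

/-!
Public definition: the gauges of the partial regularity theorem.
-/

set_option autoImplicit false

open Set

namespace Pool.Agent.J4H18.EX

/-- Gauges `h` with `h > 0` and `√r / h(r)` nondecreasing on some interval `(0,r₀]` and
`liminf_{r → 0} h(r) (1 + log(1 + |log r|))⁵ / (√r |log r|^{5/2}) = 0`. -/
def IsLogGauge (h : ℝ → ℝ) : Prop :=
  ∃ r₀ > 0, (∀ r ∈ Ioc 0 r₀, 0 < h r) ∧ MonotoneOn (fun r => √r / h r) (Ioc 0 r₀) ∧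
    ∀ η > 0, ∀ ρ > 0, ∃ r ∈ Ioo 0 ρ, h r * (1 + Real.log (1 + |Real.log r|)) ^ 5
      ≤ η * (√r * |Real.log r| ^ (5 / 2 : ℝ))

end Pool.Agent.J4H18.EX
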